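import Pool.Agent.W_MP_f61043B_lc.CC

/-!
# MP_f61043_lc, part B : few names of subsets of sets of size `< λ_j`

`namesCC`: `i = nx j`, `λ = ci (th i)`.  `N = X → {T : Set (range (sp i)) // #T < λ}`; `#N ≤ λ` (there are at most `λ` subsets of size `< λ`
of a set of size `≤ λ`, `inac_pow`).  `F n x = ofS i (n x)`.  As in `namesB`, take `q' ≤_i q` such that for every `x` and every `p` there is `p'`
with `LeS i p' p` such that `repl i p' q'` decides `τ x` (`c = λ`, `#X < λ`).  `T0 = {t | ∃ a, t = sp i a ∧ Frc (τ x) (repl i a q')}`.  Let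
`T ⊆ T0` be a maximal set of pairwise incompatible elements (Zorn; `t`, `t'` are compatible if there are `a`, `a'`, `m` with
`sp i a = t`, `sp i a' = t'`, `LeS i m a`, `LeS i m a'`).  By `cc` `#T < λ` (otherwise there is an injective map of `Iio (th i)` into `T`).
`io q' ⊓ ofS i T = io q' ⊓ ofS i T0 = io q' ⊓ τ x`: if `m ≤ q'`, `LeS i m a`, `sp i a ∈ T0` then `sp i m ∈ T0`, so it is compatible
with a member of `T`.
-/

universe u

open Cardinal Set Filter

namespace F61B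

open Pool.Agent.W_MP_315f31_lc

variable {K : Type u} [LinearOrder K] [WellFoundedLT K] {S : SetB K}

omit [WellFoundedLT K] in
theorem CC2_inf {q : Cnd S} {u v : DB S}
    (h : ∀ m : Cnd S, Le m q → ((show PL (Le (S := S)) from m) ∈ u.1 ↔
      (show PL (Le (S := S)) from m) ∈ v.1)) : io q ⊓ u = io q ⊓ v := by
  refine le_antisymm ?_ ?_
  · rintro r ⟨h1, h2⟩
    refine ⟨h1, IM.RO.mem_of_dense fun r' hr' => ?_⟩
    obtain ⟨t, ht, ht'⟩ := h1 r' hr'
    exact ⟨t, ht, (h t ht').1 (IM.RO.mem_lower h2 (le_trans (show (show PL (Le (S := S)) from t) ≤ r' from ht) hr'))⟩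
  · rintro r ⟨h1, h2⟩
    refine ⟨h1, IM.RO.mem_of_dense fun r' hr' => ?_⟩
    obtain ⟨t, ht, ht'⟩ := h1 r' hr'
    exact ⟨t, ht, (h t ht').2 (IM.RO.mem_lower h2 (le_trans (show (show PL (Le (S := S)) from t) ≤ r' from ht) hr'))⟩

/-- There are few subsets of size less than `λ`. -/
theorem CC2_mk (j : K) {A : Type u} (hA : #A ≤ ci (S.th (S.nx j))) :
    #{T : Set A // #T < ci (S.th (S.nx j))} ≤ ci (S.th (S.nx j)) := by
  classical
  have h0 := aleph0_le_th S (S.nx j)
  have hex : ∀ T : {T : Set A // #T < ci (S.th (S.nx j))}, ∃ y : Iio (S.th (S.nx j)), #T.1 ≤ ci y.1 := by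
    intro T
    have hlt : ci (S.th (S.nx j)) < #K := S.card_lt _
    obtain ⟨k, hk⟩ := exists_ci_eq (T.2.trans hlt)
    refine ⟨⟨k, ?_⟩, hk.ge⟩
    by_contra hc
    have h1 := ci_mono (not_lt.1 (fun h => hc h) : S.th (S.nx j) ≤ k)
    rw [hk] at h1
    exact absurd T.2 (not_lt.2 h1)
  choose y hy using hex
  have h1 : #{T : Set A // #T < ci (S.th (S.nx j))} ≤
      #(Σ y : Iio (S.th (S.nx j)), {T : Set A // #T ≤ ci y.1}) := by
    refine ⟨⟨fun T => ⟨y T, ⟨T.1, hy T⟩⟩, ?_⟩⟩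
    intro T T' he
    have h2 : (⟨y T, ⟨T.1, hy T⟩⟩ : Σ y : Iio (S.th (S.nx j)), {T : Set A // #T ≤ ci y.1}).2.1 =
      (⟨y T', ⟨T'.1, hy T'⟩⟩ : Σ y : Iio (S.th (S.nx j)), {T : Set A // #T ≤ ci y.1}).2.1 :=
      congrArg (fun z : Σ y : Iio (S.th (S.nx j)), {T : Set A // #T ≤ ci y.1} => z.2.1) he
    exact Subtype.ext h2
  refine h1.trans ?_
  rw [mk_sigma]
  have h2 : ∀ y : Iio (S.th (S.nx j)), #{T : Set A // #T ≤ ci y.1} ≤ ci (S.th (S.nx j)) := by
    intro y
    refine (Cardinal.mk_bounded_set_le A (ci y.1)).trans ?_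
    exact (power_le_power_right (max_le hA h0)).trans
      (inac_pow (S.la_inac j) (S.th_init _ _ y.2))
  refine (sum_le_sum _ _ h2).trans ?_
  rw [sum_const']
  exact (mul_eq_self h0).le

/-- Names of subsets of sets of size `< λ_j`. -/
theorem namesCC (j : K) {X : Type u} (hX : #X < ci (S.th (S.nx j))) :
    ∃ (N : Type u) (F : N → X → DB S), #N ≤ ci (S.th (S.nx j)) ∧ ∀ (τ : X → DB S) (q : Cnd S),
      ∃ (q' : Cnd S) (n : N), LeI (S.nx j) q' q ∧ ∀ x, io q' ⊓ τ x = io q' ⊓ F n x := by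
  classical
  have h0 := aleph0_le_th S (S.nx j)
  have hsp := mk_sp_nx S j
  refine ⟨X → {T : Set (range (sp (S := S) (S.nx j))) // #T < ci (S.th (S.nx j))},
    fun n x => ofS (S.nx j) (Subtype.val '' (n x).1), ?_, ?_⟩
  · rw [← Cardinal.power_def]
    exact (power_le_power_right (CC2_mk j hsp)).trans (inac_pow (S.la_inac j) hX)
  · intro τ q
    obtain ⟨q', hq', hE⟩ := distS (spc_nx S j) (A := ULift.{u} Bool) hX.le
      (fun x a => sg (τ x) a.down) q (fun x => by
        have h1 : (⊤ : DB S) ≤ ⨆ a : ULift.{u} Bool, sg (τ x) a.down := by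
          rw [← sup_compl_eq_top (x := τ x)]
          exact sup_le (le_iSup (fun a : ULift.{u} Bool => sg (τ x) a.down) ⟨true⟩)
            (le_iSup (fun a : ULift.{u} Bool => sg (τ x) a.down) ⟨false⟩)
        exact le_top.trans h1)
    let T0 : X → Set (range (sp (S := S) (S.nx j))) := fun x =>
      {t | ∃ a : Cnd S, sp (S.nx j) a = t.1 ∧ Frc (τ x) (repl (S.nx j) a q')}
    let Cm : range (sp (S := S) (S.nx j)) → range (sp (S := S) (S.nx j)) → Prop := fun t t' =>
      ∃ m a a' : Cnd S, sp (S.nx j) a = t.1 ∧ sp (S.nx j) a' = t'.1 ∧ LeS (S.nx j) m a ∧ LeS (S.nx j) m a'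
    have hmax : ∀ x, ∃ T, Maximal (· ∈ {T : Set (range (sp (S := S) (S.nx j))) | T ⊆ T0 x ∧
        ∀ t ∈ T, ∀ t' ∈ T, Cm t t' → t = t'}) T := by
      intro x
      refine zorn_subset _ fun c hc hch => ⟨⋃₀ c, ⟨?_, ?_⟩, fun s hs => subset_sUnion_of_mem hs⟩
      · exact sUnion_subset fun s hs => (hc hs).1
      · rintro t ⟨s, hs, hts⟩ t' ⟨s', hs', hts'⟩ hC
        rcases hch.total hs hs' with hss | hss
        · exact (hc hs').2 t (hss hts) t' hts' hC
        · exact (hc hs).2 t hts t' (hss hts') hC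
    choose T hT using hmax
    have hTcard : ∀ x, #(T x) < ci (S.th (S.nx j)) := by
      intro x
      by_contra hc
      obtain ⟨e⟩ := Cardinal.le_def _ _ |>.1 (not_lt.1 hc)
      have hr : ∀ γ : K, ∃ a : Cnd S, ∀ h : γ < S.th (S.nx j), sp (S.nx j) a = (e ⟨γ, h⟩).1.1 := by
        intro γ
        by_cases h : γ < S.th (S.nx j)
        · obtain ⟨a, ha⟩ := (e ⟨γ, h⟩).1.2
          exact ⟨a, fun _ => ha⟩
        · exact ⟨q, fun h' => absurd h' h⟩
      choose a ha using hr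
      obtain ⟨γ, γ', hγ, hγ', hlt, -, m, hm, hm'⟩ := cc j a id (fun γ h => h)
      have hlt' : γ < γ' := hlt
      have h1 := (hT x).prop.2 (e ⟨γ, hγ⟩).1 (e ⟨γ, hγ⟩).2 (e ⟨γ', hγ'⟩).1 (e ⟨γ', hγ'⟩).2
        ⟨m, a γ, a γ', ha γ hγ, ha γ' hγ', hm, hm'⟩
      have h2 := e.injective (Subtype.ext h1)
      exact absurd (congrArg Subtype.val h2) hlt'.ne
    refine ⟨q', fun x => ⟨T x, hTcard x⟩, hq', fun x => CC2_inf fun m hm => ⟨?_, ?_⟩⟩
    · intro hmτ m1 hm1
      have hm1' : Le m1 m := hm1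
      have hm1q : Le m1 q' := IsPre.trans _ _ _ hm1' hm
      obtain ⟨p', c, hp', hF⟩ := hE x m1 (fun k _ => hm1q k)
      have h4 : Le (repl (S.nx j) p' m1) m1 := repl_le (fun k _ => Ext.refl _) hp'
      have h5 : Le (repl (S.nx j) p' m1) (repl (S.nx j) p' q') :=
        repl_mono (fun k _ => hm1q k) (fun k _ => Ext.refl _)
      have h6 : (show PL (Le (S := S)) from repl (S.nx j) p' m1) ∈ (τ x).1 :=
        IM.RO.mem_lower hmτ (show Le (repl (S.nx j) p' m1) m from IsPre.trans _ _ _ h4 hm1')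
      have h7 : Frc (τ x) (repl (S.nx j) p' q') := by
        obtain ⟨c⟩ := c
        cases c with
        | true => exact hF
        | false =>
          have hF' : (show PL (Le (S := S)) from repl (S.nx j) p' q') ∈ ((τ x)ᶜ).1 := hF
          exact absurd h6 (hF' (show PL (Le (S := S)) from repl (S.nx j) p' m1) h5)
      have h8 : (⟨sp (S.nx j) p', ⟨p', rfl⟩⟩ : range (sp (S := S) (S.nx j))) ∈ T0 x := ⟨p', rfl, h7⟩
      obtain ⟨t, ht, m', a, a', ha, ha', hma, hma'⟩ : ∃ t ∈ T x,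
          Cm (⟨sp (S.nx j) p', ⟨p', rfl⟩⟩ : range (sp (S := S) (S.nx j))) t := by
        by_contra hc
        push Not at hc
        have hself : Cm (⟨sp (S.nx j) p', ⟨p', rfl⟩⟩ : range (sp (S := S) (S.nx j)))
            ⟨sp (S.nx j) p', ⟨p', rfl⟩⟩ :=
          ⟨p', p', p', rfl, rfl, fun k _ => Ext.refl _, fun k _ => Ext.refl _⟩
        have hsym : ∀ t t', Cm t t' → Cm t' t := by
          rintro t t' ⟨m, a, a', h1, h2, h3, h4⟩
          exact ⟨m, a', a, h2, h1, h4, h3⟩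
        have hin : insert (⟨sp (S.nx j) p', ⟨p', rfl⟩⟩ : range (sp (S := S) (S.nx j))) (T x) ∈
            {T : Set (range (sp (S := S) (S.nx j))) | T ⊆ T0 x ∧
              ∀ t ∈ T, ∀ t' ∈ T, Cm t t' → t = t'} := by
          refine ⟨insert_subset h8 (hT x).prop.1, ?_⟩
          rintro t ht t' ht' hC
          rcases ht with rfl | ht
          · rcases ht' with rfl | ht'
            · rfl
            · exact absurd hC (hc t' ht')
          · rcases ht' with rfl | ht'
            · exact absurd (hsym _ _ hC) (hc t ht)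
            · exact (hT x).prop.2 t ht t' ht' hC
        have h9 := (hT x).le_of_ge hin (subset_insert _ _) (mem_insert _ _)
        exact hc _ h9 hself
      refine ⟨repl (S.nx j) m' m1, ?_, a', ⟨t, ht, ha'.symm⟩, ?_⟩
      · refine repl_le (fun k _ => Ext.refl _) ?_
        have h10 : LeS (S.nx j) m' p' := (leS_congr rfl ha).1 hma
        exact fun k hk => (h10 k hk).trans (hp' k hk)
      · exact (leS_congr (sp_repl (S.nx j) m' m1) rfl).2 hma'
    · intro hmF
      refine IM.RO.mem_of_dense fun m0 hm0 => ?_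
      obtain ⟨m1, hm1, a, ⟨t, ht, hta⟩, ha3⟩ := hmF m0 hm0
      have hm1q : Le m1 q' := IsPre.trans _ _ _ hm1 (IsPre.trans _ _ _ hm0 hm)
      obtain ⟨a1, ha1, hF⟩ := (hT x).prop.1 ht
      have h1 : LeS (S.nx j) m1 a1 := (leS_congr rfl (hta.symm.trans ha1.symm)).1 ha3
      have h2 : Le (repl (S.nx j) m1 m1) (repl (S.nx j) a1 q') := repl_mono (fun k _ => hm1q k) h1
      rw [repl_self] at h2
      exact ⟨m1, hm1, IM.RO.mem_lower hF h2⟩

end F61B
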