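import Pool.Agent.W_MP_f61043B_lc.DLb

/-!
# MP_f61043_lc, part B : the density lemma, third part

`dl`: `T = {t | ∃ a, sp i0 a = t ∧ ∀ᶠ α, Frc (b α) (repl i0 a (pt r2 i α))}`.  For almost all `α` (`ev_all`, index set `range (sp i0)`, fewer
than `ci (th (nx i))` elements) the following holds for all `a`: there are `a'`, `c` (those of `dl3`) with
`Frc (sg (b α) c) (repl i0 a' (pt r2 i α))`, and if `sp i0 a ∈ T` then `Frc (b α) (repl i0 a (pt r2 i α))`.  Let `m ≤ pt r2 i α`.  If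
`Frc (b α) m`: for `m1 ≤ m` take `a'`, `c` for `a = m1`; `repl i0 a' m1` is below `m1` and below `repl i0 a' (pt r2 i α)`, so `c = true`
and `sp i0 a' ∈ T` (the statement in `dl3` is about almost all `α`), so `ofS i0 T` is forced by `repl i0 a' m1`.  Conversely, if `m` forces
`ofS i0 T`, below every `m0 ≤ m` there is `m1` with `LeS i0 m1 a`, `sp i0 a ∈ T`: `m1 ≤ repl i0 a (pt r2 i α)`.  (See `W61.pnames`.)
-/

universe u

open Cardinal Set Filter

namespace F61B

open Pool.Agent.W_MP_315f31_lc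

variable {K : Type u} [LinearOrder K] [WellFoundedLT K] {S : SetB K}

/-- `r ⊩* b(α) = e` for almost all `α`. -/
def Star (r : RC S) (i : K) (b : K → DB S) (e : DB S) : Prop :=
  ∀ᶠ α in (S.U i : Filter K), ∀ m, Le m (pt r i α) → (Frc (b α) m ↔ Frc e m)

theorem Star.mono {r r' : RC S} {i : K} {b : K → DB S} {e : DB S} (h : Star r i b e) (hr : RLe r' r) :
    Star r' i b e := by
  have h1 := ev_pt_mono hr i
  unfold Star at h ⊢
  filter_upwards [h, h1] with α ha hb m hm
  exact ha m (IsPre.trans _ _ _ hm hb)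

/-- The density lemma. -/
theorem dl {i0 i : K} (hi : i0 ≤ i) (b : K → DB S) (r : RC S) : ∃ r2, RLeI i0 r2 r ∧
    ∃ T : Set (range (sp (S := S) i0)), Star r2 i b (ofS i0 (Subtype.val '' T)) := by
  obtain ⟨r2, hr2, h2⟩ := dl3 hi b r
  refine ⟨r2, hr2, {t | ∃ a : Cnd S, sp i0 a = t.1 ∧
    ∀ᶠ α in (S.U i : Filter K), Frc (b α) (repl i0 a (pt r2 i α))}, ?_⟩
  have hcard : #(range (sp (S := S) i0)) < ci (S.th (S.nx i)) :=
    lt_of_le_of_lt ((mk_sp_le_nu S i0).trans (nu_card_mono S hi)) (nu_lt_la S i)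
  choose a' c h3 h4 using h2
  have hrep : ∀ t : range (sp (S := S) i0), ∃ a : Cnd S, sp i0 a = t.1 := fun t => t.2
  choose A hA using hrep
  have hP := ev_all S i hcard (P := fun t α => Frc (sg (b α) (c (A t))) (repl i0 (a' (A t)) (pt r2 i α)))
    fun t => h4 (A t)
  have hQ := ev_all S i hcard (P := fun t α => (∃ a : Cnd S, sp i0 a = t.1 ∧
      ∀ᶠ α in (S.U i : Filter K), Frc (b α) (repl i0 a (pt r2 i α))) →
      Frc (b α) (repl i0 (A t) (pt r2 i α))) (by
    intro t
    by_cases ht : ∃ a : Cnd S, sp i0 a = t.1 ∧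
      ∀ᶠ α in (S.U i : Filter K), Frc (b α) (repl i0 a (pt r2 i α))
    · obtain ⟨a, ha, ha2⟩ := ht
      filter_upwards [ha2] with α hα _
      rw [repl_congr (a := A t) (a' := a) ((hA t).trans ha.symm)]
      exact hα
    · exact Filter.Eventually.of_forall fun α h => absurd h ht)
  unfold Star
  filter_upwards [hP, hQ] with α hPα hQα m hm
  constructor
  · intro hb m1 hm1
    obtain ⟨t, ht⟩ : ∃ t : range (sp (S := S) i0), t.1 = sp i0 m1 := ⟨⟨_, m1, rfl⟩, rfl⟩
    have hAm : sp i0 (A t) = sp i0 m1 := (hA t).trans ht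
    have hLeS : LeS i0 (a' (A t)) m1 := (leS_congr rfl hAm).1 (h3 (A t))
    have hm1' : Le m1 (pt r2 i α) := IsPre.trans _ _ _ hm1 hm
    have hr1 : Le (repl i0 (a' (A t)) m1) m1 :=
      repl_le (le_iff.1 (IsPre.refl (L := Le (S := S)) m1)).2 hLeS
    have hr3 : Le (repl i0 (a' (A t)) m1) (repl i0 (a' (A t)) (pt r2 i α)) :=
      repl_mono (le_iff.1 hm1').2 fun j _ => Ext.refl _
    have h5 : Frc (sg (b α) (c (A t))) (repl i0 (a' (A t)) m1) := (hPα t).mono hr3
    have h6 : Frc (b α) (repl i0 (a' (A t)) m1) := hb.mono (IsPre.trans _ _ _ hr1 hm1)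
    have hc : c (A t) = true := by
      by_contra hc
      rw [Bool.not_eq_true] at hc
      rw [hc] at h5
      exact h5 (show PL (Le (S := S)) from repl i0 (a' (A t)) m1) (le_refl _) h6
    refine ⟨repl i0 (a' (A t)) m1, hr1, a' (A t), ?_, ?_⟩
    · refine ⟨⟨sp i0 (a' (A t)), _, rfl⟩, ⟨a' (A t), rfl, ?_⟩, rfl⟩
      have h7 := h4 (A t)
      rw [hc] at h7
      exact h7
    · intro j hj
      rw [repl_lt hj]
      exact Ext.refl _
  · intro he
    refine IM.RO.mem_of_dense fun q hq => ?_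
    obtain ⟨r', hr', a, ⟨t, htT, hta⟩, hra⟩ := he q hq
    refine ⟨r', hr', ?_⟩
    have h5 := hQα t htT
    rw [repl_congr (a := A t) (a' := a) ((hA t).trans hta)] at h5
    refine IM.RO.mem_lower h5 ?_
    have h6 : Le (show Cnd S from r') (pt r2 i α) :=
      IsPre.trans _ _ _ (IsPre.trans _ _ _ hr' hq) hm
    have h7 : Le (show Cnd S from r') (repl i0 a (pt r2 i α)) := by
      refine (le_iff (i := i0)).2 ⟨fun j hj => ?_, fun j hj => ?_⟩
      · rw [repl_lt hj]
        exact hra j hj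
      · rw [repl_ge hj]
        exact h6 j
    exact h7

end F61B
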