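import Pool.Agent.W_MP_f61043B_lc.TDex
import Pool.Agent.W_MP_f61043B_lc.DLc

/-!
# MP_f61043_lc, part B : the context of the proof of the relation

`δ` is a limit, `κ = th δ`, `κ⁺ = nu δ`; `J` is a cofinal subset of `δ`, `i0` a successor with `#J ≤ θ_i0`, `i0 ≤ l` for `l ∈ J`.

`exists_le_th_lim`: if `ci (th (nx j)) < c` for all `j < δ` then, by `th_cont` and `sing`, `Iio (th δ)` is the union of the sets
`Iio (th l)`, `l ∈ J'`, of size `< c`, `#J' < ci (th δ)`...: let `J'` be as in `S.sing`.  As `ci (th δ) > max c #J'` there is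
`x < th δ` with `max c #J' ≤ ci x`: (otherwise all initial segments of `Iio (th δ)` are of size `< max c #J'`, so `ci (th δ) ≤ max c #J'`, an
ordinal all of whose elements have cardinality `< μ` has cardinality `≤ μ`); `x < th j` for some `j < δ` (`th_cont`).
`exists_ctx`: from `S.sing` and `exists_le_th_lim` for `c = #J'`; `i0 = nx j < δ`, `J = {l ∈ J' | i0 ≤ l}`.
-/

universe u

open Cardinal Set Filter

namespace F61B

open Pool.Agent.W_MP_315f31_lc

variable {K : Type u} [LinearOrder K] [WellFoundedLT K]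

/-- The context. -/
structure Ctx (S : SetB K) (δ i0 : K) (J : Set K) : Prop where
  lim : IsLim δ
  lt : ∀ l ∈ J, l < δ
  cof : ∀ x < δ, ∃ l ∈ J, x < l
  succ : ∃ j0, i0 = S.nx j0
  ge : ∀ l ∈ J, i0 ≤ l
  card : #J ≤ ci (S.th i0)
  i0_lt : i0 < δ

theorem nx_lt_lim {S : SetB K} {δ l : K} (hδ : IsLim δ) (h : l < δ) : S.nx l < δ := by
  obtain ⟨y, h1, h2⟩ := hδ.2 l h
  exact ((nx_le_iff S).2 h1).trans_lt h2

theorem exists_le_th_lim (S : SetB K) {δ : K} (hδ : IsLim δ) {c : Cardinal.{u}}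
    (hc : c < ci (S.th δ)) : ∃ j < δ, c ≤ ci (S.th (S.nx j)) := by
  obtain ⟨k, rfl⟩ := exists_ci_eq (hc.trans (S.card_lt _))
  have hk : k < S.th δ := by
    by_contra h
    exact absurd hc (not_lt.2 (ci_mono (not_lt.1 h)))
  obtain ⟨j, hj, hj2⟩ := S.th_cont δ hδ k hk
  exact ⟨j, hj, (ci_mono hj2.le).trans (th_card_mono S (lt_nx S j).le)⟩

theorem exists_ctx (S : SetB K) {δ : K} (hδ : IsLim δ) : ∃ i0 J, Ctx S δ i0 J := by
  obtain ⟨J', h1, h2, h3⟩ := S.sing δ hδ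
  obtain ⟨j, hj, hj2⟩ := exists_le_th_lim S hδ h3
  have hi0 : S.nx j < δ := nx_lt_lim hδ hj
  refine ⟨S.nx j, {l | l ∈ J' ∧ S.nx j ≤ l}, hδ, fun l hl => h1 l hl.1, fun x hx => ?_, ⟨j, rfl⟩,
    fun l hl => hl.2, ?_, hi0⟩
  · obtain ⟨l, hl, hl2⟩ := h2 (max x (S.nx j)) (max_lt hx hi0)
    exact ⟨l, ⟨hl, ((le_max_right _ _).trans_lt hl2).le⟩, (le_max_left _ _).trans_lt hl2⟩
  · exact (mk_le_mk_of_subset fun l hl => hl.1).trans hj2

variable {S : SetB K}

/-- The codes of the values. -/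
abbrev EE (S : SetB K) (i0 : K) (J : Set K) : Type u := J → Set (range (sp (S := S) i0))

/-- The value with the code `e`, at `l`. -/
noncomputable def ev {i0 : K} {J : Set K} (e : EE S i0 J) (l : J) : DB S := ofS i0 (Subtype.val '' e l)

/-- `r` decides the values of `b` at almost all points of all the levels in `J`. -/
def StarJ {i0 : K} {J : Set K} (r : RC S) (b : K → DB S) (e : EE S i0 J) : Prop :=
  ∀ l : J, Star r l.1 b (ev e l)

theorem StarJ.mono {i0 : K} {J : Set K} {r r' : RC S} {b : K → DB S} {e : EE S i0 J}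
    (h : StarJ r b e) (hr : RLe r' r) : StarJ r' b e := fun l => (h l).mono hr

/-- `X` is unbounded in `nu δ`. -/
def Unb (S : SetB K) (δ : K) (X : Set K) : Prop := ∀ β < S.nu δ, ∃ ξ ∈ X, β < ξ ∧ ξ < S.nu δ

/-- The elements which can be chosen at the level `l`. -/
def TT {i0 : K} {J : Set K} (col : K → K → DB S) (e : EE S i0 J) (l : J) (n : NN S (S.nx l.1))
    (u w : RC S) : Set K :=
  {ξ | ∃ w', RLeI (S.nx l.1) w' w ∧ TD (S.nx l.1) w' (col ξ) (nm n) ∧
    ∀ l' : J, l < l' → Star (rrepl (S.nx l.1) u w') l'.1 (col ξ) (ev e l')}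

theorem mk_EE {δ i0 : K} {J : Set K} (h : Ctx S δ i0 J) : #(EE S i0 J) ≤ ci (S.nu i0) := by
  obtain ⟨j0, hj0⟩ := h.succ
  have h0 := aleph0_le_th S i0
  have h1 : #(range (sp (S := S) i0)) ≤ ci (S.th i0) := by
    rw [hj0]
    exact mk_sp_nx S j0
  have h2 : #(EE S i0 J) = (2 ^ #(range (sp (S := S) i0))) ^ #J := by
    rw [← mk_set]
    exact (power_def _ _).symm
  rw [h2, ← power_mul, S.nu_card, ← S.gch _ h0]
  refine power_le_power_left two_ne_zero ?_
  exact (mul_le_mul' h1 h.card).trans (mul_eq_self h0).le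

/-- (a) -/
theorem exists_starJ {δ i0 : K} {J : Set K} (h : Ctx S δ i0 J) (b : K → DB S) (r : RC S) :
    ∃ r', RLeI i0 r' r ∧ ∃ e : EE S i0 J, StarJ r' b e := by
  obtain ⟨q, hq, hq2⟩ := distR (S := S) i0 (J := J) (h.card.trans (th_lt_nu S i0).le)
    (fun l => {v | ∃ T : Set (range (sp (S := S) i0)), Star v l.1 b (ofS i0 (Subtype.val '' T))})
    (by
      rintro l v v' ⟨T, hT⟩ hv
      exact ⟨T, hT.mono hv.1⟩)
    r
    (by
      intro l v _
      obtain ⟨r2, hr2, T, hT⟩ := dl (h.ge l.1 l.2) b v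
      exact ⟨r2, hr2, T, hT⟩)
  choose e he using hq2
  exact ⟨q, hq, e, he⟩

/-- Few bounded sets have a common bound. -/
theorem unb_of_iUnion {δ : K} {I : Type u} (hI : #I < ci (S.nu δ)) (X : I → Set K)
    (h : Unb S δ (⋃ i, X i)) : ∃ i, Unb S δ (X i) := by
  by_contra hc
  push Not at hc
  have h1 : ∀ i, ∃ β < S.nu δ, ∀ ξ ∈ X i, β < ξ → S.nu δ ≤ ξ := by
    intro i
    by_contra h2
    refine hc i fun β hβ => ?_
    by_contra h3
    refine h2 ⟨β, hβ, fun ξ hξ hβξ => ?_⟩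
    by_contra h4
    exact h3 ⟨ξ, hξ, hβξ, not_le.1 h4⟩
  choose f hf hf2 using h1
  obtain ⟨b, hb, hb2⟩ := regOf (S.nu_init δ) (nu_regular S δ) f hf hI
  obtain ⟨ξ, hξ, hbξ, hξ2⟩ := h b hb
  obtain ⟨i, hi⟩ := mem_iUnion.1 hξ
  exact absurd hξ2 (not_lt.2 (hf2 i ξ hi ((hb2 i).trans hbξ)))

end F61B
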