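import Pool.Agent.W_MP_f61043B_lc.NamesB2
import Pool.Agent.W_MP_f61043B_lc.Ctx

/-!
# MP_f61043_lc, part B : names of subsets of `th δ`, `δ` a limit

`namesLim` (`δ` a limit, `#A ≤ ci (th δ)`): see the end of section 5 of the paper proof: `i0`, `J` from `exists_ctx`; `A` is the union of
sets `A_l`, `l ∈ J`, of size `≤ ci (th (nx l))` (an injection `A → Iio (th δ)` and `th_cont`, `cof`), `F_l : N_l → A_l → D` from `namesB` for
`spc_nx` (`#N_l ≤ 2 ^ ci (th (nx l)) = ci (nu (nx l)) ≤ ci (th δ)`).  `N = J × range (sp i0) → Option (Σ l, N_l)`: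
`#N ≤ ci (th δ) ^ ci (th i0) ≤ 2 ^ ci (th δ)`.  For `ν : N` and `a : A` let `l` be a (chosen) index with `a ∈ A_l` and
`F ν a = ⨆ t (n : N_l) (_ : ν (l, t) = some ⟨l, n⟩), ofS i0 {t} ⊓ F_l n a`.  Given `τ`, `q`: `f l n = ⨅ a : A_l, W61.eqv (τ a) (F_l n a)`; by
`namesB` `⨆ n, f l n = ⊤`, `distS` (`i0`, `c = ci (th i0)`, index set `J`) gives `q' ≤_i0 q` such that for all `l`, `p` there are `p'` and
`n` with `Frc (f l n) (repl i0 p' q')`.  `ν (l, t) = some ⟨l, n⟩` for a chosen `n` with `Frc (f l n) (repl i0 a q')`, `sp i0 a = t`, if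
there is one, and `none` otherwise.  `io q' ⊓ τ a = io q' ⊓ F ν a`: as in `namesB`.
-/

universe u

open Cardinal Set Filter

namespace F61B

open Pool.Agent.W_MP_315f31_lc

variable {K : Type u} [LinearOrder K] [WellFoundedLT K]

omit [WellFoundedLT K] in
theorem NamesLim_inf {S : SetB K} {q : Cnd S} {u v : DB S}
    (h : ∀ m : Cnd S, Le m q → (Frc u m ↔ Frc v m)) : io q ⊓ u = io q ⊓ v := by
  refine le_antisymm ?_ ?_
  · rintro r ⟨h1, h2⟩
    refine ⟨h1, IM.RO.mem_of_dense fun r' hr' => ?_⟩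
    obtain ⟨t, ht, ht'⟩ := h1 r' hr'
    exact ⟨t, ht, (h t ht').1 (IM.RO.mem_lower h2 (le_trans (show (show PL (Le (S := S)) from t) ≤ r' from ht) hr'))⟩
  · rintro r ⟨h1, h2⟩
    refine ⟨h1, IM.RO.mem_of_dense fun r' hr' => ?_⟩
    obtain ⟨t, ht, ht'⟩ := h1 r' hr'
    exact ⟨t, ht, (h t ht').2 (IM.RO.mem_lower h2 (le_trans (show (show PL (Le (S := S)) from t) ≤ r' from ht) hr'))⟩

/-- The pieces of `A`. -/
theorem NamesLim_lv {S : SetB K} {δ i0 : K} {J : Set K} (h : Ctx S δ i0 J) {A : Type u}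
    (hA : #A ≤ ci (S.th δ)) :
    ∃ lv : A → J, ∀ l : J, #{a : A // lv a = l} ≤ ci (S.th (S.nx l.1)) := by
  obtain ⟨e⟩ := (Cardinal.le_def _ _).1 hA
  have h1 : ∀ a : A, ∃ l : J, (e a).1 < S.th l.1 := by
    intro a
    obtain ⟨j, hj, hj2⟩ := S.th_cont δ h.lim (e a).1 (e a).2
    obtain ⟨l, hl, hl2⟩ := h.cof j hj
    exact ⟨⟨l, hl⟩, hj2.trans (S.th_mono hl2)⟩
  choose lv hlv using h1
  refine ⟨lv, fun l => ?_⟩
  refine (Cardinal.le_def _ _).2 ⟨⟨fun a => ⟨(e a.1).1, ?_⟩, ?_⟩⟩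
  · have h2 := hlv a.1
    rw [a.2] at h2
    exact h2.trans (S.th_mono (lt_nx S l.1))
  · intro a b hab
    have h3 : (e a.1).1 = (e b.1).1 := congrArg (fun x : Iio (S.th (S.nx l.1)) => x.1) hab
    exact Subtype.ext (e.injective (Subtype.ext h3))

theorem NamesLim_card {S : SetB K} {δ i0 : K} {J : Set K} (h : Ctx S δ i0 J) (N : J → Type u)
    (hN : ∀ l, #(N l) ≤ 2 ^ ci (S.th (S.nx l.1))) :
    #(J × range (sp (S := S) i0) → Option (Σ l : J, N l)) ≤ 2 ^ ci (S.th δ) := by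
  have h0 := aleph0_le_th S δ
  have hi : ci (S.th i0) ≤ ci (S.th δ) := th_card_mono S h.i0_lt.le
  have h1 : ∀ l : J, #(N l) ≤ ci (S.th δ) := by
    intro l
    have h2 : S.nx l.1 < δ := nx_lt_lim h.lim (h.lt l.1 l.2)
    calc #(N l) ≤ 2 ^ ci (S.th (S.nx l.1)) := hN l
      _ = ci (S.nu (S.nx l.1)) := by rw [S.gch _ (aleph0_le_th S _), S.nu_card]
      _ ≤ ci (S.th (S.nx (S.nx l.1))) := (nu_lt_la S _).le
      _ ≤ ci (S.th δ) := la_le_th S h2
  have hJ : #J ≤ ci (S.th δ) := h.card.trans hi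
  have h3 : #(Σ l : J, N l) ≤ ci (S.th δ) := by
    rw [Cardinal.mk_sigma]
    calc Cardinal.sum (fun l : J => #(N l)) ≤ Cardinal.sum (fun _ : J => ci (S.th δ)) :=
          Cardinal.sum_le_sum _ _ h1
      _ = #J * ci (S.th δ) := by rw [Cardinal.sum_const, lift_id, lift_id]
      _ ≤ ci (S.th δ) * ci (S.th δ) := mul_le_mul' hJ le_rfl
      _ = ci (S.th δ) := mul_eq_self h0
  have h4 : #(Option (Σ l : J, N l)) ≤ ci (S.th δ) := by
    rw [Cardinal.mk_option]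
    exact (add_le_add h3 (one_le_aleph0.trans h0)).trans (add_eq_self h0).le
  have h5 : #(J × range (sp (S := S) i0)) ≤ ci (S.th δ) := by
    obtain ⟨j0, hj0⟩ := h.succ
    have h6 : #(range (sp (S := S) i0)) ≤ ci (S.th i0) := by
      rw [hj0]
      exact mk_sp_nx S j0
    rw [Cardinal.mk_prod, lift_id, lift_id]
    exact (mul_le_mul' hJ (h6.trans hi)).trans (mul_eq_self h0).le
  rw [← Cardinal.power_def]
  calc #(Option (Σ l : J, N l)) ^ #(J × range (sp (S := S) i0))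
      ≤ ci (S.th δ) ^ #(J × range (sp (S := S) i0)) := power_le_power_right h4
    _ ≤ ci (S.th δ) ^ ci (S.th δ) := power_le_power_left (aleph0_pos.trans_le h0).ne' h5
    _ = 2 ^ ci (S.th δ) := power_self_eq h0

theorem namesLim (S : SetB K) {δ : K} (hδ : IsLim δ) {A : Type u} (hA : #A ≤ ci (S.th δ)) :
    ∃ (N : Type u) (F : N → A → DB S), #N ≤ 2 ^ ci (S.th δ) ∧ ∀ (τ : A → DB S) (q : Cnd S),
      ∃ (q' : Cnd S) (n : N), Le q' q ∧ ∀ x, io q' ⊓ τ x = io q' ⊓ F n x := by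
  classical
  obtain ⟨i0, J, h⟩ := exists_ctx S hδ
  obtain ⟨lv, hlv⟩ := NamesLim_lv h hA
  choose N G hN hG using fun l : J => namesB (spc_nx S l.1) (hlv l)
  obtain ⟨r, hr⟩ : ∃ r : range (sp (S := S) i0) → Cnd S, ∀ a, sp i0 (r a) = a.1 :=
    ⟨fun a => a.2.choose, fun a => a.2.choose_spec⟩
  obtain ⟨cl, hcl⟩ : ∃ cl : Cnd S → range (sp (S := S) i0), ∀ a, sp i0 (r (cl a)) = sp i0 a :=
    ⟨fun a => ⟨sp i0 a, a, rfl⟩, fun a => hr _⟩
  have hspc : SPc S i0 (ci (S.th i0)) := by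
    obtain ⟨j0, hj0⟩ := h.succ
    rw [hj0]
    exact spc_nx S j0
  refine ⟨J × range (sp (S := S) i0) → Option (Σ l : J, N l),
    fun ν a => toD' (fun m : Cnd S => ∃ (t : range (sp (S := S) i0)) (n : N (lv a)),
      ν (lv a, t) = some ⟨lv a, n⟩ ∧ LeS i0 m (r t) ∧ Frc (G (lv a) n ⟨a, rfl⟩) m)
      (fun p q ⟨t, n, h1, h2, h3⟩ hqp => ⟨t, n, h1, fun j hj => (hqp j).trans (h2 j hj),
        IM.RO.mem_lower h3 hqp⟩), NamesLim_card h N hN, ?_⟩
  intro τ q
  have key : ∀ (x : Σ l : J, N l) (m : Cnd S),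
      Frc (⨅ a : {a : A // lv a = x.1}, W61.eqv (τ a.1) (G x.1 x.2 a)) m ↔
      ∀ (a : {a : A // lv a = x.1}) (m' : Cnd S), Le m' m → (Frc (τ a.1) m' ↔ Frc (G x.1 x.2 a) m') := by
    intro x m
    refine (IM.RO.mem_iInf _ _).trans ?_
    refine forall_congr' fun a => ?_
    exact mem_equiv _ _ _
  obtain ⟨q', hq', hq⟩ := distS hspc h.card
    (fun (l : J) (x : Σ l : J, N l) => if x.1 = l then
      ⨅ a : {a : A // lv a = x.1}, W61.eqv (τ a.1) (G x.1 x.2 a) else ⊥) q (by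
    intro l
    have htop : (⨆ x : Σ l : J, N l, if x.1 = l then
      ⨅ a : {a : A // lv a = x.1}, W61.eqv (τ a.1) (G x.1 x.2 a) else (⊥ : DB S)) = ⊤ := by
      refine eq_top_of_dense fun p => ?_
      obtain ⟨p', n, hp', hn⟩ := hG l (fun a => τ a.1) (show Cnd S from p)
      refine ⟨(show PL (Le (S := S)) from p'), hp'.1, ?_⟩
      refine (IM.RO.mem_iSup _ _).2 fun m hm => ⟨m, le_rfl, ⟨l, n⟩, ?_⟩
      rw [if_pos rfl]
      refine (key ⟨l, n⟩ m).2 fun a m' hm' => ?_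
      have h1 : (show PL (Le (S := S)) from m') ∈ (io p' : DB S).1 :=
        IM.RO.mem_lower (IM.RO.mem_lower (mem_io_self p') hm) hm'
      have h2 := hn a
      constructor
      · intro h3
        have h4 : (show PL (Le (S := S)) from m') ∈ (io p' ⊓ τ a.1).1 := ⟨h1, h3⟩
        rw [h2] at h4
        exact h4.2
      · intro h3
        have h4 : (show PL (Le (S := S)) from m') ∈ (io p' ⊓ G l n a).1 := ⟨h1, h3⟩
        rw [← h2] at h4
        exact h4.2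
    rw [htop]
    exact le_top)
  have hq2 : ∀ (l : J) (p : Cnd S), LeS i0 p q' → ∃ (p' : Cnd S) (n : N l), LeS i0 p' p ∧
      Frc (⨅ a : {a : A // lv a = l}, W61.eqv (τ a.1) (G l n a)) (repl i0 p' q') := by
    intro l p hp
    obtain ⟨p', ⟨l', n⟩, h1, h2⟩ := hq l p hp
    by_cases hl : l' = l
    · subst hl
      refine ⟨p', n, h1, ?_⟩
      simp only [if_pos] at h2
      exact h2
    · simp only [if_neg hl] at h2
      exact absurd h2 (IM.RO.mem_bot _)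
  refine ⟨q', fun x => if hx : ∃ n : N x.1, Frc (⨅ a : {a : A // lv a = x.1},
    W61.eqv (τ a.1) (G x.1 n a)) (repl i0 (r x.2) q') then some ⟨x.1, hx.choose⟩ else none,
    hq'.1, fun a => NamesLim_inf fun m hm => ⟨?_, ?_⟩⟩
  · intro hmτ m1 hm1
    have hm1' : Le m1 m := hm1
    have hm1q : Le m1 q' := IsPre.trans _ _ _ hm1' hm
    obtain ⟨p', n, h1, h2⟩ := hq2 (lv a) m1 ((le_iff (i := i0)).1 hm1q).1
    have h3 : repl i0 (r (cl p')) q' = repl i0 p' q' := repl_congr (hcl p') q'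
    have hx : ∃ n : N (lv a), Frc (⨅ a' : {a' : A // lv a' = lv a},
      W61.eqv (τ a'.1) (G (lv a) n a')) (repl i0 (r (cl p')) q') := ⟨n, by rw [h3]; exact h2⟩
    have h4 : Le (repl i0 p' m1) m1 := repl_le (fun j _ => Ext.refl _) h1
    have h5 : Le (repl i0 p' m1) (repl i0 (r (cl p')) q') := by
      rw [h3]
      exact repl_mono ((le_iff (i := i0)).1 hm1q).2 (fun j _ => Ext.refl _)
    have h6 : Frc (τ a) (repl i0 p' m1) :=
      IM.RO.mem_lower hmτ (show (show PL (Le (S := S)) from repl i0 p' m1) ≤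
        (show PL (Le (S := S)) from m) from IsPre.trans (L := Le (S := S)) _ _ _ h4 hm1')
    refine ⟨repl i0 p' m1, h4, cl p', hx.choose, ?_, ?_, ?_⟩
    · exact dif_pos hx
    · exact (leS_congr (sp_repl i0 p' m1).symm (hcl p').symm).1 (fun j _ => Ext.refl _)
    · exact ((key ⟨lv a, hx.choose⟩ _).1 hx.choose_spec ⟨a, rfl⟩ _ h5).1 h6
  · intro hmF
    refine IM.RO.mem_of_dense fun m0 hm0 => ?_
    obtain ⟨m1, hm1, t, n, h1, h2, h3⟩ := hmF m0 hm0
    have hm0' : Le m0 m := hm0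
    have hm1q : Le m1 q' := IsPre.trans (L := Le (S := S)) _ _ _ hm1
      (IsPre.trans (L := Le (S := S)) _ _ _ hm0' hm)
    have h4 : Le (repl i0 m1 m1) (repl i0 (r t) q') := repl_mono ((le_iff (i := i0)).1 hm1q).2 h2
    rw [repl_self] at h4
    refine ⟨m1, hm1, ?_⟩
    by_cases hx : ∃ n : N (lv a), Frc (⨅ a' : {a' : A // lv a' = lv a},
      W61.eqv (τ a'.1) (G (lv a) n a')) (repl i0 (r t) q')
    · have h5 : (some ⟨lv a, hx.choose⟩ : Option (Σ l : J, N l)) = some ⟨lv a, n⟩ :=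
        (dif_pos hx).symm.trans h1
      have h6 : hx.choose = n := by
        have h7 := Option.some.inj h5
        exact eq_of_heq (Sigma.mk.inj h7).2
      have h8 := ((key ⟨lv a, hx.choose⟩ _).1 hx.choose_spec ⟨a, rfl⟩ _ h4).2
      apply h8
      show Frc (G (lv a) hx.choose ⟨a, rfl⟩) m1
      rw [h6]
      exact h3
    · have h5 : (none : Option (Σ l : J, N l)) = some ⟨lv a, n⟩ := (dif_neg hx).symm.trans h1
      exact absurd h5 (by simp)

end F61B
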