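import Pool.Agent.W_MP_f61043B_lc.Cards
import Pool.Agent.W_MP_f61043B_lc.CC2
import Pool.Agent.W_MP_f61043B_lc.NamesLim
import Pool.Agent.W_61ad90_h15.Gch

/-!
# MP_f61043_lc, part B : GCH in the extension

`gch_ofB`: `A` infinite, names `F' : N → A → D` of all subsets of `A`, and a well-order `B` with `#N ≤ #B` whose proper initial segments
are images of `A` in the extension: take a surjection `e : B → N`, `F i = F' (e i)` (if `N` is empty the algebra is trivial, since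
the condition for `c ≠ ⊥` fails; `B` is not empty or trivial too).
Native images: `W61.Onto.native`, `W61.covN_of`; for `B = To (succ #A)` the initial segments have size `≤ #A` (`W61.mk_Iio_To`).

`gch_B`: let `j` be the least element with `#A < ci (th (nx j))` (`exists_le_th`); `ci (th j) ≤ #A`.
1. `#A = ci (th j)`, `j` the least element or a successor: `namesB` with `spc_least`, `spc_nx`, `#N ≤ 2 ^ #A = succ #A`.
2. `#A = ci (th j)`, `j` a limit: `namesLim`.  3. `ci (th j) < #A`, so `ci (nu j) ≤ #A`; if `#A = ci (nu j)`: `namesB` with `spc_nu`.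
4. Otherwise `ci (rho j) ≤ #A < ci (th (nx j))`: `namesCC`, `B = Iio (th (nx j))`; its initial segments are images of `rho j` (`coll`), so of
`A` (a surjection `A → Iio (rho j)`).
In all cases `#B < #K`: `S.card_lt`, and `succ #A ≤ ...< #K` as `#K` is inaccessible.
-/

universe u

open Cardinal Set Filter

namespace F61B

open Pool.Agent.W_MP_315f31_lc

variable {K : Type u} [LinearOrder K] [WellFoundedLT K]

theorem gch_ofB {D : Type u} [CompleteBooleanAlgebra D] [Nontrivial D] {A N B : Type u} [LinearOrder B]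
    (hN : #N ≤ #B) (F' : N → A → D) (hF : ∀ (g : A → D) (c : D), c ≠ ⊥ → ∃ (b : D) (n : N), b ≠ ⊥ ∧ b ≤ c ∧
      ∀ a, b ⊓ g a = b ⊓ F' n a) (hB : ∀ i : B, ∃ G : A → B → D, SV G ∧ ∀ x < i, (⨆ a, G a x) = ⊤) :
    ∃ F : B → A → D,
      (∀ g : A → D, ∀ c : D, c ≠ ⊥ → ∃ (b : D) (i : B), b ≠ ⊥ ∧ b ≤ c ∧ ∀ a, b ⊓ g a = b ⊓ F i a) ∧
      ∀ i : B, ∃ G : A → B → D, SV G ∧ ∀ x < i, (⨆ a, G a x) = ⊤ := by
  have hne : Nonempty N := by
    obtain ⟨b, n, -⟩ := hF (fun _ => ⊥) ⊤ top_ne_bot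
    exact ⟨n⟩
  obtain ⟨e, he⟩ : ∃ e : B → N, Function.Surjective e := by
    obtain ⟨i⟩ := Cardinal.le_def _ _ |>.1 hN
    exact ⟨Function.invFun i, Function.invFun_surjective i.injective⟩
  refine ⟨fun i => F' (e i), ?_, hB⟩
  intro g c hc
  obtain ⟨b, n, h1, h2, h3⟩ := hF g c hc
  obtain ⟨i, rfl⟩ := he n
  exact ⟨b, i, h1, h2, h3⟩

theorem gchB_succ_lt (S : SetB K) {c : Cardinal.{u}} (hc : c < #K) : Order.succ c < #K :=
  (Order.succ_le_of_lt (cantor c)).trans_lt (S.inac.isStrongLimit.isStrongPrelimit hc)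

/-- from names below conditions to names below elements of the algebra -/
theorem gchB_names {S : SetB K} {A N : Type u} (F : N → A → DB S)
    (h : ∀ (τ : A → DB S) (q : Cnd S), ∃ (q' : Cnd S) (n : N), Le q' q ∧
      ∀ x, io q' ⊓ τ x = io q' ⊓ F n x) (g : A → DB S) (c : DB S) (hc : c ≠ ⊥) :
    ∃ (b : DB S) (n : N), b ≠ ⊥ ∧ b ≤ c ∧ ∀ a, b ⊓ g a = b ⊓ F n a := by
  obtain ⟨q, hq⟩ := exists_io_le (L := Le (S := S)) hc
  obtain ⟨q', n, hq', hn⟩ := h g q
  exact ⟨io q', n, io_ne_bot q', (io_mono hq').trans hq, hn⟩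

theorem gchB_cov {A B D : Type u} [LinearOrder B] [CompleteBooleanAlgebra D] {i : B}
    (h : W61.Onto D A (Iio i)) : ∃ G : A → B → D, SV G ∧ ∀ x < i, (⨆ a, G a x) = ⊤ := by
  classical
  obtain ⟨g, hg1, hg2⟩ := h
  refine ⟨fun a x => if h : x < i then g a ⟨x, h⟩ else ⊥, ?_, ?_⟩
  · intro a x y hxy
    by_cases hx : x < i
    · by_cases hy : y < i
      · simp only [dif_pos hx, dif_pos hy]
        exact hg1 a _ _ fun h => hxy (congrArg Subtype.val h)
      · simp [hy]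
    · simp [hx]
  · intro x hx
    simp only [dif_pos hx]
    exact hg2 ⟨x, hx⟩

/-- the case of at most `2 ^ #A` names -/
theorem gchB_pow (S : SetB K) {A N : Type u} (hA : ℵ₀ ≤ #A) (hAK : #A < #K) [Nontrivial (DB S)]
    (hN : #N ≤ 2 ^ #A) (F : N → A → DB S)
    (h : ∀ (τ : A → DB S) (q : Cnd S), ∃ (q' : Cnd S) (n : N), Le q' q ∧
      ∀ x, io q' ⊓ τ x = io q' ⊓ F n x) :
    ∃ (B : Type u) (_ : LinearOrder B) (_ : WellFoundedLT B) (F : B → A → DB S), #B < #K ∧
      (∀ g : A → DB S, ∀ c : DB S, c ≠ ⊥ → ∃ (b : DB S) (i : B), b ≠ ⊥ ∧ b ≤ c ∧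
        ∀ a, b ⊓ g a = b ⊓ F i a) ∧
      ∀ i : B, ∃ G : A → B → DB S, SV G ∧ ∀ x < i, (⨆ a, G a x) = ⊤ := by
  rw [S.gch _ hA] at hN
  obtain ⟨F2, h1, h2⟩ := gch_ofB (B := W61.To (Order.succ #A)) (by rwa [W61.mk_To]) F
    (gchB_names F h) (fun i => by
      exact gchB_cov (W61.Onto.native (W61.mk_Iio_To i)))
  refine ⟨W61.To (Order.succ #A), inferInstance, inferInstance, F2, ?_, h1, h2⟩
  rw [W61.mk_To]
  exact gchB_succ_lt S hAK

/-- `ci (th j) ≤ c` if `c` is at least all `ci (th (nx i))` with `i < j` -/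
theorem gchB_le (S : SetB K) {c : Cardinal.{u}} (hc : ℵ₀ ≤ c) (hcK : c < #K) (j : K)
    (h : ∀ i < j, ci (S.th (S.nx i)) ≤ c) : ci (S.th j) ≤ c := by
  rcases cases_K S j with h1 | ⟨i, rfl⟩ | h1
  · rw [S.th_bot j h1]
    exact hc
  · exact h i (lt_nx S i)
  · by_contra hlt
    rw [not_le] at hlt
    obtain ⟨k, hk⟩ := exists_ci_eq (K := K) hcK
    have hkj : k < S.th j := by
      by_contra hge
      rw [not_lt] at hge
      exact absurd (ci_mono hge) (not_le.2 (by rw [hk]; exact hlt))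
    obtain ⟨i, hi, hki⟩ := S.th_cont j h1 k hkj
    have h2 : c < ci (S.th i) := by
      rw [← hk]
      exact S.th_init i k hki
    exact absurd ((h2.trans (th_lt_la S i)).trans_le (h i hi)) (lt_irrefl _)

/-- GCH below `θ` in the extension. -/
theorem gch_B (S : SetB K) (A : Type u) (hA : Infinite A) (hAK : #A < #K) :
    ∃ (B : Type u) (_ : LinearOrder B) (_ : WellFoundedLT B) (F : B → A → DB S), #B < #K ∧
      (∀ g : A → DB S, ∀ c : DB S, c ≠ ⊥ → ∃ (b : DB S) (i : B), b ≠ ⊥ ∧ b ≤ c ∧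
        ∀ a, b ⊓ g a = b ⊓ F i a) ∧
      ∀ i : B, ∃ G : A → B → DB S, SV G ∧ ∀ x < i, (⨆ a, G a x) = ⊤ := by
  classical
  have hA0 : ℵ₀ ≤ #A := aleph0_le_mk A
  have hnt : Nontrivial (DB S) := by
    have q : Cnd S := ⟨fun _ => emp, fun i => ⟨fun x y z h => by simp [emp] at h, by
      have : {a : K × K // (emp : Pt K) a.1 a.2 ≠ none} → False := fun x => x.2 rfl
      have : IsEmpty {a : K × K // (emp : Pt K) a.1 a.2 ≠ none} := ⟨this⟩
      rw [mk_eq_zero]
      exact zero_le⟩, by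
      obtain ⟨o, _⟩ := exists_least S
      exact ⟨o, fun _ _ => rfl⟩⟩
    exact ⟨⟨io q, ⊥, io_ne_bot q⟩⟩
  -- the least `j` with `#A < ci (th (nx j))`
  obtain ⟨j, hj, hmin⟩ : ∃ j : K, #A < ci (S.th (S.nx j)) ∧ ∀ i < j, ci (S.th (S.nx i)) ≤ #A := by
    have hne : {j : K | #A < ci (S.th (S.nx j))}.Nonempty := by
      obtain ⟨j, hj⟩ := exists_le_th S hAK
      exact ⟨S.nx j, hj.trans_lt (th_lt_la S _)⟩
    refine ⟨WellFounded.min (wellFounded_lt (α := K)) _ hne,
      WellFounded.min_mem (wellFounded_lt (α := K)) _ hne, fun i hi => ?_⟩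
    by_contra hc
    rw [not_le] at hc
    exact WellFounded.not_lt_min (wellFounded_lt (α := K)) {j : K | #A < ci (S.th (S.nx j))} hc hi
  have hle : ci (S.th j) ≤ #A := gchB_le S hA0 hAK j hmin
  rcases hle.eq_or_lt with h1 | h1
  · rcases cases_K S j with h2 | ⟨i, rfl⟩ | h2
    · obtain ⟨N, F, hN, hF⟩ := namesB (spc_least S h2) (X := A) h1.ge
      refine gchB_pow S hA0 hAK (by rwa [h1] at hN) F fun τ q => ?_
      obtain ⟨q', n, hq', hn⟩ := hF τ q
      exact ⟨q', n, hq'.1, hn⟩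
    · obtain ⟨N, F, hN, hF⟩ := namesB (spc_nx S i) (X := A) h1.ge
      refine gchB_pow S hA0 hAK (by rwa [h1] at hN) F fun τ q => ?_
      obtain ⟨q', n, hq', hn⟩ := hF τ q
      exact ⟨q', n, hq'.1, hn⟩
    · obtain ⟨N, F, hN, hF⟩ := namesLim S h2 (A := A) h1.ge
      exact gchB_pow S hA0 hAK (by rwa [h1] at hN) F hF
  · have h2 : ci (S.nu j) ≤ #A := by
      rw [S.nu_card]
      exact Order.succ_le_of_lt h1
    rcases h2.eq_or_lt with h3 | h3
    · obtain ⟨N, F, hN, hF⟩ := namesB (spc_nu S j) (X := A) h3.ge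
      refine gchB_pow S hA0 hAK (by rwa [h3] at hN) F fun τ q => ?_
      obtain ⟨q', n, hq', hn⟩ := hF τ q
      exact ⟨q', n, hq'.1, hn⟩
    · have h4 : ci (S.rho j) ≤ #A := by
        rw [S.rho_card]
        exact Order.succ_le_of_lt h3
      obtain ⟨N, F, hN, hF⟩ := namesCC (S := S) j (X := A) hj
      obtain ⟨e, he⟩ : ∃ e : A → Iio (S.rho j), Function.Surjective e := by
        have hne : Nonempty (Iio (S.rho j)) := ⟨⟨S.nu j, nu_lt_rho' S j⟩⟩
        obtain ⟨i⟩ := Cardinal.le_def _ _ |>.1 h4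
        exact ⟨Function.invFun i, Function.invFun_surjective i.injective⟩
      obtain ⟨F2, h5, h6⟩ := gch_ofB (B := Iio (S.th (S.nx j))) hN F
        (gchB_names F fun τ q => by
          obtain ⟨q', n, hq', hn⟩ := hF τ q
          exact ⟨q', n, hq'.1, hn⟩) (fun i => by
          obtain ⟨G, hG1, hG2⟩ := coll S j (x := i.1) i.2
          refine ⟨fun a y => G (e a).1 y.1, ?_, ?_⟩
          · intro a x y hxy
            exact hG1 _ _ _ fun h => hxy (Subtype.ext h)
          · intro x hx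
            rw [← hG2 x.1 hx]
            exact he.iSup_comp (fun a : Iio (S.rho j) => G a.1 x.1))
      exact ⟨Iio (S.th (S.nx j)), inferInstance, inferInstance, F2, S.card_lt _, h5, h6⟩

end F61B
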