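import Pool.Agent.W_MP_f61043B_lc.Cls
import Pool.Agent.W_MP_f61043B_lc.GchB

/-!
# MP_f61043_lc, part B : the properties of the forcing

`dist`: `dist0` for `ULift ℕ`.  `top_ne_bot_DB`: there is a condition (all coordinates `emp`), `io_ne_bot`.
-/

universe u

open Cardinal Set Filter

namespace F61B

open Pool.Agent.W_MP_315f31_lc

variable {K : Type u} [LinearOrder K] [WellFoundedLT K]

theorem coreG (S : SetB K) : CoreG K (DB S) where
  card_lt := S.card_lt
  unc := aleph0_lt_K S
  dist A f hf c hc := by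
    obtain ⟨q, hq⟩ := exists_io_le hc
    obtain ⟨q', g, hq', hg⟩ := dist0 (S := S) (J := ULift.{u} ℕ) (A := A) (by
      rw [mk_uLift, mk_nat, lift_aleph0]
      exact aleph0_lt_aleph_one.le) (fun n => f n.down) q
      (fun n => by rw [hf n.down]; exact le_top)
    exact ⟨io q', fun n => g ⟨n⟩, io_ne_bot q', (io_mono hq').trans hq, fun n => le_io_iff.2 (hg ⟨n⟩)⟩
  reg x F hF c hc := reg_top S x F hF c hc
  gch A _ _ hA hAK := gch_B S A hA hAK
  cls i := cls_P S i

theorem top_ne_bot_DB (S : SetB K) : (⊤ : DB S) ≠ ⊥ := by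
  obtain ⟨o, ho⟩ := exists_least S
  let p : Cnd S := ⟨fun _ => emp, fun i => ok_emp S i, ⟨o, fun _ _ => rfl⟩⟩
  intro h
  exact io_ne_bot p (le_bot_iff.1 (le_top.trans_eq h))

end F61B
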