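import Pool.Agent.W_MP_f61043B_lc.Meas
import Pool.Agent.W_61ad90_h15.Coll

/-!
# MP_f61043_lc, part B : the setting exists

`exists_min`: among the inaccessible cardinals `θ` which are limits of measurable cardinals take the least one (well-foundedness of the
cardinals).
`exists_setB`: `K = W61.To θ`.  By well-founded recursion on `i : K` define cardinals `t i < θ`: `t i = ℵ₀` for the least `i`,
`t (nx i)` the least measurable cardinal `> t i` with `< θ`, `t δ = ⨆ j < δ, t j` for limits (`< θ` since `θ` is regular).  `th i` is the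
element of `K` of the type `(t i).ord`, `nu i` of the type `(succ (t i)).ord`, `rho i` of the type `(succ (succ (t i))).ord`.
`U i`: transfer the ultrafilter from `A` to `Iio (th (nx i))` by a bijection and then to `K` (`Ultrafilter.map Subtype.val`).
`U_np`: the complement of `Ioi x` is `Iic x`, the union of fewer than `ci (th (nx i))` singletons.
`sing`: `δ` a limit: `t δ` is a limit of measurable cardinals, so a strong limit, and it is not inaccessible by the minimality of `θ`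
(`t δ < θ`), so it is singular (`t δ > ℵ₀`); a cofinal subset `X` of `Iio (th δ)` with `#X < t δ`; `J = {l | ∃ x ∈ X, l = ` the least `j` with
`x < th j}`; to get `∀ x < δ, ∃ l ∈ J, x < l`: for `x < δ` take an element `y` of `X` with `th (nx x) ≤ y`.
-/

universe u

open Cardinal Set Filter

namespace F61B

open Pool.Agent.W_MP_315f31_lc

/-- the ordinal of an element -/
noncomputable def Inst_o {c : Cardinal.{u}} (t : W61.To c) : Ordinal.{u} :=
  Ordinal.typein (α := W61.To c) (· < ·) t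

theorem Inst_o_lt {c : Cardinal.{u}} (t : W61.To c) : Inst_o t < c.ord := Ordinal.typein_lt_self t

theorem Inst_o_iff {c : Cardinal.{u}} {s t : W61.To c} : Inst_o s < Inst_o t ↔ s < t :=
  Ordinal.typein_lt_typein (α := W61.To c) (· < ·)

theorem Inst_o_surj {c : Cardinal.{u}} {o : Ordinal.{u}} (h : o < c.ord) :
    ∃ t : W61.To c, Inst_o t = o :=
  Ordinal.typein_surj (α := W61.To c) (· < ·) (by rw [Ordinal.type_toType]; exact h)

theorem Inst_o_card {c : Cardinal.{u}} (t : W61.To c) : ci t = (Inst_o t).card := by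
  have := Ordinal.card_typein (α := W61.To c) (r := (· < ·)) t
  exact this

/-- the next measurable cardinal -/
noncomputable def Inst_nm (c : Cardinal.{u}) : Cardinal.{u} := sInf {lam | c < lam ∧ IsMeas lam}

theorem Inst_nm_spec {θ c : Cardinal.{u}} (h : ∃ lam, c < lam ∧ lam < θ ∧ IsMeas lam) :
    c < Inst_nm c ∧ Inst_nm c < θ ∧ IsMeas (Inst_nm c) := by
  obtain ⟨lam, h1, h2, h3⟩ := h
  have h4 : Inst_nm c ∈ {lam | c < lam ∧ IsMeas lam} := csInf_mem ⟨lam, h1, h3⟩
  have h5 : Inst_nm c ≤ lam := csInf_le' ⟨h1, h3⟩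
  exact ⟨h4.1, h5.trans_lt h2, h4.2⟩

theorem Inst_nm_mono {c c' : Cardinal.{u}} (h : c ≤ c') (h' : c' < Inst_nm c')
    (hm : IsMeas (Inst_nm c')) : Inst_nm c ≤ Inst_nm c' := csInf_le' ⟨h.trans_lt h', hm⟩

/-- successors -/
theorem Inst_nx {θ : Cardinal.{u}} (hθ : ℵ₀ ≤ θ) (i : W61.To θ) :
    ∃ n : W61.To θ, ∀ x, x < n ↔ x ≤ i := by
  have hne : {x : W61.To θ | i < x}.Nonempty := by
    by_contra hcon
    have h1 : (Set.univ : Set (W61.To θ)) ⊆ insert i (Iio i) := by
      intro x _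
      rcases lt_trichotomy x i with h | h | h
      · exact Or.inr h
      · exact Or.inl h
      · exact absurd ⟨x, h⟩ hcon
    have h2 := mk_le_mk_of_subset h1
    rw [mk_univ, W61.mk_To] at h2
    have h3 : #(insert i (Iio i) : Set (W61.To θ)) < θ :=
      (mk_insert_le).trans_lt (add_lt_of_lt hθ (W61.mk_Iio_lt_To i) (one_lt_aleph0.trans_le hθ))
    exact absurd h2 (not_le.2 h3)
  refine ⟨WellFounded.min (wellFounded_lt (α := W61.To θ)) _ hne, fun x => ⟨fun h => ?_, fun h => ?_⟩⟩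
  · by_contra hc
    exact WellFounded.not_lt_min (wellFounded_lt (α := W61.To θ)) _ (not_le.1 hc) h
  · exact h.trans_lt (WellFounded.min_mem (wellFounded_lt (α := W61.To θ)) _ hne)

/-- the sequence of the cardinals -/
theorem Inst_rec (θ : Cardinal.{u}) : ∃ T : W61.To θ → Cardinal.{u},
    ∀ i, T i = max ℵ₀ (⨆ j : Iio i, Inst_nm (T j.1)) := by
  refine ⟨WellFounded.fix (wellFounded_lt (α := W61.To θ)) fun i r =>
    max ℵ₀ (⨆ j : Iio i, Inst_nm (r j.1 j.2)), fun i => ?_⟩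
  rw [WellFounded.fix_eq]

theorem Inst_seq {θ : Cardinal.{u}} (hθ : θ.IsInaccessible)
    (hM : ∀ μ < θ, ∃ lam, μ < lam ∧ lam < θ ∧ IsMeas lam) :
    ∃ (T : W61.To θ → Cardinal.{u}) (nx : W61.To θ → W61.To θ),
      (∀ i, T i < θ) ∧ StrictMono T ∧ (∀ i x, x < nx i ↔ x ≤ i) ∧ (∀ i, IsMeas (T (nx i))) ∧
      (∀ δ, IsLim δ → ∀ c < T δ, ∃ j < δ, c < T j) ∧ (∀ i, (∀ j, i ≤ j) → T i = ℵ₀) ∧
      ∀ i, ℵ₀ ≤ T i := by
  obtain ⟨T, hT⟩ := Inst_rec θ
  choose nx hnx using Inst_nx (θ := θ) hθ.aleph0_lt.le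
  have hlt : ∀ i, T i < θ := by
    intro i
    induction i using WellFounded.induction (wellFounded_lt (α := W61.To θ)) with
    | _ i ih =>
      rw [hT i]
      refine max_lt hθ.aleph0_lt ?_
      refine iSup_lt_of_isRegular hθ.isRegular (W61.mk_Iio_lt_To i) fun j => ?_
      exact (Inst_nm_spec (hM _ (ih j.1 j.2))).2.1
  have hsp : ∀ i, T i < Inst_nm (T i) ∧ Inst_nm (T i) < θ ∧ IsMeas (Inst_nm (T i)) := fun i =>
    Inst_nm_spec (hM _ (hlt i))
  have hbd : ∀ i : W61.To θ, BddAbove (Set.range fun j : Iio i => Inst_nm (T j.1)) := fun i =>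
    Cardinal.bddAbove_of_small
  have hle : ∀ i j, j < i → Inst_nm (T j) ≤ T i := by
    intro i j hji
    rw [hT i]
    exact (le_ciSup (hbd i) ⟨j, hji⟩).trans (le_max_right _ _)
  have hmono : StrictMono T := fun j i hji => (hsp j).1.trans_le (hle i j hji)
  have h0 : ∀ i, ℵ₀ ≤ T i := by
    intro i
    rw [hT i]
    exact le_max_left _ _
  have hsucc : ∀ i, T (nx i) = Inst_nm (T i) := by
    intro i
    apply le_antisymm
    · rw [hT (nx i)]
      refine max_le ((h0 i).trans (hsp i).1.le) ?_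
      have : Nonempty (Iio (nx i)) := ⟨⟨i, (hnx i i).2 le_rfl⟩⟩
      refine ciSup_le fun j => ?_
      exact Inst_nm_mono (hmono.monotone ((hnx i j.1).1 j.2)) (hsp i).1 (hsp i).2.2
    · exact hle _ _ ((hnx i i).2 le_rfl)
  refine ⟨T, nx, hlt, hmono, hnx, fun i => ?_, ?_, ?_, h0⟩
  · rw [hsucc]
    exact (hsp i).2.2
  · intro δ hδ c hc
    rw [hT δ, lt_max_iff] at hc
    obtain ⟨j0, hj0⟩ := hδ.1
    rcases hc with hc | hc
    · exact ⟨j0, hj0, hc.trans_le (h0 j0)⟩
    · have : Nonempty (Iio δ) := ⟨⟨j0, hj0⟩⟩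
      obtain ⟨j, hj⟩ := (lt_ciSup_iff (hbd δ)).1 hc
      obtain ⟨y, hy1, hy2⟩ := hδ.2 j.1 j.2
      exact ⟨y, hy2, hj.trans_le (hle y j.1 hy1)⟩
  · intro i hi
    rw [hT i]
    have : IsEmpty (Iio i) := ⟨fun j => absurd (hi j.1) (not_le.2 j.2)⟩
    rw [ciSup_of_empty]
    exact max_eq_left bot_le

/-- the ultrafilter -/
theorem Inst_ultra {K : Type u} [LinearOrder K] (b : K) (h : IsMeas (ci b))
    (hb : ∀ x < b, ci x < ci b) : ∃ U : Ultrafilter K, Iio b ∈ U ∧ (∀ x < b, Ioi x ∈ U) ∧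
      ∀ (J : Type u) (A : J → Set K), #J < ci b → (∀ j, A j ∈ U) → (⋂ j, A j) ∈ U := by
  obtain ⟨h0, A, U, hA, hnp, hcpl⟩ := h
  obtain ⟨e⟩ : Nonempty (A ≃ Iio b) := Cardinal.eq.1 hA
  refine ⟨U.map fun a => (e a).1, ?_, ?_, ?_⟩
  · rw [Ultrafilter.mem_map]
    exact Filter.univ_mem' fun a => (e a).2
  · intro x hx
    rw [Ultrafilter.mem_map]
    have h1 : #(Set.range fun y : Iic x => {a : A | (e a).1 ≠ y.1}) < ci b := by
      refine mk_range_le.trans_lt ?_
      have h2 : (Iic x : Set K) = insert x (Iio x) := by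
        ext y
        simp [le_iff_eq_or_lt]
      rw [h2]
      exact (mk_insert_le).trans_lt (add_lt_of_lt h0.le (hb x hx) (one_lt_aleph0.trans h0))
    have h3 := hcpl _ h1 (by
      rintro _ ⟨y, rfl⟩
      have hyb : y.1 < b := lt_of_le_of_lt y.2 hx
      refine Filter.mem_of_superset (hnp (e.symm ⟨y.1, hyb⟩)) fun a ha hay => ha ?_
      have h4 : e a = ⟨y.1, hyb⟩ := Subtype.ext hay
      rw [← h4, e.symm_apply_apply]
      rfl)
    refine Filter.mem_of_superset h3 fun a ha => ?_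
    change x < (e a).1
    by_contra hc
    exact ha _ ⟨⟨(e a).1, not_lt.1 hc⟩, rfl⟩ rfl
  · intro J B hJ hB
    rw [Ultrafilter.mem_map, Set.preimage_iInter]
    have h1 : #(Set.range fun j : J => (fun a => (e a).1) ⁻¹' B j) < ci b :=
      mk_range_le.trans_lt hJ
    have h3 := hcpl _ h1 (by
      rintro _ ⟨j, rfl⟩
      exact hB j)
    rwa [Set.sInter_range] at h3

theorem exists_setB (hG : W61.GCH0.{u}) (hM : ∃ θ : Cardinal.{u}, θ.IsInaccessible ∧
      ∀ μ < θ, ∃ lam, μ < lam ∧ lam < θ ∧ IsMeas lam) :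
    ∃ θ : Cardinal.{u}, Nonempty (SetB (W61.To θ)) := by
  obtain ⟨θ, hθ, hmin⟩ : ∃ θ : Cardinal.{u}, (θ.IsInaccessible ∧
      ∀ μ < θ, ∃ lam, μ < lam ∧ lam < θ ∧ IsMeas lam) ∧ ∀ θ' < θ, ¬ (θ'.IsInaccessible ∧
      ∀ μ < θ', ∃ lam, μ < lam ∧ lam < θ' ∧ IsMeas lam) :=
    ⟨WellFounded.min Cardinal.lt_wf {θ | θ.IsInaccessible ∧
      ∀ μ < θ, ∃ lam, μ < lam ∧ lam < θ ∧ IsMeas lam} hM,
      WellFounded.min_mem Cardinal.lt_wf _ hM,
      fun θ' h1 h2 => WellFounded.not_lt_min Cardinal.lt_wf _ h2 h1⟩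
  obtain ⟨hin, hlim⟩ := hθ
  obtain ⟨T, nx, hlt, hmono, hnx, hmeas, hcont, hbot, h0⟩ := Inst_seq hin hlim
  have hsucc : ∀ c, c < θ → Order.succ c < θ := fun c hc =>
    (Order.succ_le_of_lt (cantor c)).trans_lt (hin.isStrongPrelimit hc)
  choose th hth using fun i => Inst_o_surj (ord_lt_ord.2 (hlt i))
  choose nu hnu using fun i => Inst_o_surj (ord_lt_ord.2 (hsucc _ (hlt i)))
  choose rho hrho using fun i => Inst_o_surj (ord_lt_ord.2 (hsucc _ (hsucc _ (hlt i))))
  have cth : ∀ i, ci (th i) = T i := fun i => by rw [Inst_o_card, hth, card_ord]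
  have cnu : ∀ i, ci (nu i) = Order.succ (T i) := fun i => by rw [Inst_o_card, hnu, card_ord]
  have crho : ∀ i, ci (rho i) = Order.succ (Order.succ (T i)) := fun i => by
    rw [Inst_o_card, hrho, card_ord]
  have ini : ∀ (b : W61.To θ) (c : Cardinal.{u}), Inst_o b = c.ord → ∀ x < b, ci x < c := by
    intro b c hb x hx
    rw [← Inst_o_iff, hb, Cardinal.lt_ord, ← Inst_o_card] at hx
    exact hx
  have hth_init : ∀ i, ∀ x < th i, ci x < ci (th i) := fun i x hx => by
    rw [cth]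
    exact ini _ _ (hth i) x hx
  have hult := fun i => Inst_ultra (th (nx i)) (by rw [cth]; exact hmeas i) (hth_init (nx i))
  choose U hU1 hU2 hU3 using hult
  refine ⟨θ, ⟨{
    th := th
    nu := nu
    rho := rho
    nx := nx
    U := U
    inac := by rw [W61.mk_To]; exact hin
    card_lt := fun x => by rw [W61.mk_To]; exact W61.mk_Iio_lt_To x
    nx_iff := hnx
    th_mono := fun i j hij => ?_
    th_cont := fun δ hδ x hx => ?_
    th_bot := fun i hi => by rw [cth]; exact hbot i hi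
    th_init := hth_init
    nu_card := fun i => by rw [cnu, cth]
    nu_init := fun i x hx => by rw [cnu]; exact ini _ _ (hnu i) x hx
    rho_card := fun i => by rw [crho, cnu]
    rho_init := fun i x hx => by rw [crho]; exact ini _ _ (hrho i) x hx
    la_inac := fun i => by rw [cth]; exact meas_inaccessible (hmeas i)
    U_mem := hU1
    U_np := hU2
    U_cpl := hU3
    sing := fun δ hδ => ?_
    gch := hG }⟩⟩
  · rw [← Inst_o_iff, hth, hth, ord_lt_ord]
    exact hmono hij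
  · rw [← Inst_o_iff, hth, Cardinal.lt_ord] at hx
    obtain ⟨j, hj, hc⟩ := hcont δ hδ _ hx
    refine ⟨j, hj, ?_⟩
    rw [← Inst_o_iff, hth, Cardinal.lt_ord]
    exact hc
  · -- `T δ` is singular
    rw [cth]
    have hlimδ : ∀ μ < T δ, ∃ lam, μ < lam ∧ lam < T δ ∧ IsMeas lam := by
      intro μ hμ
      obtain ⟨j, hj, hc⟩ := hcont δ hδ μ hμ
      obtain ⟨y, hy1, hy2⟩ := hδ.2 j hj
      refine ⟨T (nx j), hc.trans (hmono ((hnx j j).2 le_rfl)), hmono ?_, hmeas j⟩
      by_contra hcon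
      have h1 : y < nx j := hy2.trans_le (not_lt.1 hcon)
      exact absurd ((hnx j y).1 h1) (not_le.2 hy1)
    have hsing : ¬ T δ ≤ (T δ).ord.cof := by
      intro hreg
      apply hmin (T δ) (hlt δ)
      refine ⟨⟨?_, hreg, ?_⟩, hlimδ⟩
      · obtain ⟨j, hj⟩ := hδ.1
        exact (h0 j).trans_lt (hmono hj)
      · intro c hc
        obtain ⟨lam, h1, h2, h3⟩ := hlimδ c hc
        exact ((meas_inaccessible h3).isStrongPrelimit h1).trans h2
    obtain ⟨s, hs1, hs2⟩ := Order.exists_cof_eq (α := W61.To (T δ))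
    rw [Ordinal.cof_toType] at hs2
    have hj : ∀ z : W61.To (T δ), ∃ j, j < δ ∧ (Inst_o z).card < T j := by
      intro z
      have h1 := Inst_o_lt z
      rw [Cardinal.lt_ord] at h1
      exact hcont δ hδ _ h1
    choose f hf1 hf2 using hj
    refine ⟨f '' s, ?_, ?_, ?_⟩
    · rintro _ ⟨z, -, rfl⟩
      exact hf1 z
    · intro x hx
      obtain ⟨y, hy⟩ := Inst_o_surj (ord_lt_ord.2 (hmono hx))
      obtain ⟨z, hz, hyz⟩ := hs1 y
      refine ⟨f z, ⟨z, hz, rfl⟩, ?_⟩
      have h1 : T x ≤ (Inst_o z).card := by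
        have h2 : Inst_o y ≤ Inst_o z := not_lt.1 fun h => absurd (Inst_o_iff.1 h) (not_lt.2 hyz)
        have h3 := Ordinal.card_le_card h2
        rwa [hy, card_ord] at h3
      exact hmono.lt_iff_lt.1 (h1.trans_lt (hf2 z))
    · refine mk_image_le.trans_lt ?_
      rw [hs2]
      exact not_le.1 hsing

end F61B
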