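import Pool.Agent.W_MP_f61043B_lc.Setup

/-!
# MP_f61043_lc, part B : elementary facts about the setting

`regOf`: otherwise `Iio x` is the union of the `#J < ci x` sets `Iic (f j)`, of size `< ci x`: contradiction to regularity
(`Cardinal.mk_iUnion_lt...`, `Cardinal.iSup_lt_of_isRegular`, `Cardinal.mk_iUnion_le` and
`Cardinal.mul_lt_of_lt`; note `ci (Iic y) < ci x` as `ci x` is infinite).
`le_th`: `StrictMono.le_apply` or well-founded induction.
-/

universe u

open Cardinal Set Filter

namespace F61B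

open Pool.Agent.W_MP_315f31_lc

variable {K : Type u} [LinearOrder K] [WellFoundedLT K]

/-! ### order -/

theorem exists_least (S : SetB K) : ∃ o : K, ∀ x, o ≤ x := by
  have h0 : #K ≠ 0 := S.inac.ne_zero
  have : Nonempty K := mk_ne_zero_iff.1 h0
  exact ⟨WellFounded.min (wellFounded_lt (α := K)) Set.univ Set.univ_nonempty,
    fun s => not_lt.1 (WellFounded.not_lt_min (wellFounded_lt (α := K)) Set.univ (mem_univ s))⟩

theorem lt_nx (S : SetB K) (i : K) : i < S.nx i := (S.nx_iff i i).2 le_rfl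

theorem nx_le_iff (S : SetB K) {i j : K} : S.nx i ≤ j ↔ i < j := by
  have h := S.nx_iff i j
  constructor
  · intro h1
    by_contra hc
    exact absurd h1 (not_le.2 (h.2 (not_lt.1 hc)))
  · intro h1
    by_contra hc
    exact absurd h1 (not_lt.2 (h.1 (not_le.1 hc)))

theorem nx_mono (S : SetB K) {i j : K} (h : i ≤ j) : S.nx i ≤ S.nx j := by
  rw [nx_le_iff]
  exact h.trans_lt (lt_nx S j)

theorem le_th (S : SetB K) (i : K) : i ≤ S.th i := by
  exact S.th_mono.le_apply

/-- every element is the least one, a successor or a limit -/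
theorem cases_K (S : SetB K) (i : K) : (∀ j, i ≤ j) ∨ (∃ j, i = S.nx j) ∨ IsLim i := by
  by_cases h : ∀ j, i ≤ j
  · exact Or.inl h
  · right
    push Not at h
    by_cases h2 : ∀ x < i, ∃ y, x < y ∧ y < i
    · exact Or.inr ⟨h, h2⟩
    · left
      push Not at h2
      obtain ⟨x, hx, hx2⟩ := h2
      exact ⟨x, le_antisymm (hx2 _ (lt_nx S x)) ((nx_le_iff S).2 hx)⟩

/-- least upper bounds -/
theorem exists_lub {A : Type u} [LinearOrder A] [WellFoundedLT A] {J : Type u} (f : J → A) {b : A}
    (hb : ∀ j, f j ≤ b) : ∃ z ≤ b, (∀ j, f j ≤ z) ∧ ∀ y < z, ∃ j, y < f j := by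
  refine ⟨WellFounded.min (wellFounded_lt (α := A)) {z | ∀ j, f j ≤ z} ⟨b, hb⟩,
    not_lt.1 (WellFounded.not_lt_min (wellFounded_lt (α := A)) {z | ∀ j, f j ≤ z} hb),
    WellFounded.min_mem (wellFounded_lt (α := A)) {z | ∀ j, f j ≤ z} ⟨b, hb⟩, fun y hy => ?_⟩
  by_contra hc
  push Not at hc
  exact WellFounded.not_lt_min (wellFounded_lt (α := A)) {z | ∀ j, f j ≤ z} hc hy

/-! ### cardinals -/

theorem ci_mono {x y : K} (h : x ≤ y) : ci x ≤ ci y := mk_le_mk_of_subset (Iio_subset_Iio h)

theorem aleph0_le_th (S : SetB K) (i : K) : ℵ₀ ≤ ci (S.th i) := by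
  obtain ⟨o, ho⟩ := exists_least S
  rw [← S.th_bot o ho]
  exact ci_mono (S.th_mono.monotone (ho i))

theorem aleph0_le_nu (S : SetB K) (i : K) : ℵ₀ ≤ ci (S.nu i) := by
  rw [S.nu_card]
  exact (aleph0_le_th S i).trans (Order.le_succ _)

theorem aleph_one_le_nu (S : SetB K) (i : K) : ℵ₁ ≤ ci (S.nu i) := by
  rw [S.nu_card, ← succ_aleph0]
  exact Order.succ_le_succ (aleph0_le_th S i)

theorem th_lt_nu (S : SetB K) (i : K) : ci (S.th i) < ci (S.nu i) := by
  rw [S.nu_card]
  exact Order.lt_succ _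

theorem nu_lt_rho (S : SetB K) (i : K) : ci (S.nu i) < ci (S.rho i) := by
  rw [S.rho_card]
  exact Order.lt_succ _

theorem rho_lt_la (S : SetB K) (i : K) : ci (S.rho i) < ci (S.th (S.nx i)) := by
  have h1 : ci (S.th i) < ci (S.th (S.nx i)) := S.th_init _ _ (S.th_mono (lt_nx S i))
  have h2 : ∀ c, c < ci (S.th (S.nx i)) → Order.succ c < ci (S.th (S.nx i)) := fun c hc =>
    (Order.succ_le_of_lt (cantor c)).trans_lt ((S.la_inac i).isStrongLimit.isStrongPrelimit hc)
  rw [S.rho_card, S.nu_card]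
  exact h2 _ (h2 _ h1)

theorem nu_lt_la (S : SetB K) (i : K) : ci (S.nu i) < ci (S.th (S.nx i)) := by
  exact (nu_lt_rho S i).trans (rho_lt_la S i)

theorem th_lt_la (S : SetB K) (i : K) : ci (S.th i) < ci (S.th (S.nx i)) := by
  exact (th_lt_nu S i).trans (nu_lt_la S i)

theorem th_card_mono (S : SetB K) {i j : K} (h : i ≤ j) : ci (S.th i) ≤ ci (S.th j) := by
  exact ci_mono (S.th_mono.monotone h)

theorem nu_card_mono (S : SetB K) {i j : K} (h : i ≤ j) : ci (S.nu i) ≤ ci (S.nu j) := by
  rw [S.nu_card, S.nu_card]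
  exact Order.succ_le_succ (th_card_mono S h)

/-- for `i < j` the cardinal `λ_i` is at most `θ_j` -/
theorem la_le_th (S : SetB K) {i j : K} (h : i < j) : ci (S.th (S.nx i)) ≤ ci (S.th j) := by
  exact th_card_mono S ((nx_le_iff S).2 h)

theorem la_le_nu (S : SetB K) (i : K) : ci (S.th (S.nx i)) ≤ ci (S.nu (S.nx i)) := by
  exact (th_lt_nu S _).le

theorem ci_le_th (S : SetB K) (i : K) : ci i ≤ ci (S.th i) := by
  exact ci_mono (le_th S i)

theorem th_lt_nu' (S : SetB K) (i : K) : S.th i < S.nu i := by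
  by_contra h
  exact absurd (th_lt_nu S i) (not_lt.2 (ci_mono (not_lt.1 h)))

theorem nu_lt_rho' (S : SetB K) (i : K) : S.nu i < S.rho i := by
  by_contra h
  exact absurd (nu_lt_rho S i) (not_lt.2 (ci_mono (not_lt.1 h)))

theorem rho_lt_la' (S : SetB K) (i : K) : S.rho i < S.th (S.nx i) := by
  by_contra h
  exact absurd (rho_lt_la S i) (not_lt.2 (ci_mono (not_lt.1 h)))

theorem aleph0_lt_K (S : SetB K) : ℵ₀ < #K := S.inac.aleph0_lt

/-- Cardinals below `#K` are cardinalities of initial segments. -/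
theorem exists_ci_eq {c : Cardinal.{u}} (h : c < #K) : ∃ k : K, ci k = c := by
  have h1 : c.ord < Ordinal.type (α := K) (· < ·) := by
    by_contra hc
    have h2 := Ordinal.card_le_card (not_lt.1 hc)
    rw [card_ord, Ordinal.card_type] at h2
    exact absurd h (not_lt.2 h2)
  refine ⟨Ordinal.enum (α := K) (· < ·) ⟨c.ord, h1⟩, ?_⟩
  have h2 := Ordinal.typein_enum (α := K) (· < ·) h1
  have h3 := congrArg Ordinal.card h2
  rw [card_ord, Ordinal.card_typein] at h3
  exact h3

/-- every cardinal below `#K` is at most some `ci (th i)`, `i` a successor -/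
theorem exists_le_th (S : SetB K) {c : Cardinal.{u}} (hc : c < #K) : ∃ j, c ≤ ci (S.th (S.nx j)) := by
  obtain ⟨k, rfl⟩ := exists_ci_eq hc
  exact ⟨k, (ci_le_th S k).trans (th_lt_la S k).le⟩

/-! ### regularity -/

/-- An initial ordinal of regular cardinality is regular. -/
theorem regOf {x : K} (hx : ∀ y < x, ci y < ci x) (hr : (ci x).IsRegular) {J : Type u} (f : J → K)
    (hf : ∀ j, f j < x) (hJ : #J < ci x) : ∃ b < x, ∀ j, f j < b := by
  by_contra h
  push Not at h
  have hU : Iio x ⊆ ⋃ j, Iic (f j) := by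
    intro b hb
    obtain ⟨j, hj⟩ := h b hb
    exact mem_iUnion.2 ⟨j, hj⟩
  have h1 : ∀ j, #(Iic (f j)) < ci x := by
    intro j
    have h2 : Iic (f j) = insert (f j) (Iio (f j)) := by
      ext y
      simp [le_iff_eq_or_lt]
    rw [h2]
    refine (mk_insert_le).trans_lt ?_
    exact add_lt_of_lt hr.aleph0_le (hx _ (hf j)) (one_lt_aleph0.trans_le hr.aleph0_le)
  have h2 : #(⋃ j, Iic (f j)) < ci x := by
    rw [card_iUnion_lt_iff_forall_of_isRegular hr hJ]
    exact h1
  exact absurd ((mk_le_mk_of_subset hU).trans_lt h2) (lt_irrefl _)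

theorem regK (S : SetB K) {J : Type u} (f : J → K) (hJ : #J < #K) : ∃ b, ∀ j, f j < b := by
  by_contra h
  push Not at h
  have hr : (#K).IsRegular := S.inac.isRegular
  have hU : (Set.univ : Set K) ⊆ ⋃ j, Iic (f j) := by
    intro b _
    obtain ⟨j, hj⟩ := h b
    exact mem_iUnion.2 ⟨j, hj⟩
  have h1 : ∀ j, #(Iic (f j)) < #K := by
    intro j
    have h2 : Iic (f j) = insert (f j) (Iio (f j)) := by
      ext y
      simp [le_iff_eq_or_lt]
    rw [h2]
    refine (mk_insert_le).trans_lt ?_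
    exact add_lt_of_lt hr.aleph0_le (S.card_lt _) (one_lt_aleph0.trans_le hr.aleph0_le)
  have h2 : #(⋃ j, Iic (f j)) < #K := by
    rw [card_iUnion_lt_iff_forall_of_isRegular hr hJ]
    exact h1
  have h3 := (mk_le_mk_of_subset hU).trans_lt h2
  rw [mk_univ] at h3
  exact absurd h3 (lt_irrefl _)

theorem nu_regular (S : SetB K) (i : K) : (ci (S.nu i)).IsRegular := by
  rw [S.nu_card]
  exact isRegular_succ (aleph0_le_th S i)

theorem rho_regular (S : SetB K) (i : K) : (ci (S.rho i)).IsRegular := by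
  rw [S.rho_card]
  exact isRegular_succ (aleph0_le_nu S i)

theorem la_regular (S : SetB K) (i : K) : (ci (S.th (S.nx i))).IsRegular := by
  exact (S.la_inac i).isRegular

/-! ### the ultrafilters -/

/-- Intersections of few large sets are large. -/
theorem ev_all (S : SetB K) (i : K) {J : Type u} (hJ : #J < ci (S.th (S.nx i))) {P : J → K → Prop}
    (h : ∀ j, ∀ᶠ α in (S.U i : Filter K), P j α) : ∀ᶠ α in (S.U i : Filter K), ∀ j, P j α := by
  have h1 := S.U_cpl i J (fun j => {α | P j α}) hJ h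
  filter_upwards [h1] with α ha j
  exact mem_iInter.1 ha j

/-- A function with few values is constant on a large set. -/
theorem ev_const (S : SetB K) (i : K) {J : Type u} (hJ : #J < ci (S.th (S.nx i))) (f : K → J) :
    ∃ j, ∀ᶠ α in (S.U i : Filter K), f α = j := by
  by_contra h
  push Not at h
  have h1 : ∀ j, ∀ᶠ α in (S.U i : Filter K), f α ≠ j := by
    intro j
    exact h j
  have h2 := ev_all S i hJ h1
  obtain ⟨α, ha⟩ := h2.exists
  exact ha (f α) rfl

theorem ev_lt (S : SetB K) (i : K) : ∀ᶠ α in (S.U i : Filter K), α < S.th (S.nx i) := S.U_mem i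

theorem ev_gt (S : SetB K) (i : K) {x : K} (h : x < S.th (S.nx i)) :
    ∀ᶠ α in (S.U i : Filter K), x < α := S.U_np i x h

/-! ### parts of the conditions -/

variable {S : SetB K}

theorem sp_eq_iff {i : K} {a b : Cnd S} : sp i a = sp i b ↔ ∀ j < i, a.p j = b.p j := by
  constructor
  · intro h j hj
    have h1 := congrFun h j
    simp only [sp, if_pos hj] at h1
    exact h1
  · intro h
    funext j
    by_cases hj : j < i
    · simp only [sp, if_pos hj]
      exact h j hj
    · simp only [sp, if_neg hj]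

theorem repl_lt {i j : K} (h : j < i) (a p : Cnd S) : (repl i a p).p j = a.p j := by
  simp only [repl, if_pos h]

theorem repl_ge {i j : K} (h : i ≤ j) (a p : Cnd S) : (repl i a p).p j = p.p j := by
  simp only [repl, if_neg (not_lt.2 h)]

theorem rrepl_lt {i j : K} (h : j < i) (u w : RC S) : (rrepl i u w).r j = u.r j := by
  simp only [rrepl, if_pos h]

theorem rrepl_ge {i j : K} (h : i ≤ j) (u w : RC S) : (rrepl i u w).r j = w.r j := by
  simp only [rrepl, if_neg (not_lt.2 h)]

theorem sp_repl (i : K) (a p : Cnd S) : sp i (repl i a p) = sp i a := by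
  exact sp_eq_iff.2 fun j hj => repl_lt hj a p

theorem repl_congr {i : K} {a a' : Cnd S} (h : sp i a = sp i a') (p : Cnd S) :
    repl i a p = repl i a' p := by
  ext1
  funext j
  by_cases hj : j < i
  · rw [repl_lt hj, repl_lt hj]
    exact sp_eq_iff.1 h j hj
  · rw [repl_ge (not_lt.1 hj), repl_ge (not_lt.1 hj)]

theorem repl_repl (i : K) (a b p : Cnd S) : repl i a (repl i b p) = repl i a p := by
  ext1
  funext j
  by_cases hj : j < i
  · rw [repl_lt hj, repl_lt hj]
  · rw [repl_ge (not_lt.1 hj), repl_ge (not_lt.1 hj), repl_ge (not_lt.1 hj)]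

theorem repl_self (i : K) (p : Cnd S) : repl i p p = p := by
  ext1
  funext j
  by_cases hj : j < i
  · rw [repl_lt hj]
  · rw [repl_ge (not_lt.1 hj)]

theorem le_iff {i : K} {q p : Cnd S} : Le q p ↔ LeS i q p ∧ LeT i q p := by
  constructor
  · intro h
    exact ⟨fun j _ => h j, fun j _ => h j⟩
  · rintro ⟨h1, h2⟩ j
    rcases lt_or_ge j i with hj | hj
    · exact h1 j hj
    · exact h2 j hj

/-- `repl i a q ≤ p` -/
theorem repl_le {i : K} {a q p : Cnd S} (ht : LeT i q p) (ha : LeS i a p) : Le (repl i a q) p := by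
  intro j
  rcases lt_or_ge j i with hj | hj
  · rw [repl_lt hj]
    exact ha j hj
  · rw [repl_ge hj]
    exact ht j hj

theorem repl_mono {i : K} {a b q p : Cnd S} (ht : LeT i q p) (ha : LeS i a b) :
    Le (repl i a q) (repl i b p) := by
  intro j
  rcases lt_or_ge j i with hj | hj
  · rw [repl_lt hj, repl_lt hj]
    exact ha j hj
  · rw [repl_ge hj, repl_ge hj]
    exact ht j hj

/-- `repl i q m` is an extension of `q` with the same small part -/
theorem repl_leI {i : K} {a q m : Cnd S} (h : Le m (repl i a q)) : LeI i (repl i q m) q := by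
  refine ⟨fun j => ?_, fun j hj => repl_lt hj _ _⟩
  rcases lt_or_ge j i with hj | hj
  · rw [repl_lt hj]
    exact Ext.refl _
  · rw [repl_ge hj]
    have h1 := h j
    rw [repl_ge hj] at h1
    exact h1

theorem leS_congr {i : K} {a a' p p' : Cnd S} (ha : sp i a = sp i a') (hp : sp i p = sp i p') :
    LeS i a p ↔ LeS i a' p' := by
  rw [sp_eq_iff] at ha hp
  constructor
  · intro h j hj
    rw [← ha j hj, ← hp j hj]
    exact h j hj
  · intro h j hj
    rw [ha j hj, hp j hj]
    exact h j hj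

/-- `m` forces `ofS i T` if its small part is below an element of `T` -/
theorem frc_ofS {i : K} {T : Set (K → Pt K)} {m a : Cnd S} (ha : sp i a ∈ T) (h : LeS i m a) :
    Frc (ofS i T) m := by
  exact mem_toD' _ ⟨a, ha, h⟩

end F61B
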