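import Pool.Agent.W_MP_f61043B_lc.NamesB2

/-!
# MP_f61043_lc, part B : the chain condition; `λ_j = th (nx j)` is regular in the extension

`cc`: `ev_const` for `γ ↦ sp j (a γ)` (`mk_sp_le_nu`): for almost all `γ` the small parts below `j` are the same.  Let
`g γ = (a γ).p j`, `s = stf S j g`.  For almost all `γ` `Ext (g γ) s` (`ev_ext_stf`); fix such `γ < th (nx j)` with the common small part.  By
`ev_cpt` for `f = g γ`, for almost all `γ'` `Cpt (g γ') (g γ)`; choose such `γ' > h γ` with the common small part.  `m` has the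
coordinates of `a γ` below `j` and `jn (g γ) (g γ')` at `j`.

`regLa`: `i = nx j`.  `distS` for `c = ci (th i)` (`spc_nx`), `J = Iio x`, the values in `Option K` (`none`: undefined,
`h a none = (⨆ y, F a y)ᶜ`) gives `q' ≤_i q` such that for all `a < x` and `p` with `LeS i p q'` there is `p'` with `LeS i p' p` such that
`repl i p' q'` decides the value of `F a`.  For `a < x` let `V a = {y < th i | ∃ p', Frc (F a y) (repl i p' q')}`.  `V a` is bounded in `th i`:
otherwise choose `y γ ≥ γ` in `V a` and `a' γ` with `Frc (F a (y γ)) (repl i (a' γ) q')`; by `cc` (for `h = y`) there are `γ`,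
`γ' > y γ` and `m` with `LeS i m (a' γ)`, `LeS i m (a' γ')`; `y γ < γ' ≤ y γ'` and `repl i m q'` forces `F a (y γ) ⊓ F a (y γ') = ⊥`.  By
`regOf` (`th i` is regular, `x < th i`) there is a common bound `z`.  If `io q' ⊓ F a y ≠ ⊥` for some `a < x`, `z ≤ y < th i` take
`m ≤ q'` with `Frc (F a y) m`, `p' ≤ m` in `LeS i` such that `repl i p' q'` decides the value of `F a`; `repl i p' m` is a common
extension, so the value is `y`, `y ∈ V a`.
-/

universe u

open Cardinal Set Filter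

namespace F61B

open Pool.Agent.W_MP_315f31_lc

variable {K : Type u} [LinearOrder K] [WellFoundedLT K] {S : SetB K}

theorem cc (j : K) (a : K → Cnd S) (h : K → K) (hh : ∀ γ < S.th (S.nx j), h γ < S.th (S.nx j)) :
    ∃ γ γ', γ < S.th (S.nx j) ∧ γ' < S.th (S.nx j) ∧ h γ < γ' ∧ γ < γ' ∧
      ∃ m : Cnd S, LeS (S.nx j) m (a γ) ∧ LeS (S.nx j) m (a γ') := by
  obtain ⟨t, ht⟩ := ev_const S j (J := range (sp (S := S) j))
    ((mk_sp_le_nu S j).trans_lt (nu_lt_la S j)) (fun γ => ⟨sp j (a γ), ⟨a γ, rfl⟩⟩)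
  have hg : ∀ γ, Ok S j ((a γ).p j) := fun γ => (a γ).ok j
  have h1 := ev_ext_stf (S := S) (i := j) (g := fun γ => (a γ).p j) hg
  obtain ⟨γ, ⟨hγ1, hγ2⟩, hγ3⟩ := ((ht.and h1).and (ev_lt S j)).exists
  have h2 := ev_cpt (S := S) (i := j) (g := fun γ => (a γ).p j) hg (hg γ) hγ2
  obtain ⟨γ', ⟨⟨⟨hγ'1, hγ'2⟩, hγ'3⟩, hγ'4⟩, hγ'5⟩ :=
    ((((ht.and h2).and (ev_lt S j)).and (ev_gt S j (hh γ hγ3))).and (ev_gt S j hγ3)).exists
  have hc : Cpt ((a γ).p j) ((a γ').p j) := fun x y z z' hz hz' => (hγ'2 x y z' z hz' hz).symm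
  have hsp : sp j (a γ) = sp j (a γ') := by
    have h3 := congrArg Subtype.val (hγ1.trans hγ'1.symm)
    exact h3
  refine ⟨γ, γ', hγ3, hγ'3, hγ'4, hγ'5, upd (a γ) j (jn ((a γ).p j) ((a γ').p j))
    (ok_jn (hg γ) (hg γ')), ?_, ?_⟩
  · intro l hl
    show Ext (if l = j then _ else _) _
    split_ifs with hlj
    · rw [hlj]
      exact jn_left _ _
    · exact Ext.refl _
  · intro l hl
    show Ext (if l = j then _ else _) _
    split_ifs with hlj
    · rw [hlj]
      exact jn_right hc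
    · have hlj' : l < j := lt_of_le_of_ne ((S.nx_iff j l).1 hl) hlj
      rw [sp_eq_iff.1 hsp l hlj']
      exact Ext.refl _

/-- `th (nx j)` remains regular. -/
theorem regLa (j : K) {x : K} (hx : x < S.th (S.nx j)) (F : K → K → DB S)
    (hF : ∀ a y y', y ≠ y' → F a y ⊓ F a y' = ⊥) (q : Cnd S) : ∃ (q' : Cnd S) (z : K),
      LeI (S.nx j) q' q ∧ z < S.th (S.nx j) ∧
      ∀ a < x, ∀ y, z ≤ y → y < S.th (S.nx j) → io q' ⊓ F a y = ⊥ := by
  let f : Iio x → Option K → DB S := fun a o => match o with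
    | none => (⨆ y, F a.1 y)ᶜ
    | some y => F a.1 y
  have hf : ∀ a : Iio x, io q ≤ ⨆ o, f a o := by
    intro a
    have h1 : (⨆ y, F a.1 y) ⊔ (⨆ y, F a.1 y)ᶜ ≤ ⨆ o, f a o := by
      refine sup_le (iSup_le fun y => ?_) ?_
      · exact le_iSup (f a) (some y)
      · exact le_iSup (f a) none
    rw [sup_compl_eq_top] at h1
    exact le_top.trans h1
  obtain ⟨q', hq', hd⟩ := distS (spc_nx S j) (J := Iio x) (A := Option K) (ci_mono hx.le) f q hf
  -- the possible values are bounded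
  have hbd : ∀ a : Iio x, ∃ z < S.th (S.nx j), ∀ y < S.th (S.nx j), ∀ p : Cnd S,
      Frc (F a.1 y) (repl (S.nx j) p q') → y < z := by
    intro a
    by_contra hcon
    push Not at hcon
    have hch : ∀ γ : K, ∃ (y : K) (p : Cnd S), γ < S.th (S.nx j) →
        (γ ≤ y ∧ y < S.th (S.nx j) ∧ Frc (F a.1 y) (repl (S.nx j) p q')) := by
      intro γ
      by_cases hγ : γ < S.th (S.nx j)
      · obtain ⟨y, hy, p, hp, hle⟩ := hcon γ hγ
        exact ⟨y, p, fun _ => ⟨hle, hy, hp⟩⟩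
      · exact ⟨γ, q', fun h => absurd h hγ⟩
    choose y p hyp using hch
    obtain ⟨γ, γ', hγ, hγ', h1, -, m, hm, hm'⟩ := cc j p y fun γ hγ => (hyp γ hγ).2.1
    have h2 : Frc (F a.1 (y γ)) (repl (S.nx j) m q') :=
      Frc.mono (hyp γ hγ).2.2 (repl_mono (fun _ _ => Ext.refl _) hm)
    have h3 : Frc (F a.1 (y γ')) (repl (S.nx j) m q') :=
      Frc.mono (hyp γ' hγ').2.2 (repl_mono (fun _ _ => Ext.refl _) hm')
    have hne : y γ ≠ y γ' := (h1.trans_le (hyp γ' hγ').1).ne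
    have h4 : Frc (F a.1 (y γ) ⊓ F a.1 (y γ')) (repl (S.nx j) m q') :=
      (IM.RO.mem_inf _ _ _).2 ⟨h2, h3⟩
    rw [hF a.1 _ _ hne] at h4
    exact IM.RO.mem_bot _ h4
  choose zz hzz hzb using hbd
  obtain ⟨b, hb, hbz⟩ := regOf (S.th_init (S.nx j)) (la_regular S j) zz hzz
    (S.th_init (S.nx j) x hx)
  refine ⟨q', b, hq', hb, fun a ha y hby hy => ?_⟩
  by_contra hne
  obtain ⟨m, hm, hm'⟩ := exists_io_le_of hne
  have hmy : Frc (F a y) m := le_io_iff.1 hm'
  obtain ⟨p', o, h1, h2⟩ := hd ⟨a, ha⟩ m fun l _ => hm l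
  have h4 : Le (repl (S.nx j) p' m) m := repl_le (fun _ _ => Ext.refl _) h1
  have h5 : Le (repl (S.nx j) p' m) (repl (S.nx j) p' q') :=
    repl_mono (fun l _ => hm l) (fun _ _ => Ext.refl _)
  have h6 : Frc (F a y) (repl (S.nx j) p' m) := Frc.mono hmy h4
  rcases o with _ | y'
  · have h7 : Frc ((⨆ y, F a y)ᶜ) (repl (S.nx j) p' m) := Frc.mono h2 h5
    have h8 : Frc (⨆ y, F a y) (repl (S.nx j) p' m) := (le_iSup (F a) y) h6
    exact (IM.RO.mem_compl _ _).1 h7 _ (le_refl _) h8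
  · have h7 : Frc (F a y') (repl (S.nx j) p' m) := Frc.mono h2 h5
    by_cases hyy : y = y'
    · subst hyy
      exact absurd ((hzb ⟨a, ha⟩ y hy p' h2).trans (hbz ⟨a, ha⟩)) (not_lt.2 hby)
    · have h8 : Frc (F a y ⊓ F a y') (repl (S.nx j) p' m) := (IM.RO.mem_inf _ _ _).2 ⟨h6, h7⟩
      rw [hF a y y' hyy] at h8
      exact IM.RO.mem_bot _ h8

end F61B
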