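import Mathlib

/-!
# MP_f61043_lc, part B : what the native part delivers about the forcing

`K` is a well-order of the type of an inaccessible cardinal `θ`, `D` is the regular open algebra of the forcing.
The model is the set of the elements of rank `< θ` of the extension.
-/

universe u

open Cardinal Set

namespace F61B

/-- `F : K → K → D` is a name of a partial function. -/
def SV {A B D : Type u} [CompleteBooleanAlgebra D] (F : A → B → D) : Prop :=
  ∀ a x y, x ≠ y → F a x ⊓ F a y = ⊥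

/-- The functions of the extension from `i` to `l` are bounded in `l`. -/
def BddIn {K D : Type u} [LinearOrder K] [CompleteBooleanAlgebra D] (i l : K) : Prop :=
  ∀ F : K → K → D, SV F → ∀ c : D, c ≠ ⊥ → ∃ (b : D) (z : K), b ≠ ⊥ ∧ b ≤ c ∧ z < l ∧
    ∀ a < i, ∀ y, z ≤ y → y < l → b ⊓ F a y = ⊥

/-- The polarized relation for `i` and its successor cardinal `l`: for every name `col` of a subset of
`l × i` there are (below `c`) a name `aV` of a subset of `i` which is not covered by a function on an element of `i`,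
and an injection `f : i → l`, such that all pairs are in the set (`v = true`), or none. -/
def RelP (K D : Type u) [LinearOrder K] [CompleteBooleanAlgebra D] (i l : K) : Prop :=
  ∀ (col : K → K → D) (c : D), c ≠ ⊥ → ∃ (b : D) (aV : K → D) (f : K → K) (v : Bool),
    b ≠ ⊥ ∧ b ≤ c ∧ (∀ x < i, f x < l) ∧ (∀ x < i, ∀ y < i, f x = f y → x = y) ∧
    (∀ x < i, ∀ α < i, b ⊓ aV α ≤ if v then col (f x) α else (col (f x) α)ᶜ) ∧
    ∀ j < i, ∀ F : K → K → D, SV F → ∀ c' : D, c' ≠ ⊥ → c' ≤ b →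
      ∃ (b' : D) (α : K), b' ≠ ⊥ ∧ b' ≤ c' ∧ α < i ∧ b' ≤ aV α ∧ ∀ a < j, b' ⊓ F a α = ⊥

/-- The properties of the forcing. -/
structure CoreG (K D : Type u) [LinearOrder K] [CompleteBooleanAlgebra D] : Prop where
  /-- the type of `K` is an uncountable regular cardinal -/
  card_lt : ∀ x : K, #(Iio x) < #K
  unc : ℵ₀ < #K
  /-- no new `ω`-sequences -/
  dist : ∀ (A : Type u) (f : ℕ → A → D), (∀ n, (⨆ a, f n a) = ⊤) → ∀ c : D, c ≠ ⊥ →
    ∃ (b : D) (g : ℕ → A), b ≠ ⊥ ∧ b ≤ c ∧ ∀ n, b ≤ f n (g n)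
  /-- `θ` is regular in the extension -/
  reg : ∀ (x : K) (F : K → K → D), SV F → ∀ c : D, c ≠ ⊥ → ∃ (b : D) (z : K), b ≠ ⊥ ∧ b ≤ c ∧
    ∀ a < x, ∀ y, z ≤ y → b ⊓ F a y = ⊥
  /-- the powerset of an infinite well-order `A` of size `< θ` is an image of a well-order `B` of size `< θ` all of
  whose proper initial segments are images of `A` -/
  gch : ∀ (A : Type u) [LinearOrder A] [WellFoundedLT A], Infinite A → #A < #K →
    ∃ (B : Type u) (_ : LinearOrder B) (_ : WellFoundedLT B) (F : B → A → D), #B < #K ∧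
      (∀ g : A → D, ∀ c : D, c ≠ ⊥ → ∃ (b : D) (i : B), b ≠ ⊥ ∧ b ≤ c ∧ ∀ a, b ⊓ g a = b ⊓ F i a) ∧
      ∀ i : B, ∃ G : A → B → D, SV G ∧ ∀ x < i, (⨆ a, G a x) = ⊤
  /-- every `i : K` is the image of a smaller element, or of countable cofinality, or regular, or has a
  successor cardinal `l` with the relation -/
  cls : ∀ i : K,
    (∃ j < i, ∃ G : K → K → D, SV G ∧ ∀ y < i, (⨆ a : Iio j, G a y) = ⊤) ∨
    (∃ f : ℕ → K, (∀ n, f n < i) ∧ ∀ x < i, ∃ n, x ≤ f n) ∨
    (∀ j < i, BddIn (D := D) j i) ∨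
    ∃ l : K, i < l ∧ (∀ x < l, ∃ e : K → K, ∀ y < x, ∃ z < i, e z = y) ∧ BddIn (D := D) i l ∧
      RelP K D i l

end F61B
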