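import Pool.Agent.W_MP_f61043B_lc.CC
import Pool.Agent.W_MP_f61043B_lc.Core

/-!
# MP_f61043_lc, part B : the cardinals in the extension

`bdd_of`: `bdB` gives `q' ≤ q` and `Z`; the elements of `Z` below `l` have a bound `< l` by `regOf` (`#Z ≤ c < ci l`).
`bdd_nu_succ`, `bdd_rho`, `bdd_la`: `bdd_of` with `spc_nx`, `spc_least`, `spc_nu`; `regLa`.
`reg_top`: `bdB` for `i` with `ci x ≤ ci (nu i)` (`exists_le_th`), `regK`.
`coll`: `G a y = toD' {p | p.p j x a = some y}` for `a < rho j` (`⊥` otherwise); `⨆ a, G a y = ⊤`: a condition `p` has at most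
`ci (nu j) < ci (rho j)` elements `a` with `p.p j x a ≠ none`, so there is `a < rho j` with `p.p j x a = none`; add the value `y`.
-/

universe u

open Cardinal Set Filter

namespace F61B

open Pool.Agent.W_MP_315f31_lc

variable {K : Type u} [LinearOrder K] [WellFoundedLT K]

/-- an initial ordinal `l` of regular cardinality `> c` -/
theorem bdd_of (S : SetB K) {i : K} {c : Cardinal.{u}} (hc : SPc S i c) {x l : K} (hx : ci x ≤ c)
    (hl : ∀ y < l, ci y < ci l) (hr : (ci l).IsRegular) (hcl : c < ci l) :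
    BddIn (D := DB S) x l := by
  intro F hF c0 hc0
  obtain ⟨q, hq⟩ := exists_io_le hc0
  obtain ⟨q', Z, hq', hZ, hb⟩ := bdB hc (X := Iio x) (Y := K) hx (fun a y => F a.1 y)
    (fun a y y' h => hF a.1 y y' h) q
  obtain ⟨b, hbl, hbZ⟩ := regOf hl hr (J := {y : K // y ∈ Z ∧ y < l}) (fun j => j.1)
    (fun j => j.2.2) (by
      refine lt_of_le_of_lt ?_ (hZ.trans_lt hcl)
      exact mk_le_of_injective (f := fun j : {y : K // y ∈ Z ∧ y < l} => (⟨j.1, j.2.1⟩ : Z))
        (fun j j' h => Subtype.ext (congrArg (fun z : Z => z.1) h)))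
  refine ⟨io q', b, io_ne_bot q', (io_mono hq'.1).trans hq, hbl, fun a ha y hy hyl => ?_⟩
  refine hb ⟨a, ha⟩ y fun hyZ => ?_
  exact absurd (hbZ ⟨y, hyZ, hyl⟩) (not_lt.2 hy)

theorem bdd_nu_succ (S : SetB K) {i : K} (hi : (∀ j, i ≤ j) ∨ ∃ j, i = S.nx j) {x : K}
    (hx : x < S.nu i) : BddIn (D := DB S) x (S.nu i) := by
  have h1 : ci x ≤ ci (S.th i) := by
    have h2 := S.nu_init i x hx
    rw [S.nu_card] at h2
    exact Order.lt_succ_iff.1 h2
  have h3 : SPc S i (ci (S.th i)) := by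
    rcases hi with hi | ⟨j, rfl⟩
    · exact spc_least S hi
    · exact spc_nx S j
  exact bdd_of S h3 h1 (S.nu_init i) (nu_regular S i) (th_lt_nu S i)

theorem bdd_rho (S : SetB K) (i : K) {x : K} (hx : x < S.rho i) : BddIn (D := DB S) x (S.rho i) := by
  have h1 : ci x ≤ ci (S.nu i) := by
    have h2 := S.rho_init i x hx
    rw [S.rho_card] at h2
    exact Order.lt_succ_iff.1 h2
  exact bdd_of S (spc_nu S i) h1 (S.rho_init i) (rho_regular S i) (nu_lt_rho S i)

theorem bdd_la (S : SetB K) (j : K) {x : K} (hx : x < S.th (S.nx j)) :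
    BddIn (D := DB S) x (S.th (S.nx j)) := by
  intro F hF c0 hc0
  obtain ⟨q, hq⟩ := exists_io_le hc0
  obtain ⟨q', z, hq', hz, hb⟩ := regLa j hx F hF q
  exact ⟨io q', z, io_ne_bot q', (io_mono hq'.1).trans hq, hz, hb⟩

theorem reg_top (S : SetB K) (x : K) (F : K → K → DB S) (hF : SV F) (c : DB S) (hc : c ≠ ⊥) :
    ∃ (b : DB S) (z : K), b ≠ ⊥ ∧ b ≤ c ∧ ∀ a < x, ∀ y, z ≤ y → b ⊓ F a y = ⊥ := by
  obtain ⟨q, hq⟩ := exists_io_le hc
  obtain ⟨j, hj⟩ := exists_le_th S (S.card_lt x)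
  obtain ⟨q', Z, hq', hZ, hb⟩ := bdB (spc_nx S j) (X := Iio x) (Y := K) hj (fun a y => F a.1 y)
    (fun a y y' h => hF a.1 y y' h) q
  obtain ⟨z, hz⟩ := regK S (J := Z) (fun j => j.1) (hZ.trans_lt (S.card_lt _))
  refine ⟨io q', z, io_ne_bot q', (io_mono hq'.1).trans hq, fun a ha y hy => ?_⟩
  refine hb ⟨a, ha⟩ y fun hyZ => ?_
  exact absurd (hz ⟨y, hyZ⟩) (not_lt.2 hy)

/-- one value -/
noncomputable def sgl (x a y : K) : Pt K := fun x' a' =>
  open Classical in if x' = x ∧ a' = a then some y else none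

omit [WellFoundedLT K] in
theorem sgl_self (x a y : K) : sgl x a y x a = some y := by
  unfold sgl
  rw [if_pos ⟨rfl, rfl⟩]

omit [WellFoundedLT K] in
theorem sgl_eq_some {x a y x' a' y' : K} (h : sgl x a y x' a' = some y') :
    x' = x ∧ a' = a ∧ y' = y := by
  unfold sgl at h
  by_cases h1 : x' = x ∧ a' = a
  · rw [if_pos h1] at h
    exact ⟨h1.1, h1.2, (Option.some.inj h).symm⟩
  · rw [if_neg h1] at h
    exact absurd h (by simp)

theorem ok_sgl (S : SetB K) (j : K) {x a y : K} (hx : x < S.th (S.nx j)) (ha : a < S.rho j)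
    (hy : y < x) : Ok S j (sgl x a y) := by
  refine ⟨fun x' a' y' h => ?_, ?_⟩
  · obtain ⟨rfl, rfl, rfl⟩ := sgl_eq_some h
    exact ⟨hx, ha, hy⟩
  · have h1 : #{b : K × K // sgl x a y b.1 b.2 ≠ none} ≤ 1 := by
      refine (mk_le_one_iff_set_subsingleton
        (s := {b : K × K | sgl x a y b.1 b.2 ≠ none})).2 ?_
      intro b hb b' hb'
      obtain ⟨z, hz⟩ := Option.ne_none_iff_exists'.1 hb
      obtain ⟨z', hz'⟩ := Option.ne_none_iff_exists'.1 hb'
      have h2 := sgl_eq_some hz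
      have h3 := sgl_eq_some hz'
      exact Prod.ext (h2.1.trans h3.1.symm) (h2.2.1.trans h3.2.1.symm)
    exact h1.trans (one_le_aleph0.trans (aleph0_le_nu S j))

theorem coll (S : SetB K) (j : K) {x : K} (hx : x < S.th (S.nx j)) :
    ∃ G : K → K → DB S, SV G ∧ ∀ y < x, (⨆ a : Iio (S.rho j), G a y) = ⊤ := by
  have hm : ∀ a y, ∀ p q : Cnd S, p.p j x a = some y → Le q p → q.p j x a = some y :=
    fun a y p q h1 h2 => h2 j x a y h1
  refine ⟨fun a y => toD' (fun p : Cnd S => p.p j x a = some y) (hm a y), ?_, ?_⟩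
  · intro a y y' hy
    by_contra hne
    obtain ⟨p, hp1, hp2⟩ := exists_mem hne
    obtain ⟨r, hr, hr'⟩ := hp1 p (IsPre.refl (L := Le (S := S)) p)
    obtain ⟨t, ht, ht'⟩ := hp2 r hr
    have h1 : (show Cnd S from t).p j x a = some y := hm a y r t hr' ht
    have h2 : (show Cnd S from t).p j x a = some y' := ht'
    rw [h1] at h2
    exact hy (Option.some.inj h2)
  · intro y hy
    refine eq_top_of_dense fun p => ?_
    obtain ⟨p, rfl⟩ : ∃ p' : Cnd S, (show PL (Le (S := S)) from p') = p := ⟨p, rfl⟩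
    -- an element where the function is not defined
    have h1 : ∃ a < S.rho j, p.p j x a = none := by
      by_contra hcon
      push Not at hcon
      have h2 : ci (S.rho j) ≤ #{a : K × K // p.p j a.1 a.2 ≠ none} :=
        mk_le_of_injective (f := fun a : Iio (S.rho j) =>
          (⟨(x, a.1), hcon a.1 a.2⟩ : {a : K × K // p.p j a.1 a.2 ≠ none})) (by
            intro a a' h
            have h3 : ((x, a.1) : K × K) = (x, a'.1) :=
              congrArg (fun z : {a : K × K // p.p j a.1 a.2 ≠ none} => z.1) h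
            exact Subtype.ext (Prod.ext_iff.1 h3).2)
      exact absurd (h2.trans (p.ok j).small) (not_le.2 (nu_lt_rho S j))
    obtain ⟨a, ha, hpa⟩ := h1
    have hcpt : Cpt (p.p j) (sgl x a y) := by
      intro x' a' z z' hz hz'
      obtain ⟨rfl, rfl, rfl⟩ := sgl_eq_some hz'
      rw [hpa] at hz
      exact absurd hz (by simp)
    have hok := ok_jn (p.ok j) (ok_sgl S j hx ha hy)
    refine ⟨upd p j (jn (p.p j) (sgl x a y)) hok, ?_, ?_⟩
    · intro i
      show Ext (if i = j then jn (p.p j) (sgl x a y) else p.p i) (p.p i)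
      by_cases hi : i = j
      · rw [if_pos hi, hi]
        exact jn_left _ _
      · rw [if_neg hi]
        exact Ext.refl _
    · refine (le_iSup (fun a : Iio (S.rho j) =>
        (toD' (fun p : Cnd S => p.p j x a.1 = some y) (hm a.1 y) : DB S)) ⟨a, ha⟩)
        (mem_toD' (hm a y) ?_)
      show (if j = j then jn (p.p j) (sgl x a y) else p.p j) x a = some y
      rw [if_pos rfl]
      exact jn_right hcpt x a y (sgl_self x a y)

end F61B
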