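import Pool.Agent.W_MP_f61043B_lc.Cards
import Pool.Agent.W_MP_f61043B_lc.Ctx

/-!
# MP_f61043_lc, part B : `nu δ` is regular for limit `δ`

`bdd_nu_lim` (`δ` a limit): functions from `Iio (th δ)` to `nu δ`: let `i0`, `J` be as in `exists_ctx`.  For `l ∈ J` functions from
`Iio (th l)` to `nu δ` are bounded (`bdB` for `ci (nu l)`, `regOf`); so the elements `f l z = (⨆ a < th l, ⨆ y, z ≤ y < nu δ, F a y)ᶜ` of the
algebra satisfy `⨆ z, f l z = ⊤`; `distS` for `i0`, `c = ci (th i0)`, the index set `J`, gives `q' ≤_i0 q` and for every `l`, `p` some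
`p'` and `z` with `Frc (f l z) (repl i0 p' q')`; choose one `z` for every `l` and every element of `range (sp i0)` for which there is one; they
are at most `ci (th i0)` many, so they have a bound `< nu δ` (`regOf`).
-/

universe u

open Cardinal Set Filter

namespace F61B

open Pool.Agent.W_MP_315f31_lc

variable {K : Type u} [LinearOrder K] [WellFoundedLT K]

/-- one piece: functions on the part `X` of size `≤ ci (nu l)`, `l < δ`, are bounded -/
theorem cardsLim_piece (S : SetB K) {δ l : K} (hl : l < δ) {X : Type u} (hX : #X ≤ ci (S.nu l))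
    (G : X → K → DB S) (hG : ∀ x y y', y ≠ y' → G x y ⊓ G x y' = ⊥) (q : Cnd S) :
    io q ≤ ⨆ z : Iio (S.nu δ),
      (⨆ a : X, ⨆ y : {y : K // z.1 ≤ y ∧ y < S.nu δ}, G a y.1)ᶜ := by
  rw [le_io_iff]
  refine IM.RO.mem_of_dense fun q1 _ => ?_
  obtain ⟨q', Z, hq', hZ, hZ2⟩ := bdB (spc_nu S l) hX G hG q1
  have hlt : ci (S.nu l) < ci (S.nu δ) :=
    ((nu_lt_la S l).trans_le (la_le_th S hl)).trans (th_lt_nu S δ)
  have hcard : #(Z ∩ Iio (S.nu δ) : Set K) < ci (S.nu δ) :=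
    ((mk_le_mk_of_subset inter_subset_left).trans hZ).trans_lt hlt
  obtain ⟨z, hz, hz2⟩ := regOf (S.nu_init δ) (nu_regular S δ)
    (fun j : (Z ∩ Iio (S.nu δ) : Set K) => j.1) (fun j => j.2.2) hcard
  refine ⟨q', hq'.1, ?_⟩
  refine (le_iSup (fun z : Iio (S.nu δ) =>
      (⨆ a : X, ⨆ y : {y : K // z.1 ≤ y ∧ y < S.nu δ}, G a y.1)ᶜ) ⟨z, hz⟩) ?_
  refine le_io_iff.1 ?_
  rw [le_compl_iff_disjoint_right, disjoint_iSup_iff]
  intro a
  rw [disjoint_iSup_iff]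
  intro y
  rw [disjoint_iff]
  refine hZ2 a y.1 fun hy => ?_
  exact absurd (hz2 ⟨y.1, hy, y.2.2⟩) (not_lt.2 y.2.1)

theorem bdd_nu_lim (S : SetB K) {δ : K} (hδ : IsLim δ) {x : K} (hx : x < S.nu δ) :
    BddIn (D := DB S) x (S.nu δ) := by
  classical
  intro F hF c hc
  obtain ⟨q, hq⟩ := exists_io_le hc
  obtain ⟨i0, J, hctx⟩ := exists_ctx S hδ
  obtain ⟨j0, hj0⟩ := hctx.succ
  -- the injection of `Iio x` into `Iio (th δ)`
  have hcx : ci x ≤ ci (S.th δ) := by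
    have h1 := S.nu_init δ x hx
    rw [S.nu_card] at h1
    exact Order.lt_succ_iff.1 h1
  obtain ⟨g⟩ := hcx
  -- the pieces
  let X : J → Type u := fun l => {a : Iio x // (g a).1 < S.th l.1}
  have hX : ∀ l : J, #(X l) ≤ ci (S.nu l.1) := by
    intro l
    have h1 : #(X l) ≤ ci (S.th l.1) :=
      Cardinal.mk_le_of_injective (f := fun a : X l => (⟨(g a.1).1, a.2⟩ : Iio (S.th l.1)))
        fun a b hab => Subtype.ext (g.injective (Subtype.ext
          (show (g a.1).1 = (g b.1).1 from congrArg (fun z : Iio (S.th l.1) => z.1) hab)))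
    exact h1.trans (th_lt_nu S _).le
  have hXe : ∀ a : Iio x, ∃ l : J, (g a).1 < S.th l.1 := by
    intro a
    obtain ⟨j, hj, hj2⟩ := S.th_cont δ hδ (g a).1 (g a).2
    obtain ⟨l, hl, hl2⟩ := hctx.cof j hj
    exact ⟨⟨l, hl⟩, hj2.trans (S.th_mono hl2)⟩
  let f : J → Iio (S.nu δ) → DB S := fun l z =>
    (⨆ a : X l, ⨆ y : {y : K // z.1 ≤ y ∧ y < S.nu δ}, F a.1.1 y.1)ᶜ
  have hf : ∀ l, io q ≤ ⨆ z, f l z := fun l =>
    cardsLim_piece S (hctx.lt l.1 l.2) (hX l) (fun a y => F a.1.1 y) (fun a y y' h => hF _ _ _ h) q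
  have hsp : SPc S i0 (ci (S.th i0)) := by
    rw [hj0]
    exact spc_nx S j0
  obtain ⟨q', hq', hq2⟩ := distS hsp hctx.card f q hf
  -- choose the bounds
  have hch : ∀ jt : J × range (sp (S := S) i0), ∃ z : Iio (S.nu δ),
      (∃ z' p', sp i0 p' = jt.2.1 ∧ Frc (f jt.1 z') (repl i0 p' q')) →
      ∃ p', sp i0 p' = jt.2.1 ∧ Frc (f jt.1 z) (repl i0 p' q') := by
    intro jt
    by_cases h : ∃ z' p', sp i0 p' = jt.2.1 ∧ Frc (f jt.1 z') (repl i0 p' q')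
    · obtain ⟨z', h'⟩ := h
      exact ⟨z', fun _ => h'⟩
    · exact ⟨⟨x, hx⟩, fun h' => absurd h' h⟩
  choose zz hzz using hch
  have hcard : #(J × range (sp (S := S) i0)) < ci (S.nu δ) := by
    rw [mk_prod, lift_id, lift_id]
    refine ((mul_le_mul' hctx.card hsp.sp).trans
      (Cardinal.mul_eq_self (aleph0_le_th S i0)).le).trans_lt ?_
    exact (th_card_mono S hctx.i0_lt.le).trans_lt (th_lt_nu S δ)
  obtain ⟨zb, hzb, hzb2⟩ := regOf (S.nu_init δ) (nu_regular S δ)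
    (fun jt => (zz jt).1) (fun jt => (zz jt).2) hcard
  refine ⟨io q', zb, io_ne_bot q', (io_mono hq'.1).trans hq, hzb, ?_⟩
  intro a ha y hy hy2
  by_contra hne
  obtain ⟨m, hm, hm'⟩ := exists_io_le_of hne
  obtain ⟨l, hl⟩ := hXe ⟨a, ha⟩
  obtain ⟨p', z, hp', hz⟩ := hq2 l m (le_iff.1 hm).1
  obtain ⟨p'', hs, hz2⟩ := hzz (l, ⟨sp i0 p', p', rfl⟩) ⟨z, p', rfl, hz⟩
  rw [repl_congr hs] at hz2
  have h1 : Le (repl i0 p' m) m := repl_le (fun j _ => Ext.refl _) hp'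
  have h2 : Le (repl i0 p' m) (repl i0 p' q') :=
    repl_mono (le_iff.1 hm).2 (fun j _ => Ext.refl _)
  have h3 : (show PL (Le (S := S)) from repl i0 p' m) ∈ (F a y).1 :=
    IM.RO.mem_lower (le_io_iff.1 hm') h1
  have h4 : (show PL (Le (S := S)) from repl i0 p' m) ∈
      (f l (zz (l, ⟨sp i0 p', p', rfl⟩))).1 := IM.RO.mem_lower hz2 h2
  have h5 : F a y ≤ ⨆ a : X l, ⨆ y : {y : K // (zz (l, ⟨sp i0 p', p', rfl⟩)).1 ≤ y ∧ y < S.nu δ},
      F a.1.1 y.1 := by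
    refine le_iSup_of_le (⟨⟨a, ha⟩, hl⟩ : X l) ?_
    exact le_iSup_of_le (⟨y, ((hzb2 _).trans_le hy).le, hy2⟩ :
      {y : K // (zz (l, ⟨sp i0 p', p', rfl⟩)).1 ≤ y ∧ y < S.nu δ}) le_rfl
  exact (IM.RO.mem_compl _ _).1 h4 _ le_rfl (h5 h3)

end F61B
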