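import Pool.Agent.W_MP_f61043B_lc.Ctx

/-!
# MP_f61043_lc, part B : the relation

`exists_st_eq`: the functions with the constant values `q.p j` on `Iio (th (nx j))`.

`exists_q1`: if some `q1 ≤ q0` and `x0 < δ` satisfy `Frc (ev e l)ᶜ q1` for all `l ∈ J`, `x0 < l`, take `v = false` (and `J`
cofinal).  Otherwise take `v = true`, `q1 = q0`: for `q2 ≤ q0` and `x0` there is `l > x0` with `¬ Frc (ev e l)ᶜ q2`, so some
`q3 ≤ q2` forces `ev e l`.
-/

universe u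

open Cardinal Set Filter

namespace F61B

open Pool.Agent.W_MP_315f31_lc

variable {K : Type u} [LinearOrder K] [WellFoundedLT K] {S : SetB K}

theorem exists_st_eq (q : Cnd S) : ∃ r : RC S, st r = q := by
  classical
  obtain ⟨b, hb⟩ := q.bdd
  refine ⟨⟨fun i α => if α < S.th (S.nx i) then q.p i else emp, ?_, ?_, ⟨b, ?_⟩⟩, ?_⟩
  · intro i α
    split_ifs
    · exact q.ok i
    · exact ok_emp S i
  · intro i α h
    exact if_neg (not_lt.2 h)
  · intro i hi α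
    split_ifs
    · exact hb i hi
    · rfl
  · apply Cnd.ext
    funext i
    apply stf_const
    filter_upwards [ev_lt S i] with α hα
    exact if_pos hα

theorem exists_q1 {δ i0 : K} {J : Set K} (h : Ctx S δ i0 J) (e : EE S i0 J) (q0 : Cnd S) :
    ∃ (q1 : Cnd S) (v : Bool), Le q1 q0 ∧ ∀ q2, Le q2 q1 → ∀ x0 < δ, ∃ (l : J) (q3 : Cnd S),
      x0 < l.1 ∧ Le q3 q2 ∧ Frc (sg (ev e l) v) q3 := by
  by_cases hc : ∃ q1 : Cnd S, Le q1 q0 ∧ ∃ x0 < δ, ∀ l : J, x0 < l.1 → Frc (ev e l)ᶜ q1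
  · obtain ⟨q1, hq1, x0, hx0, hF⟩ := hc
    refine ⟨q1, false, hq1, ?_⟩
    intro q2 hq2 x1 hx1
    obtain ⟨l, hl, hxl⟩ := h.cof (max x0 x1) (max_lt hx0 hx1)
    refine ⟨⟨l, hl⟩, q2, (le_max_right _ _).trans_lt hxl, IsPre.refl _, ?_⟩
    have h1 : Frc (ev e ⟨l, hl⟩)ᶜ q2 :=
      Frc.mono (hF ⟨l, hl⟩ ((le_max_left _ _).trans_lt hxl)) hq2
    simpa [sg] using h1
  · refine ⟨q0, true, IsPre.refl _, ?_⟩
    intro q2 hq2 x0 hx0
    have h1 : ∃ l : J, x0 < l.1 ∧ ¬ Frc (ev e l)ᶜ q2 := by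
      by_contra hcon
      push Not at hcon
      exact hc ⟨q2, hq2, x0, hx0, hcon⟩
    obtain ⟨l, hl, h2⟩ := h1
    have h3 : ∃ q3 : Cnd S, Le q3 q2 ∧ Frc (ev e l) q3 := by
      by_contra hcon
      push Not at hcon
      exact h2 ((IM.RO.mem_compl (ev e l) _).2 fun q3 hq3 h4 => hcon q3 hq3 h4)
    obtain ⟨q3, hq3, h4⟩ := h3
    refine ⟨l, q3, hl, hq3, ?_⟩
    simpa [sg] using h4

end F61B
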