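import Pool.Agent.W_MP_f61043B_lc.Stem

/-!
# MP_f61043_lc, part B : the recursion

`recR`: the recursion.  `s : Iio μ → RC S × K` by well-founded recursion (as in `W61.dist_closed`): `s x = (w, ξ)` with
`w ≤_i` all `(s y).1` for `y < x`, `w ≤_i w0`, `ξ ≠ (s y).2` for all `y < x` and `Φ w ξ`.  It exists: by `closedR i` there is a lower
bound of the `(s y).1`, `y < x`, (or `w0` if there is no `y < x`), and `hΦ` for `Y = {(s y).2 | y < x}`.  Finally take a lower bound of all.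
-/

universe u

open Cardinal Set Filter

namespace F61B

open Pool.Agent.W_MP_315f31_lc

variable {K : Type u} [LinearOrder K] [WellFoundedLT K] {S : SetB K}

/-- The recursion. -/
theorem recR {i μ : K} (hμ : ci μ ≤ ci (S.nu i)) (Φ : RC S → K → Prop)
    (hm : ∀ w w' ξ, Φ w ξ → RLeI i w' w → Φ w' ξ) (w0 : RC S)
    (hΦ : ∀ w, RLeI i w w0 → ∀ Y : Set K, #Y ≤ ci (S.nu i) → ∃ w' ξ, RLeI i w' w ∧ ξ ∉ Y ∧ Φ w' ξ) :
    ∃ (w : RC S) (f : K → K), RLeI i w w0 ∧ (∀ x < μ, Φ w (f x)) ∧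
      ∀ x < μ, ∀ y < μ, f x = f y → x = y := by
  classical
  have wf : WellFounded (fun a b : Iio μ => a < b) := wellFounded_lt
  let F : (j : Iio μ) → ((y : Iio μ) → y < j → RC S × K) → RC S × K := fun j ih =>
    if h : ∃ q : RC S × K, RLeI i q.1 w0 ∧ (∀ y (hy : y < j), RLeI i q.1 (ih y hy).1) ∧
      (∀ y (hy : y < j), q.2 ≠ (ih y hy).2) ∧ Φ q.1 q.2 then h.choose else (w0, μ)
  let s : Iio μ → RC S × K := wf.fix F
  have hs : ∀ j, s j = F j (fun y _ => s y) := fun j => wf.fix_eq F j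
  have key : ∀ j, RLeI i (s j).1 w0 ∧ (∀ y, y < j → RLeI i (s j).1 (s y).1) ∧
      (∀ y, y < j → (s j).2 ≠ (s y).2) ∧ Φ (s j).1 (s j).2 := by
    intro j
    refine wf.induction (C := fun j => RLeI i (s j).1 w0 ∧ (∀ y, y < j → RLeI i (s j).1 (s y).1) ∧
      (∀ y, y < j → (s j).2 ≠ (s y).2) ∧ Φ (s j).1 (s j).2) j ?_
    intro j ih
    have hd1 : ∃ d, RLeI i d w0 ∧ ∀ y, y < j → RLeI i d (s y).1 := by
      by_cases hne : Nonempty (Iio j)
      · obtain ⟨d, hd⟩ := closedR i (Iio j) ((Cardinal.mk_set_le _).trans hμ)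
          (fun y => (s y.1).1) (by
          intro y y' hyy
          rcases hyy.eq_or_lt with h | h
          · rw [h]
            exact IsPre.refl _
          · exact (ih y'.1 y'.2).2.1 y.1 h) hne
        obtain ⟨y0⟩ := hne
        exact ⟨d, IsPre.trans _ _ _ (hd y0) (ih y0.1 y0.2).1, fun y hy => hd ⟨y, hy⟩⟩
      · exact ⟨w0, IsPre.refl w0, fun y hy => absurd ⟨⟨y, hy⟩⟩ hne⟩
    obtain ⟨d, hdc, hdi⟩ := hd1
    obtain ⟨q, ξ, hqd, hqY, hqE⟩ := hΦ d hdc (range fun y : Iio j => (s y.1).2)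
      (Cardinal.mk_range_le.trans ((Cardinal.mk_set_le _).trans hμ))
    have hex : ∃ q : RC S × K, RLeI i q.1 w0 ∧ (∀ y (_ : y < j), RLeI i q.1 (s y).1) ∧
        (∀ y (_ : y < j), q.2 ≠ (s y).2) ∧ Φ q.1 q.2 :=
      ⟨(q, ξ), IsPre.trans _ _ _ hqd hdc, fun y hy => IsPre.trans _ _ _ hqd (hdi y hy),
        fun y hy h => hqY ⟨⟨y, hy⟩, h.symm⟩, hqE⟩
    have hsj : s j = hex.choose := by
      rw [hs]
      exact dif_pos hex
    rw [hsj]
    exact hex.choose_spec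
  have hf : ∀ x (hx : x < μ), (fun x => if h : x < μ then (s ⟨x, h⟩).2 else μ) x = (s ⟨x, hx⟩).2 :=
    fun x hx => dif_pos hx
  have hinj : ∀ x (hx : x < μ) y (hy : y < μ), x < y → (s ⟨x, hx⟩).2 ≠ (s ⟨y, hy⟩).2 :=
    fun x hx y hy hxy h => (key ⟨y, hy⟩).2.2.1 ⟨x, hx⟩ hxy h.symm
  obtain ⟨w, hw0, hw⟩ : ∃ w, RLeI i w w0 ∧ ∀ j, RLeI i w (s j).1 := by
    by_cases hne : Nonempty (Iio μ)
    · obtain ⟨w, hw⟩ := closedR i (Iio μ) hμ (fun y => (s y).1) (by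
        intro y y' hyy
        rcases hyy.eq_or_lt with h | h
        · rw [h]
          exact IsPre.refl _
        · exact (key y').2.1 y h) hne
      obtain ⟨j⟩ := hne
      exact ⟨w, IsPre.trans _ _ _ (hw j) (key j).1, hw⟩
    · exact ⟨w0, IsPre.refl w0, fun j => absurd ⟨j⟩ hne⟩
  refine ⟨w, fun x => if h : x < μ then (s ⟨x, h⟩).2 else μ, hw0, ?_, ?_⟩
  · intro x hx
    rw [hf x hx]
    exact hm _ _ _ (key ⟨x, hx⟩).2.2.2 (hw ⟨x, hx⟩)
  · intro x hx y hy hxy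
    rw [hf x hx, hf y hy] at hxy
    rcases lt_trichotomy x y with h | h | h
    · exact absurd hxy (hinj x hx y hy h)
    · exact h
    · exact absurd hxy.symm (hinj y hy x hx h)

end F61B
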