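import Pool.Agent.W_MP_f61043B_lc.RelT
import Pool.Agent.W_MP_f61043B_lc.RecR

/-!
# MP_f61043_lc, part B : the choice of `r⁵` and of the set `B`

`exists_r5` (e): for `l : J` let `i = nx l`; the set of the `r` such that there is an injective `f : Iio (th i) → K` with the
properties is open for `RLeI i0`.  It is dense below `r4`: let `r ≤_i0 r4`, `w0 = rrepl i r2 r` (`≤_i r2`), `Φ w ξ` :=
`ξ < nu δ ∧ TD i w (col ξ) (nm (nn l)) ∧ ∀ l' > l, Star (rrepl i r4 w) l' (col ξ) (ev e l')` (monotone).  For `w ≤_i w0` and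
`Y` with `#Y < ci (nu δ)`: `TT col e l (nn l) r4 w` is unbounded in `nu δ`, so it has an element above all elements of `Y` which are `< nu δ`
(`regOf`), and this gives `w' ≤_i w` with `Φ w' ξ`.  `recR` for `μ = th i` (`ci (th i) ≤ ci (nu i)`) gives `w∞ ≤_i w0` and `f`.  `r' = rrepl i r w∞`:
`RLeI i r' r`, `TD` by `TD.mono` (same tails), and `r' ≤ rrepl i r4 w∞`.
-/

universe u

open Cardinal Set Filter

namespace F61B

open Pool.Agent.W_MP_315f31_lc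

variable {K : Type u} [LinearOrder K] [WellFoundedLT K] {S : SetB K}

/-- the sets in the proof of `exists_r5` -/
def RelR5_E (S : SetB K) (δ : K) {i0 : K} {J : Set K} (col : K → K → DB S) (e : EE S i0 J)
    (nn : ∀ l : J, NN S (S.nx l.1)) (l : J) : Set (RC S) :=
  {r | ∃ f : K → K, (∀ x < S.th (S.nx l.1), f x < S.nu δ) ∧
    (∀ x < S.th (S.nx l.1), ∀ y < S.th (S.nx l.1), f x = f y → x = y) ∧
    ∀ x < S.th (S.nx l.1), TD (S.nx l.1) r (col (f x)) (nm (nn l)) ∧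
      ∀ l' : J, l < l' → Star r l'.1 (col (f x)) (ev e l')}

theorem RelR5_leT {i : K} {r r' : RC S} (h : RLe r' r) : LeT i (st r') (st r) :=
  fun j _ => st_mono h j

theorem RelR5_dense {δ i0 : K} {J : Set K} (h : Ctx S δ i0 J) (col : K → K → DB S) (e : EE S i0 J)
    (r2 r4 : RC S) (nn : ∀ l : J, NN S (S.nx l.1)) (h42 : RLeI i0 r4 r2)
    (hU : ∀ l : J, ∀ w, RLeI (S.nx l.1) w r2 → Unb S δ (TT col e l (nn l) r4 w)) (l : J) :
    W61.Dns (RLeI i0) r4 (RelR5_E S δ col e nn l) := by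
  intro r hr
  have hlδ : l.1 < δ := h.lt l.1 l.2
  have hiδ : S.nx l.1 < δ := nx_lt_lim h.lim hlδ
  have hi0 : i0 ≤ S.nx l.1 := (h.ge l.1 l.2).trans (lt_nx S l.1).le
  have hr2 : RLe r r2 := IsPre.trans _ _ _ hr.1 h42.1
  have hw0 : RLeI (S.nx l.1) (rrepl (S.nx l.1) r2 r) r2 := rrepl_leI hr2
  have hlt : ci (S.nu (S.nx l.1)) < ci (S.nu δ) :=
    ((nu_lt_la S _).trans_le (la_le_th S hiδ)).trans (th_lt_nu S δ)
  obtain ⟨w, f, hw, hf1, hf2⟩ := recR (S := S) (i := S.nx l.1) (μ := S.th (S.nx l.1))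
    (th_lt_nu S _).le
    (fun w ξ => ξ < S.nu δ ∧ TD (S.nx l.1) w (col ξ) (nm (nn l)) ∧
      ∀ l' : J, l < l' → Star (rrepl (S.nx l.1) r4 w) l'.1 (col ξ) (ev e l'))
    (by
      rintro w w' ξ ⟨h1, h2, h3⟩ hww
      refine ⟨h1, h2.mono (RelR5_leT hww.1), fun l' hl' => (h3 l' hl').mono ?_⟩
      exact rrepl_mono (fun j _ => Filter.Eventually.of_forall fun _ => Ext.refl _)
        fun j _ => hww.1 j)
    (rrepl (S.nx l.1) r2 r)
    (by
      intro w hw Y hY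
      have hwr2 : RLeI (S.nx l.1) w r2 := IsPre.trans _ _ _ hw hw0
      have hYc : #(Y ∩ Iio (S.nu δ) : Set K) < ci (S.nu δ) :=
        ((mk_le_mk_of_subset inter_subset_left).trans hY).trans_lt hlt
      obtain ⟨β, hβ, hYβ⟩ := regOf (S.nu_init δ) (nu_regular S δ)
        (fun y : (Y ∩ Iio (S.nu δ) : Set K) => y.1) (fun y => y.2.2) hYc
      obtain ⟨ξ, ⟨w', hw', hTD, hSt⟩, hβξ, hξ⟩ := hU l w hwr2 β hβ
      refine ⟨w', ξ, hw', fun hmem => ?_, hξ, hTD, hSt⟩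
      exact absurd (hYβ ⟨ξ, hmem, hξ⟩) (not_lt.2 hβξ.le))
  have hr' : RLeI (S.nx l.1) (rrepl (S.nx l.1) r w) r := by
    refine ⟨fun j => ?_, fun j hj => rrepl_lt hj _ _⟩
    rcases lt_or_ge j (S.nx l.1) with hj | hj
    · rw [rrepl_lt hj]
      exact Filter.Eventually.of_forall fun _ => Ext.refl _
    · rw [rrepl_ge hj]
      have h1 := hw.1 j
      rw [rrepl_ge hj] at h1
      exact h1
  refine ⟨rrepl (S.nx l.1) r w, RLeI.mono hi0 hr', f, fun x hx => (hf1 x hx).1, hf2,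
    fun x hx => ⟨(hf1 x hx).2.1.mono ?_, fun l' hl' => ((hf1 x hx).2.2 l' hl').mono ?_⟩⟩
  · intro j hj
    rw [st_rrepl, repl_ge hj]
    exact Ext.refl _
  · exact rrepl_mono (fun j _ => hr.1 j) fun j _ => Filter.Eventually.of_forall fun _ => Ext.refl _

/-- (e) -/
theorem exists_r5 {δ i0 : K} {J : Set K} (h : Ctx S δ i0 J) (col : K → K → DB S) (e : EE S i0 J)
    (r2 r4 : RC S) (nn : ∀ l : J, NN S (S.nx l.1)) (h42 : RLeI i0 r4 r2)
    (hU : ∀ l : J, ∀ w, RLeI (S.nx l.1) w r2 → Unb S δ (TT col e l (nn l) r4 w)) :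
    ∃ (r5 : RC S) (f : J → K → K), RLeI i0 r5 r4 ∧ ∀ l : J,
      (∀ x < S.th (S.nx l.1), f l x < S.nu δ) ∧
      (∀ x < S.th (S.nx l.1), ∀ y < S.th (S.nx l.1), f l x = f l y → x = y) ∧
      ∀ x < S.th (S.nx l.1), TD (S.nx l.1) r5 (col (f l x)) (nm (nn l)) ∧
        ∀ l' : J, l < l' → Star r5 l'.1 (col (f l x)) (ev e l') := by
  obtain ⟨r5, hr5, hE⟩ := distR i0 (J := J) (h.card.trans (th_lt_nu S i0).le)
    (fun l => RelR5_E S δ col e nn l)
    (by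
      rintro l r r' ⟨f, h1, h2, h3⟩ hrr
      exact ⟨f, h1, h2, fun x hx => ⟨(h3 x hx).1.mono (RelR5_leT hrr.1),
        fun l' hl' => ((h3 x hx).2 l' hl').mono hrr.1⟩⟩)
    r4 (RelR5_dense h col e r2 r4 nn h42 hU)
  choose f hf using hE
  exact ⟨r5, f, hr5, hf⟩

end F61B
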