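import Pool.Agent.W_MP_f61043B_lc.RelR4
import Pool.Agent.W_MP_f61043B_lc.RelR5
import Pool.Agent.W_MP_f61043B_lc.RelQ
import Pool.Agent.W_MP_f61043B_lc.CC

/-!
# MP_f61043_lc, part B : the relation

`rel_pos` (f): `exists_ctx`, `exists_st_eq` (`st r = q`), `exists_r4`, `exists_r5`; `q0 = st r5`, `exists_q1`.
`Z l` (`l : J`) is the set of the `α < th (nx l)` such that `Ext (r5.r l α) ((st r5).p l)`, and for all `m ≤ pt r5 l α`:
`Frc (col ξs α) m ↔ Frc (ev e l) m`, and `Frc (col (f l' x) α) m ↔ Frc (ev e l) m` for all `l' < l` in `J`, `x < th (nx l')`.  It is in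
`U l` by `ev_all`: the number of the pairs `(l', x)` is at most `ci (th l) * ci (th l)` (`#J ≤ ci (th i0) ≤ ci (th l)`).
`aV α = ⨆ (l : J) (_ : α ∈ Z l), io (e_l (r5.r l α)) ⊓ sg (ev e l) v`, where `e_l g` is the condition with the coordinate `l` equal to
`g` and all others `emp` (`single`).
`B`: the union `Bs` of the sets `f l '' Iio (th (nx l))` has the cardinality `≥ ci (th δ)` (it is at least `ci (th (nx l))` for all
`l ∈ J`; `exists_le_th_lim`), so there is an injection `F0` of `Iio (th δ)` into it.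
Homogeneous: let `m ≤ q1` force `aV α`, `ξ = f l' x ∈ Bs`.  Below every `m' ≤ m` there is `m''` and `l` with `α ∈ Z l`,
`Ext (m''.p l) (r5.r l α)`, `Frc (sg (ev e l) v) m''`; `m'' ≤ q1 ≤ st r5`, so `m'' ≤ pt r5 l α`.  If `l' < l` then
`Frc (col ξ α) ↔ Frc (ev e l)` for all conditions `≤ m''`.  If `l ≤ l'` (`α < th (nx l) ≤ th (nx l')`):
`TD (nx l')` for `col ξ` and for `col ξs` (`TD.mono` from `r4` to `r5`): `Frc (col ξ α) ↔ Frc (col ξs α) ↔ Frc (ev e l)` for all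
conditions `≤ m''`.  So `m''` forces `sg (col ξ α) v`.
Size: `j < th δ`, `q2 ≤ q1`: let `x0 < δ` with `j < th x0` (`th_cont`); `exists_q1` gives `l > x0` in `J` and `q3 ≤ q2` with
`Frc (sg (ev e l) v) q3`; `regLa l` (`j < th l < th (nx l)`) gives `q4 ≤ q3` and `z < th (nx l)`; `(q4).p l` extends
`(st r5).p l`, so by `ev_cpt` there is `α ∈ Z l`, `α > z` such that `r5.r l α` and `q4.p l` are compatible; `q5 = q4` with the
coordinate `l` replaced by `jn (q4.p l) (r5.r l α)`.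
-/

set_option linter.unusedSectionVars false

universe u

open Cardinal Set Filter

namespace F61B

open Pool.Agent.W_MP_315f31_lc

variable {K : Type u} [LinearOrder K] [WellFoundedLT K] {S : SetB K}

theorem RelPos_dense {b : DB S} {m : Cnd S}
    (h : ∀ m', Le m' m → ∃ m'', Le m'' m' ∧ Frc b m'') : Frc b m :=
  IM.RO.mem_of_dense fun q hq => by
    obtain ⟨r, hr, hr'⟩ := h q hq
    exact ⟨r, hr, hr'⟩

theorem RelPos_sg {b e : DB S} {m : Cnd S} (h : ∀ m', Le m' m → (Frc b m' ↔ Frc e m')) (v : Bool)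
    (hv : Frc (sg e v) m) : Frc (sg b v) m := by
  cases v with
  | true => exact (h m (IsPre.refl m)).2 hv
  | false =>
    intro q hq hq'
    exact hv q hq ((h q hq).1 hq')

theorem RelPos_io {s m m' : Cnd S} (h : Frc (io s) m) (hm : Le m' m) :
    ∃ m'', Le m'' m' ∧ Le m'' s := h m' hm

theorem RelPos_inf {b e : DB S} {m : Cnd S} : Frc (b ⊓ e) m ↔ Frc b m ∧ Frc e m := Iff.rfl

theorem RelPos_iSup {ι : Type u} {b : ι → DB S} {m : Cnd S} :
    Frc (⨆ i, b i) m ↔ ∀ m', Le m' m → ∃ m'', Le m'' m' ∧ ∃ i, Frc (b i) m'' :=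
  IM.RO.mem_iSup b m

/-- The trivial condition. -/
def RelPos_top (S : SetB K) : Cnd S where
  p _ := emp
  ok i := ok_emp S i
  bdd := by
    by_cases h : Nonempty K
    · exact ⟨h.some, fun _ _ => rfl⟩
    · exact absurd (Cardinal.mk_ne_zero_iff.mp (aleph0_pos.trans (aleph0_lt_K S)).ne') h

/-- The condition with one coordinate. -/
noncomputable def RelPos_single (r : RC S) (l α : K) : Cnd S :=
  upd (RelPos_top S) l (r.r l α) (r.ok l α)

theorem RelPos_upd_same (p : Cnd S) (i : K) (f : Pt K) (hf : Ok S i f) : (upd p i f hf).p i = f :=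
  if_pos rfl

theorem RelPos_upd_ne (p : Cnd S) {i j : K} (f : Pt K) (hf : Ok S i f) (h : j ≠ i) :
    (upd p i f hf).p j = p.p j := if_neg h

theorem RelPos_ext_emp (f : Pt K) : Ext f emp := fun _ _ _ h => by
  simp [emp] at h

theorem RelPos_le_pt {r : RC S} {l α : K} {m : Cnd S} (h1 : Le m (st r))
    (h2 : Le m (RelPos_single r l α)) : Le m (pt r l α) := by
  intro j
  by_cases hj : j = l
  · subst hj
    rw [pt_same]
    have h3 := h2 j
    rwa [RelPos_single, RelPos_upd_same] at h3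
  · rw [pt_ne _ hj]
    exact h1 j

/-- The set `B`. -/
theorem RelPos_B {δ i0 : K} {J : Set K} (h : Ctx S δ i0 J) (f : J → K → K)
    (hf : ∀ l : J, ∀ x < S.th (S.nx l.1), ∀ y < S.th (S.nx l.1), f l x = f l y → x = y) :
    ∃ F0 : K → K, (∀ x < S.th δ, ∃ (l : J) (y : K), y < S.th (S.nx l.1) ∧ F0 x = f l y) ∧
      ∀ x < S.th δ, ∀ y < S.th δ, F0 x = F0 y → x = y := by
  classical
  let Bs : Set K := ⋃ l : J, f l '' Iio (S.th (S.nx l.1))
  have hcard : ci (S.th δ) ≤ #Bs := by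
    by_contra hc
    obtain ⟨j, hj, hj'⟩ := exists_le_th_lim S h.lim (not_le.mp hc)
    obtain ⟨l, hl, hjl⟩ := h.cof j hj
    have h1 : ci (S.th (S.nx l)) ≤ #Bs := by
      have h2 : #(f ⟨l, hl⟩ '' Iio (S.th (S.nx l))) = ci (S.th (S.nx l)) :=
        Cardinal.mk_image_eq_of_injOn _ _ fun x hx y hy hxy => hf ⟨l, hl⟩ x hx y hy hxy
      rw [← h2]
      exact Cardinal.mk_le_mk_of_subset (subset_iUnion (fun l : J => f l '' Iio (S.th (S.nx l.1)))
        ⟨l, hl⟩)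
    have h3 : ci (S.th (S.nx j)) ≤ ci (S.th l) := la_le_th S hjl
    exact absurd (h1.trans (hj'.trans h3)) (not_le.mpr (th_lt_la S l))
  obtain ⟨F⟩ := hcard
  refine ⟨fun x => if hx : x < S.th δ then (F ⟨x, hx⟩).1 else x, fun x hx => ?_,
    fun x hx y hy hxy => ?_⟩
  · obtain ⟨l, hl⟩ := mem_iUnion.mp (F ⟨x, hx⟩).2
    obtain ⟨y, hy, hy'⟩ := hl
    refine ⟨l, y, hy, ?_⟩
    simp only [dif_pos hx]
    exact hy'.symm
  · simp only [dif_pos hx, dif_pos hy] at hxy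
    exact congrArg Subtype.val (F.injective (Subtype.ext hxy))

/-- The relation holds at `th δ`, `δ` a limit. -/
theorem rel_pos {δ : K} (hδ : IsLim δ) (col : K → K → DB S) (q : Cnd S) :
    ∃ (q1 : Cnd S) (aV : K → DB S) (f : K → K) (v : Bool), Le q1 q ∧
      (∀ x < S.th δ, f x < S.nu δ) ∧ (∀ x < S.th δ, ∀ y < S.th δ, f x = f y → x = y) ∧
      (∀ x < S.th δ, ∀ α < S.th δ, io q1 ⊓ aV α ≤ sg (col (f x) α) v) ∧
      ∀ j < S.th δ, ∀ F : K → K → DB S, (∀ a y y', y ≠ y' → F a y ⊓ F a y' = ⊥) →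
        ∀ q2, Le q2 q1 → ∃ (q3 : Cnd S) (α : K), Le q3 q2 ∧ α < S.th δ ∧ Frc (aV α) q3 ∧
          ∀ a < j, io q3 ⊓ F a α = ⊥ := by
  obtain ⟨i0, J, hC⟩ := exists_ctx S hδ
  obtain ⟨r, rfl⟩ := exists_st_eq q
  obtain ⟨e, r2, r4, ξs, nn, h2r, h42, -, hstar, hTD, hU⟩ := exists_r4 hC col r
  obtain ⟨r5, f, h54, hf⟩ := exists_r5 hC col e r2 r4 nn h42 hU
  obtain ⟨q1, v, hq1, hcof⟩ := exists_q1 hC e (st r5)
  have hq1r : Le q1 (st r) := IsPre.trans _ _ _ hq1
    (st_mono (IsPre.trans _ _ _ h54.1 (IsPre.trans _ _ _ h42.1 h2r.1)))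
  let Z : J → Set K := fun l => {α | α < S.th (S.nx l.1) ∧ ∀ m, Le m (pt r5 l.1 α) →
    (Frc (col ξs α) m ↔ Frc (ev e l) m) ∧ ∀ l' : J, l' < l → ∀ x < S.th (S.nx l'.1),
      (Frc (col (f l' x) α) m ↔ Frc (ev e l) m)}
  have hZ : ∀ l : J, ∀ᶠ α in (S.U l.1 : Filter K), α ∈ Z l := by
    intro l
    have hcard : #(J × Iio (S.th l.1)) < ci (S.th (S.nx l.1)) := by
      refine lt_of_le_of_lt ?_ (th_lt_la S l.1)
      rw [Cardinal.mk_prod, Cardinal.lift_id, Cardinal.lift_id]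
      refine (mul_le_mul' (hC.card.trans (th_card_mono S (hC.ge l.1 l.2))) le_rfl).trans ?_
      exact (Cardinal.mul_eq_self (aleph0_le_th S l.1)).le
    have h1 : ∀ᶠ α in (S.U l.1 : Filter K), ∀ t : J × Iio (S.th l.1), t.1 < l →
        t.2.1 < S.th (S.nx t.1.1) → ∀ m, Le m (pt r5 l.1 α) →
          (Frc (col (f t.1 t.2.1) α) m ↔ Frc (ev e l) m) := by
      refine ev_all S l.1 hcard fun t => ?_
      by_cases ht : t.1 < l ∧ t.2.1 < S.th (S.nx t.1.1)
      · filter_upwards [((hf t.1).2.2 t.2.1 ht.2).2 l ht.1] with α hα _ _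
        exact hα
      · exact Filter.Eventually.of_forall fun α ht1 ht2 => absurd ⟨ht1, ht2⟩ ht
    filter_upwards [ev_lt S l.1, h1, (hstar.mono h54.1) l] with α hα hα1 hα2
    refine ⟨hα, fun m hm => ⟨hα2 m hm, fun l' hl' x hx => ?_⟩⟩
    have hxl : x < S.th l.1 := hx.trans_le (S.th_mono.monotone ((nx_le_iff S).mpr hl'))
    exact hα1 (l', ⟨x, hxl⟩) hl' hx m hm
  obtain ⟨F0, hF0, hF0i⟩ := RelPos_B hC f fun l => (hf l).2.1
  refine ⟨q1, fun α => ⨆ (l : J) (_ : α ∈ Z l), io (RelPos_single r5 l.1 α) ⊓ sg (ev e l) v,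
    F0, v, hq1r, ?_, hF0i, ?_, ?_⟩
  · intro x hx
    obtain ⟨l, y, hy, hxy⟩ := hF0 x hx
    rw [hxy]
    exact (hf l).1 y hy
  · intro x hx α hα m hm
    obtain ⟨hm1, hm2⟩ := hm
    have hm2' : Frc (⨆ (l : J), ⨆ (_ : α ∈ Z l), io (RelPos_single r5 l.1 α) ⊓
        sg (ev e l) v) m := hm2
    refine RelPos_dense fun m' hm' => ?_
    obtain ⟨a1, ha1, ha1'⟩ := RelPos_io hm1 hm'
    obtain ⟨a2, ha2, l, ha2'⟩ := RelPos_iSup.mp hm2' a1
      (IsPre.trans (L := Le (S := S)) _ _ _ ha1 hm')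
    by_cases hαZ : α ∈ Z l
    swap
    · rw [iSup_neg hαZ] at ha2'
      exact absurd ha2' (IM.RO.mem_bot _)
    rw [iSup_pos hαZ] at ha2'
    obtain ⟨ha3a, ha3b⟩ := RelPos_inf.mp ha2'
    obtain ⟨a4, ha4, ha4'⟩ := RelPos_io ha3a (IsPre.refl _)
    have h41 : Le a4 a1 := IsPre.trans _ _ _ ha4 ha2
    have h4q : Le a4 (st r5) := IsPre.trans _ _ _ h41 (IsPre.trans _ _ _ ha1' hq1)
    have h4p : Le a4 (pt r5 l.1 α) := RelPos_le_pt h4q ha4'
    refine ⟨a4, IsPre.trans _ _ _ h41 ha1, ?_⟩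
    refine RelPos_sg (e := ev e l) (fun m4 hm4 => ?_) v (ha3b.mono ha4)
    obtain ⟨l', y, hy, hxy⟩ := hF0 x hx
    rw [hxy]
    have hm4p : Le m4 (pt r5 l.1 α) := IsPre.trans _ _ _ hm4 h4p
    rcases lt_or_ge l' l with hll | hll
    · exact (hαZ.2 m4 hm4p).2 l' hll y hy
    · have hαl : α < S.th (S.nx l'.1) :=
        hαZ.1.trans_le (S.th_mono.monotone (nx_mono S hll))
      have hT : LeT (S.nx l'.1) m4 (st r5) := fun j _ => (IsPre.trans _ _ _ hm4 h4q : Le m4 _) j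
      have hTD5 : TD (S.nx l'.1) r5 (col ξs) (nm (nn l')) :=
        (hTD l').mono fun j _ => st_mono h54.1 j
      exact (((hf l').2.2 y hy).1 α hαl m4 hT).trans
        ((hTD5 α hαl m4 hT).symm.trans (hαZ.2 m4 hm4p).1)
  · intro j hj F hF q2 hq2
    obtain ⟨x0, hx0, hjx⟩ := S.th_cont δ hδ j hj
    obtain ⟨l, q3, hxl, hq3, hq3'⟩ := hcof q2 hq2 x0 hx0
    have hjl : j < S.th (S.nx l.1) :=
      hjx.trans (S.th_mono (hxl.trans (lt_nx S l.1)))
    obtain ⟨q4, z, hq4, hz, hz'⟩ := regLa l.1 hjl F hF q3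
    have h4r : Le q4 (st r5) := IsPre.trans _ _ _ hq4.1 (IsPre.trans _ _ _ hq3
      (IsPre.trans _ _ _ hq2 hq1))
    obtain ⟨α, ⟨hα1, hα2⟩, hα3⟩ := (((ev_cpt (r5.ok l.1) (q4.ok l.1) (h4r l.1)).and
      (hZ l)).and (ev_gt S l.1 hz)).exists
    have hcp : Cpt (q4.p l.1) (r5.r l.1 α) := fun x y z z' h1 h2 => (hα1 x y z' z h2 h1).symm
    let q5 : Cnd S := upd q4 l.1 (jn (q4.p l.1) (r5.r l.1 α)) (ok_jn (q4.ok l.1) (r5.ok l.1 α))
    have h54' : Le q5 q4 := by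
      intro i
      by_cases hi : i = l.1
      · subst hi
        change Ext ((upd q4 l.1 _ _).p l.1) _
        rw [RelPos_upd_same]
        exact jn_left _ _
      · change Ext ((upd q4 l.1 _ _).p i) _
        rw [RelPos_upd_ne _ _ _ hi]
        exact Ext.refl _
    have h5s : Le q5 (RelPos_single r5 l.1 α) := by
      intro i
      by_cases hi : i = l.1
      · subst hi
        change Ext ((upd q4 l.1 _ _).p l.1) ((upd _ l.1 _ _).p l.1)
        rw [RelPos_upd_same, RelPos_upd_same]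
        exact jn_right hcp
      · have h7 : (RelPos_single r5 l.1 α).p i = emp := RelPos_upd_ne _ _ _ hi
        rw [h7]
        exact RelPos_ext_emp _
    refine ⟨q5, α, IsPre.trans _ _ _ h54' (IsPre.trans _ _ _ hq4.1 hq3), ?_, ?_, ?_⟩
    · exact hα2.1.trans (S.th_mono (nx_lt_lim hδ (hC.lt l.1 l.2)))
    · have hle : io (RelPos_single r5 l.1 α) ⊓ sg (ev e l) v ≤
          ⨆ (l : J) (_ : α ∈ Z l), io (RelPos_single r5 l.1 α) ⊓ sg (ev e l) v :=
        le_iSup₂ (f := fun (l : J) (_ : α ∈ Z l) =>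
          io (RelPos_single r5 l.1 α) ⊓ sg (ev e l) v) l hα2
      refine hle (RelPos_inf.mpr ⟨?_, ?_⟩)
      · exact le_io_iff.mp (io_mono h5s)
      · exact hq3'.mono (IsPre.trans _ _ _ h54' hq4.1)
    · intro a ha
      have h6 := hz' a ha α hα3.le hα2.1
      refine le_bot_iff.mp ?_
      rw [← h6]
      exact inf_le_inf_right _ (io_mono h54')

end F61B
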