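import Pool.Agent.W_MP_f61043B_lc.CardsLim
import Pool.Agent.W_MP_f61043B_lc.RelPos

/-!
# MP_f61043_lc, part B : the classification of the elements of `K`

`relP_of`: `exists_io_le`, `rel_pos`; the covering part: `exists_io_le`, `le_io_iff`.

`cls_P`: let `i : K`.  If some `j < i` has `ci i ≤ ci j`: (a), with a native map (values `⊤`, `⊥`).  If `ci i ≤ ℵ₀` and `i` is not the
least element: (b), a surjection of `ℕ` onto `Iio i`; if `i` is the least element: (c).  Otherwise `ci i` is an uncountable cardinal and all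
`ci j < ci i`, `j < i`.  Let `j` be the least element with `i < th (nx j)` (there is one by `exists_le_th`); then `th j ≤ i` (if `j` is the least
element since `ci i > ℵ₀ = ci (th j)`, if `j = nx j'` by the choice of `j`, if `j` is a limit by `th_cont`).  1. `i = th j`: `j` is not the least
element; `j = nx j'`: (c) by `bdd_la`; `j` a limit: (d) with `l = nu j`, `bdd_nu_lim`, `rel_pos`.  2. `th j < i ≤ nu j`: `ci (th j) < ci i`, so
`ci i = ci (nu j)` and `i = nu j` (`nu_init`): (c) by `bdd_nu_succ` or `bdd_nu_lim`.  3. `nu j < i ≤ rho j`: `i = rho j`: (c).  4. `rho j < i`: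
(a) by `coll`.
-/

universe u

open Cardinal Set Filter

namespace F61B

open Pool.Agent.W_MP_315f31_lc

variable {K : Type u} [LinearOrder K] [WellFoundedLT K]

/-- `rel_pos` in terms of the algebra. -/
theorem relP_of (S : SetB K) {δ : K} (hδ : IsLim δ) : RelP K (DB S) (S.th δ) (S.nu δ) := by
  intro col c hc
  obtain ⟨q, hq⟩ := exists_io_le hc
  obtain ⟨q1, aV, f, v, h1, h2, h3, h4, h5⟩ := rel_pos hδ col q
  refine ⟨io q1, aV, f, v, io_ne_bot q1, (io_mono h1).trans hq, h2, h3, ?_, ?_⟩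
  · intro x hx α hα
    have h6 := h4 x hx α hα
    unfold sg at h6
    exact h6
  · intro j hj F hF c' hc' hc'b
    have h7 : io q1 ⊓ c' ≠ ⊥ := by
      rw [inf_eq_right.2 hc'b]
      exact hc'
    obtain ⟨q2, hq2, hq2'⟩ := exists_io_le_of h7
    obtain ⟨q3, α, hq3, hα, hf, hF3⟩ := h5 j hj F (fun a y y' hyy => hF a y y' hyy) q2 hq2
    exact ⟨io q3, α, io_ne_bot q3, (io_mono hq3).trans hq2', hα, le_io_iff.2 hf, hF3⟩

omit [WellFoundedLT K] in
/-- A native map gives a name. -/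
theorem Cls_native (S : SetB K) {i j : K} (h : ci i ≤ ci j) :
    ∃ G : K → K → DB S, SV G ∧ ∀ y < i, (⨆ a : Iio j, G a y) = ⊤ := by
  classical
  obtain ⟨σ⟩ := (Cardinal.le_def _ _).1 h
  refine ⟨fun a y => if ∃ hy : y ∈ Iio i, (σ ⟨y, hy⟩ : K) = a then ⊤ else ⊥, ?_, ?_⟩
  · intro a x y hxy
    by_cases h1 : ∃ hy : x ∈ Iio i, (σ ⟨x, hy⟩ : K) = a
    · by_cases h2 : ∃ hy : y ∈ Iio i, (σ ⟨y, hy⟩ : K) = a
      · exfalso
        obtain ⟨hx, hx'⟩ := h1
        obtain ⟨hy, hy'⟩ := h2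
        have h3 := σ.injective (Subtype.ext (hx'.trans hy'.symm))
        exact hxy (congrArg Subtype.val h3)
      · simp only [if_neg h2, inf_bot_eq]
    · simp only [if_neg h1, bot_inf_eq]
  · intro y hy
    refine top_le_iff.1 ?_
    refine le_trans ?_ (le_iSup (fun a : Iio j =>
      (if ∃ hy : y ∈ Iio i, (σ ⟨y, hy⟩ : K) = a then (⊤ : DB S) else ⊥)) (σ ⟨y, hy⟩))
    rw [if_pos ⟨hy, rfl⟩]

theorem cls_P (S : SetB K) (i : K) :
    (∃ j < i, ∃ G : K → K → DB S, SV G ∧ ∀ y < i, (⨆ a : Iio j, G a y) = ⊤) ∨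
    (∃ f : ℕ → K, (∀ n, f n < i) ∧ ∀ x < i, ∃ n, x ≤ f n) ∨
    (∀ j < i, BddIn (D := DB S) j i) ∨
    ∃ l : K, i < l ∧ (∀ x < l, ∃ e : K → K, ∀ y < x, ∃ z < i, e z = y) ∧ BddIn (D := DB S) i l ∧
      RelP K (DB S) i l := by
  classical
  by_cases hA : ∃ j < i, ci i ≤ ci j
  · obtain ⟨j, hj, hij⟩ := hA
    exact Or.inl ⟨j, hj, Cls_native S hij⟩
  have hini : ∀ j < i, ci j < ci i := fun j hj => by
    by_contra h
    exact hA ⟨j, hj, not_lt.1 h⟩
  by_cases hleast : ∀ j, i ≤ j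
  · exact Or.inr (Or.inr (Or.inl fun j hj => absurd (hleast j) (not_le.2 hj)))
  push Not at hleast
  obtain ⟨j0, hj0⟩ := hleast
  by_cases hcount : ci i ≤ ℵ₀
  · have : Countable (Iio i) := Cardinal.mk_le_aleph0_iff.1 hcount
    have : Nonempty (Iio i) := ⟨⟨j0, hj0⟩⟩
    obtain ⟨f, hf⟩ := exists_surjective_nat (Iio i)
    refine Or.inr (Or.inl ⟨fun n => (f n).1, fun n => (f n).2, fun x hx => ?_⟩)
    obtain ⟨n, hn⟩ := hf ⟨x, hx⟩
    refine ⟨n, ?_⟩
    show x ≤ (f n).1
    rw [hn]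
  rw [not_le] at hcount
  -- the block
  have hex : ∃ j, i < S.th (S.nx j) := by
    obtain ⟨j, hj⟩ := exists_le_th S (S.inac.isStrongLimit.isSuccLimit.succ_lt (S.card_lt i))
    refine ⟨j, ?_⟩
    by_contra h
    have h1 := ci_mono (not_lt.1 h)
    exact absurd (Order.lt_succ (ci i)) (not_lt.2 (hj.trans h1))
  obtain ⟨j, hj, hjmin⟩ := WellFounded.has_min (wellFounded_lt (α := K)) {j | i < S.th (S.nx j)} hex
  have hjmin' : ∀ j' < j, S.th (S.nx j') ≤ i := fun j' hj' => not_lt.1 fun h => hjmin j' h hj'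
  have hji : S.th j ≤ i := by
    rcases cases_K S j with h | ⟨j', h⟩ | h
    · by_contra h1
      have h2 := ci_mono (not_le.1 h1).le
      rw [S.th_bot j h] at h2
      exact absurd hcount (not_lt.2 h2)
    · rw [h]
      exact hjmin' j' (by rw [h]; exact lt_nx S j')
    · by_contra h1
      obtain ⟨j', hj', h2⟩ := S.th_cont j h i (not_le.1 h1)
      have h3 := hjmin' j' hj'
      have h4 : S.th j' < S.th (S.nx j') := S.th_mono (lt_nx S j')
      exact absurd (h2.trans (h4.trans_le h3)) (lt_irrefl _)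
  rcases hji.eq_or_lt with h1 | h1
  · -- `i = th j`
    rcases cases_K S j with h | ⟨j', h⟩ | h
    · exfalso
      rw [← h1, S.th_bot j h] at hcount
      exact lt_irrefl _ hcount
    · refine Or.inr (Or.inr (Or.inl fun x hx => ?_))
      rw [← h1, h] at hx ⊢
      exact bdd_la S j' hx
    · refine Or.inr (Or.inr (Or.inr ⟨S.nu j, ?_, ?_, ?_, ?_⟩))
      · rw [← h1]
        exact th_lt_nu' S j
      · intro x hx
        have h2 := S.nu_init j x hx
        rw [S.nu_card j, Order.lt_succ_iff, h1] at h2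
        obtain ⟨σ⟩ := (Cardinal.le_def _ _).1 h2
        refine ⟨fun z => if h : ∃ y : Iio x, (σ y : K) = z then h.choose.1 else x, fun y hy => ?_⟩
        have hy' : y ∈ Iio x := hy
        have hex : ∃ y' : Iio x, (σ y' : K) = (σ ⟨y, hy'⟩ : K) := ⟨⟨y, hy'⟩, rfl⟩
        refine ⟨(σ ⟨y, hy'⟩ : K), (σ ⟨y, hy'⟩).2, ?_⟩
        show (if h : ∃ y' : Iio x, (σ y' : K) = (σ ⟨y, hy'⟩ : K) then h.choose.1 else x) = y
        rw [dif_pos hex]
        have h3 := σ.injective (Subtype.ext hex.choose_spec)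
        rw [h3]
      · rw [← h1]
        exact bdd_nu_lim S h (th_lt_nu' S j)
      · rw [← h1]
        exact relP_of S h
  by_cases h2 : i ≤ S.nu j
  · -- `i = nu j`
    have h3 : i = S.nu j := by
      by_contra h4
      have h5 := S.nu_init j i (lt_of_le_of_ne h2 h4)
      rw [S.nu_card j, Order.lt_succ_iff] at h5
      exact absurd (hini _ h1) (not_lt.2 h5)
    refine Or.inr (Or.inr (Or.inl fun x hx => ?_))
    rw [h3] at hx ⊢
    rcases cases_K S j with h | h | h
    · exact bdd_nu_succ S (Or.inl h) hx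
    · exact bdd_nu_succ S (Or.inr h) hx
    · exact bdd_nu_lim S h hx
  rw [not_le] at h2
  by_cases h3 : i ≤ S.rho j
  · -- `i = rho j`
    have h4 : i = S.rho j := by
      by_contra h4
      have h5 := S.rho_init j i (lt_of_le_of_ne h3 h4)
      rw [S.rho_card j, Order.lt_succ_iff] at h5
      exact absurd (hini _ h2) (not_lt.2 h5)
    refine Or.inr (Or.inr (Or.inl fun x hx => ?_))
    rw [h4] at hx ⊢
    exact bdd_rho S j hx
  · obtain ⟨G, hG, hG'⟩ := coll S j hj
    exact Or.inl ⟨S.rho j, not_le.1 h3, G, hG, hG'⟩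

end F61B
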