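import Pool.Agent.W_MP_f61043B_lc.Basic

/-!
# MP_f61043_lc, part B : one coordinate

`un f x y` is the union of a family (some value of a member, if there is one); for a family with pairwise compatible members it is
an upper bound.  `ok_un`: the domain is the union of the domains, at most `ci (nu i)` many sets of size at most `ci (nu i)`.

`closedP`: coordinatewise unions, at the coordinates `j ≥ i` (`ci (nu i) ≤ ci (nu j)`); the coordinates below `i` are those of the first
member (all the same).  Bounded support: `regK` for the supports of the members of the sequence (`#J ≤ ci (nu i) < #K`).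
-/

universe u

open Cardinal Set Filter

namespace F61B

open Pool.Agent.W_MP_315f31_lc

variable {K : Type u} [LinearOrder K] [WellFoundedLT K] {S : SetB K}

/-- The union of a family of partial functions. -/
noncomputable def un {J : Type u} (f : J → Pt K) : Pt K := fun x y =>
  open Classical in if h : ∃ z, ∃ j, f j x y = some z then some h.choose else none

theorem ext_un {J : Type u} {f : J → Pt K} (hf : ∀ i j, Cpt (f i) (f j)) (j : J) : Ext (un f) (f j) := by
  intro x y z hz
  have h : ∃ z, ∃ j, f j x y = some z := ⟨z, j, hz⟩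
  unfold un
  rw [dif_pos h]
  obtain ⟨j', hj'⟩ := h.choose_spec
  exact congrArg some (hf j' j x y _ _ hj' hz)

/-- every value of the union is a value of a member -/
theorem un_eq_some {J : Type u} {f : J → Pt K} {x y z : K} (h : un f x y = some z) :
    ∃ j, f j x y = some z := by
  unfold un at h
  by_cases h1 : ∃ z, ∃ j, f j x y = some z
  · rw [dif_pos h1] at h
    obtain ⟨j, hj⟩ := h1.choose_spec
    exact ⟨j, hj.trans h⟩
  · rw [dif_neg h1] at h
    exact absurd h (by simp)

theorem Coord_un_ne {J : Type u} {f : J → Pt K} {x y : K} (h : un f x y ≠ none) :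
    ∃ j, f j x y ≠ none := by
  obtain ⟨z, hz⟩ := Option.ne_none_iff_exists'.1 h
  obtain ⟨j, hj⟩ := un_eq_some hz
  exact ⟨j, by rw [hj]; simp⟩

theorem Coord_un_emp {J : Type u} {f : J → Pt K} (h : ∀ j, f j = emp) : un f = emp := by
  funext x y
  by_contra h1
  obtain ⟨j, hj⟩ := Coord_un_ne (f := f) (x := x) (y := y) (fun h2 => h1 (h2.trans rfl))
  rw [h j] at hj
  exact hj rfl

theorem ok_un {J : Type u} {i : K} {f : J → Pt K} (hf : ∀ j, Ok S i (f j)) (hJ : #J ≤ ci (S.nu i)) :
    Ok S i (un f) := by
  refine ⟨fun x y z hz => ?_, ?_⟩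
  · obtain ⟨j, hj⟩ := un_eq_some hz
    exact (hf j).dom x y z hj
  · have hsub : {a : K × K | un f a.1 a.2 ≠ none} ⊆ ⋃ j, {a : K × K | f j a.1 a.2 ≠ none} := by
      intro a ha
      obtain ⟨j, hj⟩ := Coord_un_ne ha
      exact Set.mem_iUnion.2 ⟨j, hj⟩
    calc #{a : K × K // un f a.1 a.2 ≠ none}
        ≤ #(⋃ j, {a : K × K | f j a.1 a.2 ≠ none} : Set (K × K)) := mk_le_mk_of_subset hsub
      _ ≤ Cardinal.sum (fun j => #{a : K × K | f j a.1 a.2 ≠ none}) := mk_iUnion_le_sum_mk
      _ ≤ Cardinal.sum (fun _ : J => ci (S.nu i)) := Cardinal.sum_le_sum _ _ fun j => (hf j).small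
      _ = #J * ci (S.nu i) := Cardinal.sum_const' _ _
      _ ≤ ci (S.nu i) * ci (S.nu i) := mul_le_mul_left hJ _
      _ = ci (S.nu i) := Cardinal.mul_eq_self (aleph0_le_nu S i)

theorem ok_emp (S : SetB K) (i : K) : Ok S i (emp : Pt K) := by
  refine ⟨fun x y z hz => ?_, ?_⟩
  · exact absurd hz (by simp [emp])
  · have : IsEmpty {a : K × K // (emp : Pt K) a.1 a.2 ≠ none} := ⟨fun a => a.2 rfl⟩
    rw [Cardinal.mk_eq_zero]
    exact zero_le

/-- The union of two partial functions. -/
def jn (f g : Pt K) : Pt K := fun x y => (f x y).orElse fun _ => g x y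

theorem jn_left (f g : Pt K) : Ext (jn f g) f := by
  intro x y z hz
  simp [jn, hz]

theorem jn_right {f g : Pt K} (h : Cpt f g) : Ext (jn f g) g := by
  intro x y z hz
  rcases hf : f x y with _ | w
  · simp [jn, hf, hz]
  · have h1 := h x y w z hf hz
    subst h1
    simp [jn, hf]

theorem jn_eq_some {f g : Pt K} {x y z : K} (h : jn f g x y = some z) :
    f x y = some z ∨ g x y = some z := by
  rcases hf : f x y with _ | w
  · right
    simpa [jn, hf] using h
  · left
    simpa [jn, hf] using h

theorem ok_jn {i : K} {f g : Pt K} (hf : Ok S i f) (hg : Ok S i g) : Ok S i (jn f g) := by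
  refine ⟨fun x y z hz => ?_, ?_⟩
  · rcases jn_eq_some hz with h | h
    · exact hf.dom x y z h
    · exact hg.dom x y z h
  · have hsub : {a : K × K | jn f g a.1 a.2 ≠ none} ⊆
        {a : K × K | f a.1 a.2 ≠ none} ∪ {a : K × K | g a.1 a.2 ≠ none} := by
      intro a ha
      obtain ⟨z, hz⟩ := Option.ne_none_iff_exists'.1 (show jn f g a.1 a.2 ≠ none from ha)
      rcases jn_eq_some hz with h | h
      · left
        show f a.1 a.2 ≠ none
        rw [h]; simp
      · right
        show g a.1 a.2 ≠ none
        rw [h]; simp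
    calc #{a : K × K // jn f g a.1 a.2 ≠ none}
        ≤ #({a : K × K | f a.1 a.2 ≠ none} ∪ {a : K × K | g a.1 a.2 ≠ none} : Set (K × K)) :=
          mk_le_mk_of_subset hsub
      _ ≤ #{a : K × K | f a.1 a.2 ≠ none} + #{a : K × K | g a.1 a.2 ≠ none} := mk_union_le _ _
      _ ≤ ci (S.nu i) + ci (S.nu i) := add_le_add hf.small hg.small
      _ = ci (S.nu i) := Cardinal.add_eq_self (aleph0_le_nu S i)

theorem cpt_of_ext {e f g : Pt K} (h1 : Ext e f) (h2 : Ext e g) : Cpt f g := by
  intro x y z z' hz hz'
  have h3 := (h1 x y z hz).symm.trans (h2 x y z' hz')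
  exact Option.some.inj h3

/-- Replace the coordinate `i` by `f`. -/
noncomputable def upd (p : Cnd S) (i : K) (f : Pt K) (hf : Ok S i f) : Cnd S where
  p j := if j = i then f else p.p j
  ok j := by
    split_ifs with h
    · rw [h]; exact hf
    · exact p.ok j
  bdd := by
    obtain ⟨b, hb⟩ := p.bdd
    refine ⟨max b (S.nx i), fun j hj => ?_⟩
    have h1 : j ≠ i := (lt_of_lt_of_le (lt_nx S i) ((le_max_right _ _).trans hj)).ne'
    rw [if_neg h1]
    exact hb j ((le_max_left _ _).trans hj)

/-- The closure of the tails. -/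
theorem closedP (i : K) (J : Type u) [LinearOrder J] [WellFoundedLT J] (hJ : #J ≤ ci (S.nu i))
    (s : J → Cnd S) (hs : ∀ i' j, i' ≤ j → LeI i (s j) (s i')) (hne : Nonempty J) :
    ∃ c, ∀ j, LeI i c (s j) := by
  obtain ⟨j0⟩ := hne
  -- the small parts are the same
  have hsame : ∀ a : J, ∀ j < i, (s a).p j = (s j0).p j := by
    intro a j hj
    rcases le_total a j0 with h | h
    · exact ((hs a j0 h).2 j hj).symm
    · exact (hs j0 a h).2 j hj
  have hcpt : ∀ j : K, ∀ a a' : J, Cpt ((s a).p j) ((s a').p j) := by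
    intro j a a'
    rcases le_total a a' with h | h
    · exact cpt_of_ext ((hs a a' h).1 j) (Ext.refl _)
    · exact cpt_of_ext (Ext.refl _) ((hs a' a h).1 j)
  choose b hb using fun a => (s a).bdd
  obtain ⟨B, hB⟩ := regK S b (lt_of_le_of_lt hJ (S.card_lt _))
  refine ⟨⟨fun j => if j < i then (s j0).p j else un (fun a => (s a).p j), ?_, ?_⟩, ?_⟩
  · intro j
    by_cases hj : j < i
    · simp only [hj, if_true]
      exact (s j0).ok j
    · simp only [hj, if_false]
      exact ok_un (fun a => (s a).ok j) (hJ.trans (nu_card_mono S (not_lt.1 hj)))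
  · refine ⟨B, fun j hj => ?_⟩
    by_cases hji : j < i
    · simp only [hji, if_true]
      exact hb j0 j ((hB j0).le.trans hj)
    · simp only [hji, if_false]
      exact Coord_un_emp fun a => hb a j ((hB a).le.trans hj)
  · intro a
    refine ⟨fun j => ?_, fun j hj => ?_⟩
    · by_cases hj : j < i
      · simp only [hj, if_true]
        rw [hsame a j hj]
        exact Ext.refl _
      · simp only [hj, if_false]
        exact ext_un (hcpt j) a
    · simp only [hj, if_true]
      exact (hsame a j hj).symm

/-- The tails are distributive. -/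
theorem distP (i : K) {J : Type u} (hJ : #J ≤ ci (S.nu i)) (E : J → Set (Cnd S))
    (ho : ∀ j, W61.Opn (LeI i) (E j)) (c : Cnd S) (hd : ∀ j, W61.Dns (LeI i) c (E j)) :
    ∃ q, LeI i q c ∧ ∀ j, q ∈ E j :=
  W61.dist_closed (fun J _ _ h s h1 h2 => closedP i J h s h1 h2) hJ E ho c hd

end F61B
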