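import Pool.Agent.W_MP_f61043B_lc.Basic
import Pool.Agent.W_61ad90_h15.Card

/-!
# MP_f61043_lc, part B : the number of the small parts

`mk_ok`: a partial function with `Ok S i` is determined by its graph, a subset of size at most `ci (nu i)` of a set of size at most
`ci (th (nx i))` (an inaccessible cardinal `λ`); there are at most `λ ^ ci (nu i) ≤ λ` such subsets (`λ` is regular and a strong limit:
every subset of size `< λ` is bounded; or `Cardinal.IsInaccessible` facts, see `W61.mk_CC` in `W_61ad90_h15/Card.lean`).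
`mk_sp_le_nu`: by the way of `∏_{j<i} λ_j ≤ θ_i ^ ci i ≤ θ_i ^ θ_i = ci (nu i)` (`la_le_th`, `ci_le_th`, `S.gch`).
`mk_sp_nx` (`i = nx j`): `(∏_{l<j} λ_l) * λ_j ≤ ci (nu j) * λ_j = λ_j = ci (th (nx j))`.
`mk_sp_least`: the set has one element.
`mk_rsp_nx` (`i = nx j`): the coordinates `l ≤ j` are functions from `Iio (th (nx l))` to a set of size `≤ λ_l`: at most
`λ_l ^ λ_l ≤ 2 ^ λ_j`, and the product over `l < nx j` is at most `(2 ^ λ_j) ^ (ci (nx j)) = 2 ^ λ_j = ci (nu (nx j))` (`ci_le_th`).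
-/

universe u

open Cardinal Set Filter

namespace F61B

open Pool.Agent.W_MP_315f31_lc

variable {K : Type u} [LinearOrder K] [WellFoundedLT K]

theorem inac_pow {l μ : Cardinal.{u}} (hl : l.IsInaccessible) (hμ : μ < l) : l ^ μ ≤ l := by
  have h1 : max μ ℵ₀ < l := max_lt hμ hl.aleph0_lt
  calc l ^ μ ≤ l ^ max μ ℵ₀ :=
        power_le_power_left (aleph0_pos.trans hl.aleph0_lt).ne' (le_max_left _ _)
    _ = l := W61.pow_of_inacc hl h1 (le_max_right _ _)

theorem mk_ok (S : SetB K) (i : K) : #{f : Pt K // Ok S i f} ≤ ci (S.th (S.nx i)) := by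
  let T : Type u := Iio (S.th (S.nx i))
  have hT0 : ℵ₀ ≤ #T := aleph0_le_th S (S.nx i)
  let gr : Pt K → Set (T × T × T) := fun f => {a | f a.1.1 a.2.1.1 = some a.2.2.1}
  have hcard : ∀ f : {f : Pt K // Ok S i f}, #(gr f.1) ≤ ci (S.nu i) := by
    intro f
    refine le_trans ?_ f.2.small
    refine ⟨⟨fun p => ⟨(p.1.1.1, p.1.2.1.1), ?_⟩, ?_⟩⟩
    · have h := p.2
      show f.1 p.1.1.1 p.1.2.1.1 ≠ none
      have h' : f.1 p.1.1.1 p.1.2.1.1 = some p.1.2.2.1 := h
      rw [h']
      exact Option.some_ne_none _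
    · rintro ⟨⟨a, b, c⟩, h⟩ ⟨⟨a', b', c'⟩, h'⟩ he
      have h1 : f.1 a.1 b.1 = some c.1 := h
      have h2 : f.1 a'.1 b'.1 = some c'.1 := h'
      simp only [Subtype.mk.injEq, Prod.mk.injEq] at he
      obtain ⟨e1, e2⟩ := he
      have e1' : a = a' := Subtype.ext e1
      have e2' : b = b' := Subtype.ext e2
      subst e1'
      subst e2'
      rw [h1] at h2
      have e3 : c = c' := Subtype.ext (Option.some.inj h2)
      subst e3
      rfl
  have h1 : #{f : Pt K // Ok S i f} ≤ #{t : Set (T × T × T) // #t ≤ ci (S.nu i)} := by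
    refine ⟨⟨fun f => ⟨gr f.1, hcard f⟩, ?_⟩⟩
    intro f g hfg
    have hs : gr f.1 = gr g.1 := congrArg Subtype.val hfg
    have hr := rho_lt_la' S i
    have key : ∀ f g : {f : Pt K // Ok S i f}, gr f.1 = gr g.1 → ∀ x y z, f.1 x y = some z →
        g.1 x y = some z := by
      intro f g hs x y z h
      obtain ⟨hx, hy, hz⟩ := f.2.dom x y z h
      have h2 : ((⟨x, hx⟩, ⟨y, hy.trans hr⟩, ⟨z, hz.trans hx⟩) : T × T × T) ∈ gr f.1 := h
      rw [hs] at h2
      exact h2
    apply Subtype.ext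
    funext x y
    apply Option.ext
    intro z
    exact ⟨fun h => key f g hs x y z h, fun h => key g f hs.symm x y z h⟩
  refine h1.trans ((Cardinal.mk_bounded_set_le (T × T × T) (ci (S.nu i))).trans ?_)
  have h2 : max #(T × T × T) ℵ₀ ≤ #T := by
    refine max_le ?_ hT0
    simp only [mk_prod, lift_id]
    rw [mul_eq_self hT0, mul_eq_self hT0]
  exact (power_le_power_right h2).trans (inac_pow (S.la_inac i) (nu_lt_la S i))

/-- the small parts are determined by the coordinates -/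
theorem mk_sp_le_prod (S : SetB K) (i : K) :
    #(range (sp (S := S) i)) ≤ #((j : Iio i) → {f : Pt K // Ok S j.1 f}) := by
  classical
  let H : ((j : Iio i) → {f : Pt K // Ok S j.1 f}) → (K → Pt K) := fun F j =>
    if h : j < i then (F ⟨j, h⟩).1 else emp
  have h1 : range (sp (S := S) i) ⊆ range H := by
    rintro _ ⟨p, rfl⟩
    refine ⟨fun j => ⟨p.p j.1, p.ok j.1⟩, ?_⟩
    funext j
    unfold sp
    by_cases h : j < i
    · show (if h : j < i then p.p j else emp) = _
      rw [dif_pos h, if_pos h]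
    · show (if h : j < i then p.p j else emp) = _
      rw [dif_neg h, if_neg h]
  exact (mk_le_mk_of_subset h1).trans mk_range_le

theorem mk_sp_le_nu (S : SetB K) (i : K) : #(range (sp (S := S) i)) ≤ ci (S.nu i) := by
  have h0 := aleph0_le_th S i
  calc #(range (sp (S := S) i)) ≤ #((j : Iio i) → {f : Pt K // Ok S j.1 f}) := mk_sp_le_prod S i
    _ = Cardinal.prod fun j : Iio i => #{f : Pt K // Ok S j.1 f} := mk_pi _
    _ ≤ Cardinal.prod fun _ : Iio i => ci (S.th i) :=
        prod_le_prod _ _ fun j => (mk_ok S j.1).trans (la_le_th S j.2)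
    _ = ci (S.th i) ^ ci i := prod_const' _ _
    _ ≤ ci (S.th i) ^ ci (S.th i) :=
        power_le_power_left (aleph0_pos.trans_le h0).ne' (ci_le_th S i)
    _ = ci (S.nu i) := by rw [power_self_eq h0, S.gch _ h0, S.nu_card]

theorem mk_sp_nx (S : SetB K) (j : K) : #(range (sp (S := S) (S.nx j))) ≤ ci (S.th (S.nx j)) := by
  classical
  have h0 := aleph0_le_th S (S.nx j)
  let H : (range (sp (S := S) j)) × {f : Pt K // Ok S j f} → (K → Pt K) := fun F l =>
    if l < j then F.1.1 l else if l = j then F.2.1 else emp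
  have h1 : range (sp (S := S) (S.nx j)) ⊆ range H := by
    rintro _ ⟨p, rfl⟩
    refine ⟨(⟨sp j p, ⟨p, rfl⟩⟩, ⟨p.p j, p.ok j⟩), ?_⟩
    funext l
    show (if l < j then sp j p l else if l = j then p.p j else emp) = sp (S.nx j) p l
    unfold sp
    by_cases h : l < j
    · have h' : l < S.nx j := (S.nx_iff j l).2 h.le
      rw [if_pos h, if_pos h, if_pos h']
    · by_cases h2 : l = j
      · subst h2
        rw [if_neg h, if_pos rfl, if_pos (lt_nx S l)]
      · have h' : ¬ l < S.nx j := by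
          rw [S.nx_iff]
          intro h3
          rcases h3.lt_or_eq with h4 | h4
          · exact h h4
          · exact h2 h4
        rw [if_neg h, if_neg h2, if_neg h']
  calc #(range (sp (S := S) (S.nx j))) ≤ #(range H) := mk_le_mk_of_subset h1
    _ ≤ #((range (sp (S := S) j)) × {f : Pt K // Ok S j f}) := mk_range_le
    _ = #(range (sp (S := S) j)) * #{f : Pt K // Ok S j f} := by
        rw [mk_prod, lift_id, lift_id]
    _ ≤ ci (S.th (S.nx j)) * ci (S.th (S.nx j)) :=
        mul_le_mul' ((mk_sp_le_nu S j).trans (nu_lt_la S j).le) (mk_ok S j)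
    _ = ci (S.th (S.nx j)) := mul_eq_self h0

theorem mk_sp_least (S : SetB K) {i : K} (hi : ∀ j, i ≤ j) : #(range (sp (S := S) i)) ≤ 1 := by
  have h1 : (range (sp (S := S) i)).Subsingleton := by
    rintro _ ⟨p, rfl⟩ _ ⟨q, rfl⟩
    funext s
    unfold sp
    rw [if_neg (not_lt.2 (hi s)), if_neg (not_lt.2 (hi s))]
  exact mk_le_one_iff_set_subsingleton.2 h1

theorem mk_rsp_nx (S : SetB K) (j : K) : #(range (rsp (S := S) (S.nx j))) ≤ ci (S.nu (S.nx j)) := by
  classical
  have h0 := aleph0_le_th S (S.nx j)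
  let H : ((l : Iio (S.nx j)) → (Iio (S.th (S.nx l.1)) → {f : Pt K // Ok S l.1 f})) →
      (K → K → Pt K) := fun F l α =>
    if h : l < S.nx j then
      if h' : α < S.th (S.nx l) then (F ⟨l, h⟩ ⟨α, h'⟩).1 else emp
    else emp
  have h1 : range (rsp (S := S) (S.nx j)) ⊆ range H := by
    rintro _ ⟨r, rfl⟩
    refine ⟨fun l α => ⟨r.r l.1 α.1, r.ok l.1 α.1⟩, ?_⟩
    funext l α
    show (if h : l < S.nx j then
      if h' : α < S.th (S.nx l) then r.r l α else emp
      else emp) = rsp (S.nx j) r l α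
    unfold rsp
    by_cases h : l < S.nx j
    · rw [dif_pos h, if_pos h]
      by_cases h' : α < S.th (S.nx l)
      · rw [dif_pos h']
      · rw [dif_neg h', r.junk l α (not_lt.1 h')]
    · rw [dif_neg h, if_neg h]
  have h2 : ∀ l : Iio (S.nx j), #(Iio (S.th (S.nx l.1)) → {f : Pt K // Ok S l.1 f}) ≤
      2 ^ ci (S.th (S.nx j)) := by
    intro l
    have hl := aleph0_le_th S (S.nx l.1)
    have hlj : ci (S.th (S.nx l.1)) ≤ ci (S.th (S.nx j)) :=
      th_card_mono S (nx_mono S ((S.nx_iff j l.1).1 l.2))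
    calc #(Iio (S.th (S.nx l.1)) → {f : Pt K // Ok S l.1 f})
        = #{f : Pt K // Ok S l.1 f} ^ ci (S.th (S.nx l.1)) := by rw [← Cardinal.power_def]
      _ ≤ ci (S.th (S.nx l.1)) ^ ci (S.th (S.nx l.1)) := power_le_power_right (mk_ok S l.1)
      _ = 2 ^ ci (S.th (S.nx l.1)) := power_self_eq hl
      _ ≤ 2 ^ ci (S.th (S.nx j)) := power_le_power_left two_ne_zero hlj
  calc #(range (rsp (S := S) (S.nx j))) ≤ #(range H) := mk_le_mk_of_subset h1
    _ ≤ #((l : Iio (S.nx j)) → (Iio (S.th (S.nx l.1)) → {f : Pt K // Ok S l.1 f})) := mk_range_le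
    _ = Cardinal.prod fun l : Iio (S.nx j) =>
        #(Iio (S.th (S.nx l.1)) → {f : Pt K // Ok S l.1 f}) := mk_pi _
    _ ≤ Cardinal.prod fun _ : Iio (S.nx j) => 2 ^ ci (S.th (S.nx j)) := prod_le_prod _ _ h2
    _ = (2 ^ ci (S.th (S.nx j))) ^ ci (S.nx j) := prod_const' _ _
    _ = 2 ^ (ci (S.th (S.nx j)) * ci (S.nx j)) := by rw [← power_mul]
    _ ≤ 2 ^ ci (S.th (S.nx j)) := by
        refine power_le_power_left two_ne_zero ?_
        exact (mul_le_mul' le_rfl (ci_le_th S (S.nx j))).trans (mul_eq_self h0).le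
    _ = ci (S.nu (S.nx j)) := by rw [S.gch _ h0, S.nu_card]

end F61B
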