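import Pool.Agent.W_MP_f61043B_lc.Stem
import Pool.Agent.W_MP_f61043B_lc.CountB

/-!
# MP_f61043_lc, part B : the density lemma

`Dcd b m`: `m` decides `b`.  `dense_dcd`, `Dcd.mono`: clear.

`dl1`.  For `α < th (nx i)` let `A α` be the set of the `w : RC S` such that for some `f`, `hf : Ok S i f`, `Ext f (r.r i α)`:
`∀ a : Cnd S, ∃ a', LeS i a' a ∧ Dcd (b α) (repl i a' (upd (st w) i f hf))`.
Open for `RLeI (nx i)`.  Dense for `RLeI (nx i)`: let `w` be given, `w0` is `w` with the coordinate `i` replaced by the function with the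
constant value `r.r i α` on `Iio (th (nx i))`; `(st w0).p i = r.r i α` (`stf_const`).  For `a : Cnd S` the set
`B a = {v | ∃ a', LeS i a' a ∧ Dcd (b α) (repl i a' (st v))}` is open for `RLeI i` and depends only on `sp i a`, and it is dense:
`repl i a (st v)` has an extension `m` which decides `b α`; take `v'` by `exists_ext_tail`, `a' = m`.  By `distR i` for the index set
`range (sp i)` (`mk_sp_le_nu`) there is `v ≤_i w0` in all `B a`.  `f = (st v).p i` extends `(st w0).p i = r.r i α`.  Let
`w' = rrepl (nx i) w v` (`≤_(nx i) w` since `w0` and `w` have the same coordinates `> i`); `st w' = repl (nx i) (st w) (st v)`, so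
`repl i a' (upd (st w') i f _) = repl i a' (st v)`.
By `distR (nx i)` for the index set `Iio (th (nx i))` (`la_le_nu`) there is `w∞ ≤_(nx i) r` in all `A α`; choose `f α`.
`r1` has the coordinates of `w∞` above `i`, `r` below `i`, and `f α` at `i` (`emp` for `th (nx i) ≤ α`).
-/

universe u

open Cardinal Set Filter

namespace F61B

open Pool.Agent.W_MP_315f31_lc

variable {K : Type u} [LinearOrder K] [WellFoundedLT K] {S : SetB K}

/-- `m` decides `b`. -/
def Dcd (b : DB S) (m : Cnd S) : Prop := Frc b m ∨ Frc bᶜ m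

theorem Frc.mono {b : DB S} {m m' : Cnd S} (h : Frc b m) (hm : Le m' m) : Frc b m' :=
  IM.RO.mem_lower h hm

theorem Dcd.mono {b : DB S} {m m' : Cnd S} (h : Dcd b m) (hm : Le m' m) : Dcd b m' :=
  h.imp (fun h => h.mono hm) fun h => h.mono hm

theorem dense_dcd (b : DB S) (m : Cnd S) : ∃ m', Le m' m ∧ Dcd b m' := by
  by_cases h : ∃ m', Le m' m ∧ Frc b m'
  · obtain ⟨m', h1, h2⟩ := h
    exact ⟨m', h1, Or.inl h2⟩
  · push Not at h
    refine ⟨m, IsPre.refl m, Or.inr ?_⟩
    exact (IM.RO.mem_compl _ _).2 fun t ht => h t ht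

theorem frc_sg_of_dcd {b : DB S} {m : Cnd S} (h : Dcd b m) : ∃ c, Frc (sg b c) m := by
  rcases h with h | h
  · exact ⟨true, h⟩
  · exact ⟨false, h⟩

/-- one step of `dl1` -/
theorem dl1_step (i : K) (b : DB S) (g : Pt K) (hg : Ok S i g) (w : RC S) :
    ∃ (w' : RC S) (f : Pt K) (hf : Ok S i f), RLeI (S.nx i) w' w ∧ Ext f g ∧
      ∀ a : Cnd S, ∃ a', LeS i a' a ∧ Dcd b (repl i a' (upd (st w') i f hf)) := by
  classical
  obtain ⟨w0, hw0⟩ : ∃ w0 : RC S, w0.r = fun j β => if j = i then
      (if β < S.th (S.nx i) then g else emp) else w.r j β := by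
    refine ⟨⟨fun j β => if j = i then (if β < S.th (S.nx i) then g else emp) else w.r j β,
      fun j β => ?_, fun j β h => ?_, ?_⟩, rfl⟩
    · split_ifs with h1 h2
      · rw [h1]; exact hg
      · exact ok_emp S j
      · exact w.ok j β
    · split_ifs with h1 h2
      · rw [h1] at h
        exact absurd h2 (not_lt.2 h)
      · rfl
      · exact w.junk j β h
    · obtain ⟨c, hc⟩ := w.bdd
      refine ⟨max c (S.nx i), fun j hj β => ?_⟩
      have h1 : j ≠ i := fun h => absurd (((le_max_right _ _).trans hj).trans_eq h)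
        (not_le.2 (lt_nx S i))
      simp only [if_neg h1]
      exact hc j ((le_max_left _ _).trans hj) β
  have hw0i : (st w0).p i = g := by
    refine stf_const ?_
    filter_upwards [ev_lt S i] with β hβ
    rw [hw0]
    simp only [if_true, if_pos hβ]
  have hw0ne : ∀ j, j ≠ i → w0.r j = w.r j := by
    intro j hj
    rw [hw0]
    funext β
    simp only [if_neg hj]
  -- the dense sets
  have hrep : ∀ t : range (sp (S := S) i), ∃ a : Cnd S, sp i a = t.1 := fun t => t.2
  choose ra hra using hrep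
  obtain ⟨v, hv, hvE⟩ := distR (S := S) i (mk_sp_le_nu S i)
    (fun t : range (sp (S := S) i) => {v : RC S | ∃ a', LeS i a' (ra t) ∧ Dcd b (repl i a' (st v))})
    (by
      rintro t v v' ⟨a', h1, h2⟩ hv'
      exact ⟨a', h1, h2.mono (repl_mono (fun j _ => st_mono hv'.1 j) fun j _ => Ext.refl _)⟩) w0
    (by
      intro t v _
      obtain ⟨m, hm, hmd⟩ := dense_dcd b (repl i (ra t) (st v))
      obtain ⟨v', hv', hvm⟩ := exists_ext_tail hm
      refine ⟨v', hv', ⟨m, fun j hj => ?_, hmd.mono (repl_le hvm fun j _ => Ext.refl _)⟩⟩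
      have h1 := hm j
      rw [repl_lt hj] at h1
      exact h1)
  refine ⟨rrepl (S.nx i) w v, (st v).p i, (st v).ok i, ⟨fun j => ?_, fun j hj => rrepl_lt hj _ _⟩, ?_,
    fun a => ?_⟩
  · rcases lt_or_ge j (S.nx i) with hj | hj
    · rw [rrepl_lt hj]
      exact Filter.Eventually.of_forall fun _ => Ext.refl _
    · rw [rrepl_ge hj]
      have h1 : j ≠ i := ((nx_le_iff S).1 hj).ne'
      have h2 := hv.1 j
      rw [hw0ne j h1] at h2
      exact h2
  · have h1 := st_mono hv.1 i
    rw [hw0i] at h1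
    exact h1
  · obtain ⟨a', h1, h2⟩ := hvE ⟨sp i a, a, rfl⟩
    refine ⟨a', (leS_congr rfl (hra ⟨sp i a, a, rfl⟩)).1 h1, ?_⟩
    have h3 : repl i a' (upd (st (rrepl (S.nx i) w v)) i ((st v).p i) ((st v).ok i)) =
        repl i a' (st v) := by
      ext1
      funext j
      rcases lt_or_ge j i with hj | hj
      · rw [repl_lt hj, repl_lt hj]
      · rw [repl_ge hj, repl_ge hj]
        by_cases hji : j = i
        · rw [hji]
          simp only [upd, if_true]
        · simp only [upd, if_neg hji]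
          rw [st_rrepl, repl_ge ((nx_le_iff S).2 (lt_of_le_of_ne hj (Ne.symm hji)))]
    rw [h3]
    exact h2

theorem dl1 (i : K) (b : K → DB S) (r : RC S) : ∃ r1, RLeI i r1 r ∧
    ∀ α < S.th (S.nx i), ∀ a : Cnd S, ∃ a', LeS i a' a ∧ Dcd (b α) (repl i a' (pt r1 i α)) := by
  classical
  have hle : ∀ {w' w : RC S} (f : Pt K) (hf : Ok S i f) (a' : Cnd S), RLe w' w →
      Le (repl i a' (upd (st w') i f hf)) (repl i a' (upd (st w) i f hf)) := by
    intro w' w f hf a' h j
    rcases lt_or_ge j i with hj | hj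
    · rw [repl_lt hj, repl_lt hj]
      exact Ext.refl _
    · rw [repl_ge hj, repl_ge hj]
      by_cases hji : j = i
      · simp only [upd, if_pos hji]
        exact Ext.refl _
      · simp only [upd, if_neg hji]
        exact st_mono h j
  obtain ⟨w, hw, hwE⟩ := distR (S := S) (S.nx i) (J := Iio (S.th (S.nx i))) (la_le_nu S i)
    (fun α => {w : RC S | ∃ (f : Pt K) (hf : Ok S i f), Ext f (r.r i α.1) ∧
      ∀ a : Cnd S, ∃ a', LeS i a' a ∧ Dcd (b α.1) (repl i a' (upd (st w) i f hf))})
    (by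
      rintro α w w' ⟨f, hf, h1, h2⟩ hw'
      refine ⟨f, hf, h1, fun a => ?_⟩
      obtain ⟨a', h3, h4⟩ := h2 a
      exact ⟨a', h3, h4.mono (hle f hf a' hw'.1)⟩) r
    (by
      intro α w _
      obtain ⟨w', f, hf, h1, h2, h3⟩ := dl1_step i (b α.1) (r.r i α.1) (r.ok i α.1) w
      exact ⟨w', h1, ⟨f, hf, h2, h3⟩⟩)
  choose F hF hFe hFd using hwE
  obtain ⟨r1, hr1⟩ : ∃ r1 : RC S, r1.r = fun j β => if j = i then
      (if h : β < S.th (S.nx i) then F ⟨β, h⟩ else emp) else w.r j β := by
    refine ⟨⟨fun j β => if j = i then (if h : β < S.th (S.nx i) then F ⟨β, h⟩ else emp) else w.r j β,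
      fun j β => ?_, fun j β h => ?_, ?_⟩, rfl⟩
    · split_ifs with h1 h2
      · rw [h1]; exact hF _
      · exact ok_emp S j
      · exact w.ok j β
    · split_ifs with h1 h2
      · rw [h1] at h
        exact absurd h2 (not_lt.2 h)
      · rfl
      · exact w.junk j β h
    · obtain ⟨c, hc⟩ := w.bdd
      refine ⟨max c (S.nx i), fun j hj β => ?_⟩
      have h1 : j ≠ i := fun h => absurd (((le_max_right _ _).trans hj).trans_eq h)
        (not_le.2 (lt_nx S i))
      simp only [if_neg h1]
      exact hc j ((le_max_left _ _).trans hj) β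
  have hr1ne : ∀ j, j ≠ i → r1.r j = w.r j := by
    intro j hj
    rw [hr1]
    funext β
    simp only [if_neg hj]
  have hr1i : ∀ β (h : β < S.th (S.nx i)), r1.r i β = F ⟨β, h⟩ := by
    intro β h
    rw [hr1]
    simp only [if_true, dif_pos h]
  refine ⟨r1, ⟨fun j => ?_, fun j hj => ?_⟩, fun α hα a => ?_⟩
  · by_cases hji : j = i
    · rw [hji]
      filter_upwards [ev_lt S i] with β hβ
      rw [hr1i β hβ]
      exact hFe ⟨β, hβ⟩
    · rw [hr1ne j hji]
      exact hw.1 j
  · rw [hr1ne j hj.ne]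
    exact hw.2 j (hj.trans (lt_nx S i))
  · obtain ⟨a', h1, h2⟩ := hFd ⟨α, hα⟩ a
    refine ⟨a', h1, ?_⟩
    have h3 : repl i a' (pt r1 i α) = repl i a' (upd (st w) i (F ⟨α, hα⟩) (hF _)) := by
      ext1
      funext j
      rcases lt_or_ge j i with hj | hj
      · rw [repl_lt hj, repl_lt hj]
      · rw [repl_ge hj, repl_ge hj]
        by_cases hji : j = i
        · rw [hji, pt_same, hr1i α hα]
          simp only [upd, if_true]
        · rw [pt_ne r1 hji]
          simp only [upd, if_neg hji, st]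
          rw [hr1ne j hji]
    rw [h3]
    exact h2

end F61B
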