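import Pool.Agent.W_MP_f61043B_lc.DLa

/-!
# MP_f61043_lc, part B : the density lemma, second part

`dl2`.  Fix `a`, choose for every `α < th (nx i)` an `a' α` and the truth value `c α` (`true` iff `Frc (b α) ..`, otherwise
`Frc (b α)ᶜ`); by `ev_const` for `α ↦ (sp i (a' α), c α)` in `range (sp i) × Bool` (fewer than `ci (th (nx i))` elements) it is constant on a
large set.

`dl3`.  For `a : Cnd S` let `Q a` be the set of the `v` such that
`∃ a' c, LeS i0 a' a ∧ ∀ᶠ α, Frc (sg (b α) c) (repl i0 a' (pt v i α))`: open for `RLeI i0` (`ev_pt_mono`); dense below `r1`: let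
`v ≤_i0 r1`; apply `dl2` to `ã = repl i0 a (st v)` and get `a''`, `c`.  `q = repl i0 (st v) (repl i a'' (st v))` is `≤ st v`; take `v'` by
`exists_ext`; then `v' ≤_i0 v` and the coordinates `≥ i` of `v'` are those of `v`, and for almost all `α`
`repl i0 a'' (pt v' i α) ≤ repl i a'' (pt r1 i α)`.  `distR i0`, index set `range (sp i0)`.
-/

universe u

open Cardinal Set Filter

namespace F61B

open Pool.Agent.W_MP_315f31_lc

variable {K : Type u} [LinearOrder K] [WellFoundedLT K] {S : SetB K}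

theorem dl2 (i : K) (b : K → DB S) (r1 : RC S) (h : ∀ α < S.th (S.nx i), ∀ a : Cnd S,
      ∃ a', LeS i a' a ∧ Dcd (b α) (repl i a' (pt r1 i α))) (a : Cnd S) :
    ∃ a' c, LeS i a' a ∧ ∀ᶠ α in (S.U i : Filter K), Frc (sg (b α) c) (repl i a' (pt r1 i α)) := by
  have hex : ∀ α : K, ∃ (a' : Cnd S) (c : Bool), α < S.th (S.nx i) →
      LeS i a' a ∧ Frc (sg (b α) c) (repl i a' (pt r1 i α)) := by
    intro α
    by_cases hα : α < S.th (S.nx i)
    · obtain ⟨a', h1, h2⟩ := h α hα a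
      obtain ⟨c, hc⟩ := frc_sg_of_dcd h2
      exact ⟨a', c, fun _ => ⟨h1, hc⟩⟩
    · exact ⟨a, true, fun h' => absurd h' hα⟩
  choose A C hAC using hex
  have hcard : #(range (sp (S := S) i) × Bool) < ci (S.th (S.nx i)) := by
    refine lt_of_le_of_lt ?_ (nu_lt_la S i)
    rw [Cardinal.mk_prod, Cardinal.lift_id', Cardinal.mk_bool, Cardinal.lift_ofNat]
    refine (mul_le_mul' (mk_sp_le_nu S i) ((Cardinal.nat_lt_aleph0 2).le.trans
      (aleph0_le_nu S i))).trans ?_
    exact (Cardinal.mul_eq_self (aleph0_le_nu S i)).le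
  obtain ⟨⟨s, c0⟩, hs⟩ := ev_const S i hcard (fun α => (⟨sp i (A α), A α, rfl⟩, C α))
  obtain ⟨α0, h0, hα0⟩ := (hs.and (ev_lt S i)).exists
  refine ⟨A α0, C α0, (hAC α0 hα0).1, ?_⟩
  filter_upwards [hs, ev_lt S i] with α h1 hα
  rw [← h1] at h0
  have h2 : sp i (A α0) = sp i (A α) := congrArg (fun x => x.1.1) h0
  have h3 : C α0 = C α := congrArg (fun x => x.2) h0
  rw [repl_congr h2, h3]
  exact (hAC α hα).2

theorem dl3 {i0 i : K} (hi : i0 ≤ i) (b : K → DB S) (r : RC S) : ∃ r2, RLeI i0 r2 r ∧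
    ∀ a : Cnd S, ∃ a' c, LeS i0 a' a ∧
      ∀ᶠ α in (S.U i : Filter K), Frc (sg (b α) c) (repl i0 a' (pt r2 i α)) := by
  obtain ⟨r1, hr1, h1⟩ := dl1 i b r
  let Q : Cnd S → Set (RC S) := fun a => {v | ∃ a' c, LeS i0 a' a ∧
    ∀ᶠ α in (S.U i : Filter K), Frc (sg (b α) c) (repl i0 a' (pt v i α))}
  have hopen : ∀ a, W61.Opn (RLeI (S := S) i0) (Q a) := by
    rintro a v v' ⟨a', c, h2, h3⟩ hv
    refine ⟨a', c, h2, ?_⟩
    filter_upwards [h3, ev_pt_mono hv.1 i] with α h4 h5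
    refine h4.mono (repl_mono (fun j _ => h5 j) fun j _ => Ext.refl _)
  have hdense : ∀ a, W61.Dns (RLeI (S := S) i0) r1 (Q a) := by
    intro a v hv
    obtain ⟨a2, c, ha2, hc⟩ := dl2 i b r1 h1 (repl i0 a (st v))
    have hq : Le (repl i0 (st v) (repl i a2 (st v))) (st v) := by
      intro j
      by_cases hj : j < i0
      · rw [repl_lt hj]
        exact Ext.refl _
      · rw [repl_ge (not_lt.mp hj)]
        by_cases hj' : j < i
        · rw [repl_lt hj']
          have h2 := ha2 j hj'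
          rwa [repl_ge (not_lt.mp hj)] at h2
        · rw [repl_ge (not_lt.mp hj')]
          exact Ext.refl _
    obtain ⟨v', hv', hst, heq⟩ := exists_ext hq
    have hvi : RLeI i0 v' v := by
      refine ⟨hv', fun j hj => heq j ?_⟩
      rw [repl_lt hj]
    refine ⟨v', hvi, a2, c, ?_, ?_⟩
    · intro j hj
      have h2 := ha2 j (hj.trans_le hi)
      rwa [repl_lt hj] at h2
    · filter_upwards [hc, ev_pt_mono (IsPre.trans _ _ _ hv' hv.1 : RLe v' r1) i] with α h2 h3
      refine h2.mono fun j => ?_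
      by_cases hj : j < i
      · rw [repl_lt hj]
        by_cases hj' : j < i0
        · rw [repl_lt hj']
          exact Ext.refl _
        · rw [repl_ge (not_lt.mp hj'), pt_ne _ hj.ne]
          have h4 := hst j
          rwa [repl_ge (not_lt.mp hj'), repl_lt hj] at h4
      · rw [repl_ge (not_lt.mp hj), repl_ge (hi.trans (not_lt.mp hj))]
        exact h3 j
  choose rep hrep using fun x : range (sp (S := S) i0) => x.2
  obtain ⟨r2, hr2, h2⟩ := distR i0 (mk_sp_le_nu S i0) (fun x => Q (rep x)) (fun x => hopen _)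
    r1 (fun x => hdense _)
  refine ⟨r2, IsPre.trans _ _ _ hr2 (RLeI.mono hi hr1), fun a => ?_⟩
  obtain ⟨a', c, h3, h4⟩ := h2 ⟨sp i0 a, a, rfl⟩
  exact ⟨a', c, (leS_congr rfl (hrep ⟨sp i0 a, a, rfl⟩)).mp h3, h4⟩

end F61B
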