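import Pool.Agent.W_MP_f61043B_lc.Setup
import Pool.Agent.W_61ad90_h15.Card

/-!
# MP_f61043_lc, part B : measurable cardinals

`IsMeas λ`: there are a set `A` of cardinality `λ > ℵ₀` and a `λ`-complete nonprincipal ultrafilter on `A`.

`meas_inaccessible`: the classical proof.  Sets of size `< λ` are not in `U` (union of fewer than `λ` singletons).  Regular: a union of fewer
than `λ` sets not in `U` is not in `U`, but `A` would be such a union (use the type `λ.ord.ToType` and a bijection).  Strong limit: if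
`λ ≤ 2 ^ μ`, `μ < λ`, let `f : A → (M → Prop)` be injective, `#M = μ`; for every `m : M` the truth value of `f a m` is the same `c m` for
almost all `a`; by completeness `f a = c` for almost all `a`, but there is at most one such `a`.
-/

universe u

open Cardinal Set Filter

namespace F61B

open Pool.Agent.W_MP_315f31_lc

/-- `lam` is a measurable cardinal. -/
def IsMeas (lam : Cardinal.{u}) : Prop :=
  ℵ₀ < lam ∧ ∃ (A : Type u) (U : Ultrafilter A), #A = lam ∧ (∀ x, {x}ᶜ ∈ U) ∧
    ∀ T : Set (Set A), #T < lam → (∀ s ∈ T, s ∈ U) → ⋂₀ T ∈ U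

theorem meas_inaccessible {lam : Cardinal.{u}} (h : IsMeas lam) : lam.IsInaccessible := by
  classical
  obtain ⟨h0, A, U, hA, hnp, hcpl⟩ := h
  have hI : ∀ (J : Type u) (s : J → Set A), #J < lam → (∀ j, s j ∈ U) → (⋂ j, s j) ∈ U := by
    intro J s hJ hs
    rw [← sInter_range]
    refine hcpl _ (mk_range_le.trans_lt hJ) ?_
    rintro _ ⟨j, rfl⟩
    exact hs j
  have hsmall : ∀ B : Set A, #B < lam → Bᶜ ∈ U := by
    intro B hB
    have h1 := hI B (fun b => {b.1}ᶜ) hB fun b => hnp b.1
    refine U.mem_of_superset h1 ?_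
    intro a ha haB
    exact (mem_iInter.1 ha ⟨a, haB⟩) rfl
  have hempty : (∅ : Set A) ∉ U := U.empty_notMem
  refine ⟨h0, ?_, ?_⟩
  · -- regular
    rw [← Ordinal.cof_toType, Order.le_cof_iff]
    intro s hs
    by_contra hcon
    rw [not_le] at hcon
    have he : Nonempty (A ≃ W61.To lam) := Cardinal.eq.1 (hA.trans (W61.mk_To lam).symm)
    obtain ⟨e⟩ := he
    have h1 : ∀ b : s, (e ⁻¹' Iic b.1)ᶜ ∈ U := by
      intro b
      apply hsmall
      have h2 : #(e ⁻¹' Iic b.1 : Set A) ≤ #(Iic b.1) :=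
        Cardinal.mk_preimage_of_injective e _ e.injective
      refine h2.trans_lt ?_
      have h3 : Iic b.1 = insert b.1 (Iio b.1) := by
        ext x
        simp [le_iff_eq_or_lt]
      rw [h3]
      refine mk_insert_le.trans_lt ?_
      exact add_lt_of_lt h0.le (W61.mk_Iio_lt_To b.1) (one_lt_aleph0.trans h0)
    have h2 := hI s _ hcon h1
    apply hempty
    refine U.mem_of_superset h2 ?_
    intro a ha
    obtain ⟨b, hb, hab⟩ := hs (e a)
    exact (mem_iInter.1 ha ⟨b, hb⟩) hab
  · -- strong limit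
    intro μ hμ
    by_contra hcon
    rw [not_lt] at hcon
    have h1 : #A ≤ #(Set μ.out) := by
      rw [hA, mk_set, mk_out]
      exact hcon
    obtain ⟨f⟩ := h1
    obtain ⟨c, hc⟩ : ∃ c : Set μ.out, c = {m | {a | m ∈ f a} ∈ U} := ⟨_, rfl⟩
    have h2 : ∀ m : μ.out, {a | m ∈ f a ↔ m ∈ c} ∈ U := by
      intro m
      by_cases hm : {a | m ∈ f a} ∈ U
      · have hmc : m ∈ c := by rw [hc]; exact hm
        refine U.mem_of_superset hm ?_
        intro a ha
        exact ⟨fun _ => hmc, fun _ => ha⟩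
      · have hmc : m ∉ c := by rw [hc]; exact hm
        have hm' : {a | m ∈ f a}ᶜ ∈ U := U.compl_mem_iff_notMem.2 hm
        refine U.mem_of_superset hm' ?_
        intro a ha
        exact ⟨fun h => absurd h ha, fun h => absurd h hmc⟩
    have h3 := hI μ.out _ (by rw [mk_out]; exact hμ) h2
    obtain ⟨a0, ha0⟩ := U.nonempty_of_mem h3
    have hfa : ∀ a ∈ ⋂ m, {a | m ∈ f a ↔ m ∈ c}, f a = c := by
      intro a ha
      ext m
      exact mem_iInter.1 ha m
    apply hempty
    refine U.mem_of_superset (U.inter_mem h3 (hnp a0)) ?_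
    rintro a ⟨ha, ha'⟩
    exact ha' (f.injective ((hfa a ha).trans (hfa a0 ha0).symm))

end F61B
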