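import Pool.Agent.W_MP_f61043B_lc.DLa

/-!
# MP_f61043_lc, part B : names, distributivity up to the small part

In all statements: `c` is a cardinal with `ℵ₀ ≤ c ≤ ci (nu i)` and at least the number of the small parts below `i`.
`SPc i c` collects these hypotheses (they hold for `c = ci (nu i)`, and for `c = ci (th i)` if `i` is a successor or the least
element).

`distS`: `distP i` for the index set `J × range (sp i)` (for `t` in the range let `r t` be a condition with `sp i (r t) = t`) and the sets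
`{q | LeS i (r t) q → ∃ p' a, LeS i p' (r t) ∧ Frc (f j a) (repl i p' q)}`: open (`repl_mono`), dense: let `q` be given with
`LeS i (r t) q`; `m ≤ repl i (r t) q` with `Frc (f j a) m` for some `a` (as `io q ≤ ⨆ a, f j a`: `RO.mem_iSup`); take `q' = repl i q m`
(`repl_leI`), `p' = m`: `repl i m (repl i q m) = m`.  (See `F61.bd` in `W_MP_f61043_lc/Names0.lean`.)
-/

universe u

open Cardinal Set Filter

namespace F61B

open Pool.Agent.W_MP_315f31_lc

variable {K : Type u} [LinearOrder K] [WellFoundedLT K]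

/-- `c` is a possible size of the small part. -/
structure SPc (S : SetB K) (i : K) (c : Cardinal.{u}) : Prop where
  inf : ℵ₀ ≤ c
  le : c ≤ ci (S.nu i)
  sp : #(range (sp (S := S) i)) ≤ c

theorem spc_nu (S : SetB K) (i : K) : SPc S i (ci (S.nu i)) :=
  ⟨aleph0_le_nu S i, le_rfl, mk_sp_le_nu S i⟩

theorem spc_nx (S : SetB K) (j : K) : SPc S (S.nx j) (ci (S.th (S.nx j))) :=
  ⟨aleph0_le_th S _, (th_lt_nu S _).le, mk_sp_nx S j⟩

theorem spc_least (S : SetB K) {i : K} (hi : ∀ j, i ≤ j) : SPc S i (ci (S.th i)) :=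
  ⟨aleph0_le_th S _, (th_lt_nu S _).le, (mk_sp_least S hi).trans (one_le_aleph0.trans (aleph0_le_th S i))⟩

variable {S : SetB K}

theorem distS {i : K} {c : Cardinal.{u}} (hc : SPc S i c) {J A : Type u} (hJ : #J ≤ c)
    (f : J → A → DB S) (q : Cnd S) (hf : ∀ j, io q ≤ ⨆ a, f j a) : ∃ q', LeI i q' q ∧
      ∀ j, ∀ p : Cnd S, LeS i p q' → ∃ p' a, LeS i p' p ∧ Frc (f j a) (repl i p' q') := by
  have hr : ∀ t : range (sp (S := S) i), ∃ r : Cnd S, sp i r = t.1 := fun t => t.2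
  choose r hr using hr
  have hJ' : #(J × range (sp (S := S) i)) ≤ ci (S.nu i) := by
    rw [Cardinal.mk_prod, Cardinal.lift_id, Cardinal.lift_id]
    exact ((mul_le_mul' hJ hc.sp).trans (Cardinal.mul_eq_self hc.inf).le).trans hc.le
  obtain ⟨q', hq', hE⟩ := distP i (J := J × range (sp (S := S) i)) hJ'
    (fun x => {q : Cnd S | LeS i (r x.2) q →
      ∃ p' a, LeS i p' (r x.2) ∧ Frc (f x.1 a) (repl i p' q)})
    (by
      rintro ⟨j, t⟩ p q1 hp hq1 hle
      have hsp : sp i q1 = sp i p := sp_eq_iff.2 hq1.2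
      obtain ⟨p', a, h1, h2⟩ := hp ((leS_congr rfl hsp).1 hle)
      exact ⟨p', a, h1, h2.mono (repl_mono (fun k _ => hq1.1 k) fun k _ => Ext.refl _)⟩) q
    (by
      rintro ⟨j, t⟩ q1 hq1
      by_cases hle : LeS i (r t) q1
      · have h1 : Le (repl i (r t) q1) q1 := repl_le (fun k _ => Ext.refl _) hle
        have h2 : (show PL (Le (S := S)) from repl i (r t) q1) ∈ (⨆ a, f j a).1 :=
          IM.RO.mem_lower (le_io_iff.1 (hf j))
            (show Le (repl i (r t) q1) q from IsPre.trans _ _ _ h1 hq1.1)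
        obtain ⟨m, hm, a, ha⟩ := (IM.RO.mem_iSup _ _).1 h2 _ (le_refl _)
        have hm' : Le m (repl i (r t) q1) := hm
        refine ⟨repl i q1 m, repl_leI hm', fun _ => ⟨m, a, fun k hk => ?_, ?_⟩⟩
        · have h3 := hm' k
          rwa [repl_lt hk] at h3
        · show Frc (f j a) (repl i m (repl i q1 m))
          rw [repl_repl, repl_self]
          exact ha
      · exact ⟨q1, IsPre.refl q1, fun h => absurd h hle⟩)
  refine ⟨q', hq', fun j p hp => ?_⟩
  have ha : sp i (r ⟨sp i p, p, rfl⟩) = sp i p := hr ⟨sp i p, p, rfl⟩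
  obtain ⟨p', a, h1, h2⟩ := hE (j, ⟨sp i p, p, rfl⟩) ((leS_congr ha rfl).2 hp)
  exact ⟨p', a, (leS_congr rfl ha).1 h1, h2⟩

/-- No new `ω₁`-sequences. -/
theorem dist0 {J A : Type u} (hJ : #J ≤ ℵ₁) (f : J → A → DB S) (q : Cnd S)
    (hf : ∀ j, io q ≤ ⨆ a, f j a) : ∃ (q' : Cnd S) (g : J → A), Le q' q ∧ ∀ j, Frc (f j (g j)) q' := by
  obtain ⟨i, hi⟩ := exists_least S
  obtain ⟨q', hq', hE⟩ := distP i (J := J) (hJ.trans (aleph_one_le_nu S i))
    (fun j => {q : Cnd S | ∃ a, Frc (f j a) q})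
    (by
      rintro j p q1 ⟨a, ha⟩ hq1
      exact ⟨a, ha.mono hq1.1⟩) q
    (by
      intro j q1 hq1
      have h2 : (show PL (Le (S := S)) from q1) ∈ (⨆ a, f j a).1 :=
        IM.RO.mem_lower (le_io_iff.1 (hf j)) hq1.1
      obtain ⟨m, hm, a, ha⟩ := (IM.RO.mem_iSup _ _).1 h2 _ (le_refl _)
      have hm' : Le m q1 := hm
      exact ⟨m, ⟨hm', fun k hk => absurd hk (not_lt.2 (hi k))⟩, a, ha⟩)
  choose g hg using hE
  exact ⟨q', g, hq'.1, hg⟩

end F61B
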