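import Pool.Agent.W_MP_f61043B_lc.NamesB

/-!
# MP_f61043_lc, part B : few values, names of subsets

`bdB`: like `F61.bd` (`Names0.lean`); apply `distS` to `h'` with values in `Option Y`, `h' x none = (⨆ y, h x y)ᶜ`.
`Z = {y | ∃ x p', Frc (h x y) (repl i p' q')}`.

`namesB`: like `F61.names` (`W_MP_f61043_lc/Names1.lean`): `N = X → Set (range (sp i))`, `F n x = ofS i (n x)`.
-/

universe u

open Cardinal Set Filter

namespace F61B

open Pool.Agent.W_MP_315f31_lc

variable {K : Type u} [LinearOrder K] [WellFoundedLT K] {S : SetB K}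

omit [WellFoundedLT K] in
theorem NamesB2_leS_refl (i : K) (p : Cnd S) : LeS i p p := fun _ _ => Ext.refl _

omit [WellFoundedLT K] in
theorem NamesB2_leS_trans {i : K} {p q r : Cnd S} (h1 : LeS i p q) (h2 : LeS i q r) : LeS i p r :=
  fun j hj => (h1 j hj).trans (h2 j hj)

omit [WellFoundedLT K] in
theorem NamesB2_le_trans {p q r : Cnd S} (h1 : Le p q) (h2 : Le q r) : Le p r :=
  fun j => (h1 j).trans (h2 j)

omit [WellFoundedLT K] in
theorem NamesB2_leS {i : K} {p q : Cnd S} (h : Le p q) : LeS i p q := fun j _ => h j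

omit [WellFoundedLT K] in
theorem NamesB2_leT {i : K} {p q : Cnd S} (h : Le p q) : LeT i p q := fun j _ => h j

theorem NamesB2_mono {b : DB S} {m m' : Cnd S} (h : Frc b m) (hm : Le m' m) : Frc b m' :=
  IM.RO.mem_lower h hm

theorem NamesB2_inf {b b' : DB S} {m : Cnd S} (h : Frc b m) (h' : Frc b' m) (hbb : b ⊓ b' = ⊥) :
    False := by
  have h8 : (show PL (Le (S := S)) from m) ∈ (b ⊓ b').1 := by
    rw [IM.RO.mem_inf]
    exact ⟨h, h'⟩
  rw [hbb] at h8
  exact IM.RO.mem_bot _ h8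

/-- Functions on small sets have few values. -/
theorem bdB {i : K} {c : Cardinal.{u}} (hc : SPc S i c) {X Y : Type u} (hX : #X ≤ c)
    (h : X → Y → DB S) (hd : ∀ x y y', y ≠ y' → h x y ⊓ h x y' = ⊥) (q : Cnd S) :
    ∃ (q' : Cnd S) (Z : Set Y), LeI i q' q ∧ #Z ≤ c ∧ ∀ x, ∀ y ∉ Z, io q' ⊓ h x y = ⊥ := by
  obtain ⟨q', hq', hD⟩ := distS hc hX (A := Option Y)
    (fun x a => match a with
      | none => (⨆ y, h x y)ᶜ
      | some y => h x y) q (by
      intro x
      rw [iSup_option]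
      refine le_trans le_top (le_of_eq ?_)
      rw [sup_comm]
      exact sup_compl_eq_top.symm)
  have hXA : #(X × range (sp (S := S) i)) ≤ c := by
    rw [Cardinal.mk_prod, Cardinal.lift_id, Cardinal.lift_id]
    exact (mul_le_mul' hX hc.sp).trans (Cardinal.mul_eq_self hc.inf).le
  refine ⟨q', {y | ∃ (x : X) (p' : Cnd S), Frc (h x y) (repl i p' q')}, hq', ?_, ?_⟩
  · have hch : ∀ y : {y | ∃ (x : X) (p' : Cnd S), Frc (h x y) (repl i p' q')},
        ∃ (x : X) (p' : Cnd S), Frc (h x y.1) (repl i p' q') := fun y => y.2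
    choose fx fa hfa using hch
    refine (Cardinal.mk_le_of_injective (f := fun y => ((fx y, ⟨sp i (fa y), fa y, rfl⟩) :
      X × range (sp (S := S) i))) ?_).trans hXA
    intro y y' hyy
    have h1 : fx y = fx y' := congrArg Prod.fst hyy
    have h2 : sp i (fa y) = sp i (fa y') := congrArg (fun z => z.2.1) hyy
    have h3 : repl i (fa y) q' = repl i (fa y') q' := repl_congr h2 q'
    by_contra hne
    have h4 : y.1 ≠ y'.1 := fun he => hne (Subtype.ext he)
    refine NamesB2_inf (hfa y) ?_ (hd (fx y) y.1 y'.1 h4)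
    rw [h3, h1]
    exact hfa y'
  · intro x y hy
    by_contra hne
    obtain ⟨m, hm, hm'⟩ := exists_io_le_of hne
    have hmy : Frc (h x y) m := le_io_iff.1 hm'
    obtain ⟨p', a, h1, h2⟩ := hD x m (NamesB2_leS hm)
    have h4 : Le (repl i p' m) m := repl_le (NamesB2_leT (IsPre.refl (L := Le (S := S)) m)) h1
    have h5 : Le (repl i p' m) (repl i p' q') := repl_mono (NamesB2_leT hm) (NamesB2_leS_refl i p')
    have h6 : Frc (h x y) (repl i p' m) := NamesB2_mono hmy h4
    rcases a with _ | y'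
    · have h7 : Frc ((⨆ y, h x y)ᶜ) (repl i p' m) := NamesB2_mono h2 h5
      have h8 : Frc (⨆ y, h x y) (repl i p' m) := by
        rw [Frc, ← le_io_iff]
        exact (le_io_iff.2 h6).trans (le_iSup (h x) y)
      exact NamesB2_inf h8 h7 inf_compl_eq_bot
    · have h7 : Frc (h x y') (repl i p' m) := NamesB2_mono h2 h5
      by_cases hyy : y = y'
      · subst hyy
        exact hy ⟨x, p', h2⟩
      · exact NamesB2_inf h6 h7 (hd x y y' hyy)

/-- Small sets have few names of subsets. -/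
theorem namesB {i : K} {c : Cardinal.{u}} (hc : SPc S i c) {X : Type u} (hX : #X ≤ c) :
    ∃ (N : Type u) (F : N → X → DB S), #N ≤ 2 ^ c ∧ ∀ (τ : X → DB S) (q : Cnd S),
      ∃ (q' : Cnd S) (n : N), LeI i q' q ∧ ∀ x, io q' ⊓ τ x = io q' ⊓ F n x := by
  refine ⟨X → Set (range (sp (S := S) i)), fun n x => ofS i (Subtype.val '' (n x)), ?_, ?_⟩
  · rw [← Cardinal.power_def, Cardinal.mk_set, ← Cardinal.power_mul]
    exact Cardinal.power_le_power_left two_ne_zero
      ((mul_le_mul' hc.sp hX).trans (mul_eq_self hc.inf).le)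
  · intro τ q
    obtain ⟨q', hq', hD⟩ := distS hc hX (A := ULift.{u} Bool) (fun x a => sg (τ x) a.down) q (by
      intro x
      refine le_trans le_top ?_
      rw [← sup_compl_eq_top (x := τ x)]
      refine sup_le ?_ ?_
      · exact le_iSup (fun a : ULift.{u} Bool => sg (τ x) a.down) ⟨true⟩
      · exact le_iSup (fun a : ULift.{u} Bool => sg (τ x) a.down) ⟨false⟩)
    refine ⟨q', fun x => {a | ∃ p' : Cnd S, sp i p' = a.1 ∧ LeS i p' q' ∧
      Frc (τ x) (repl i p' q')}, hq', fun x => ?_⟩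
    have key : ∀ m : Cnd S, Le m q' → (Frc (τ x) m ↔
        Frc (ofS i (Subtype.val '' {a : range (sp (S := S) i) | ∃ p' : Cnd S, sp i p' = a.1 ∧
          LeS i p' q' ∧ Frc (τ x) (repl i p' q')})) m) := by
      intro m hm
      constructor
      · intro hmτ m1 hm1
        have hm1' : Le m1 m := hm1
        have hm1q : Le m1 q' := NamesB2_le_trans hm1' hm
        obtain ⟨p', a, h1, h2⟩ := hD x m1 (NamesB2_leS hm1q)
        have h4 : Le (repl i p' m1) m1 :=
          repl_le (NamesB2_leT (IsPre.refl (L := Le (S := S)) m1)) h1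
        have h5 : Le (repl i p' m1) (repl i p' q') :=
          repl_mono (NamesB2_leT hm1q) (NamesB2_leS_refl i p')
        have h6 : Frc (τ x) (repl i p' m1) := NamesB2_mono hmτ (NamesB2_le_trans h4 hm1')
        have h7 : Frc (τ x) (repl i p' q') := by
          obtain ⟨a⟩ := a
          cases a
          · exact (NamesB2_inf h6 (NamesB2_mono h2 h5) (by simp [sg])).elim
          · simpa [sg] using h2
        refine ⟨repl i p' m1, h4, p', ⟨⟨sp i p', p', rfl⟩, ⟨p', rfl, ?_, h7⟩, rfl⟩, ?_⟩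
        · exact NamesB2_leS_trans h1 (NamesB2_leS hm1q)
        · exact (leS_congr (sp_repl i p' m1).symm rfl).1 (NamesB2_leS_refl i p')
      · intro hmF
        refine IM.RO.mem_of_dense fun m0 hm0 => ?_
        obtain ⟨m1, hm1, a, ⟨a', ⟨p', hp1, hp2, hp3⟩, ha'⟩, ha3⟩ := hmF m0 hm0
        have hm1q : Le m1 q' := NamesB2_le_trans hm1 (NamesB2_le_trans hm0 hm)
        have h1 : Le (repl i m1 m1) (repl i a q') := repl_mono (NamesB2_leT hm1q) ha3
        rw [repl_self, repl_congr (ha'.symm.trans hp1.symm) q'] at h1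
        exact ⟨m1, hm1, NamesB2_mono hp3 h1⟩
    refine le_antisymm ?_ ?_
    · rintro r ⟨h1, h2⟩
      refine ⟨h1, IM.RO.mem_of_dense fun r' hr' => ?_⟩
      obtain ⟨t, ht, ht'⟩ := h1 r' hr'
      exact ⟨t, ht, (key t ht').1 (IM.RO.mem_lower h2 (le_trans (show (show PL (Le (S := S)) from t) ≤ r' from ht) hr'))⟩
    · rintro r ⟨h1, h2⟩
      refine ⟨h1, IM.RO.mem_of_dense fun r' hr' => ?_⟩
      obtain ⟨t, ht, ht'⟩ := h1 r' hr'
      exact ⟨t, ht, (key t ht').2 (IM.RO.mem_lower h2 (le_trans (show (show PL (Le (S := S)) from t) ≤ r' from ht) hr'))⟩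

end F61B
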