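import Pool.Agent.W_MP_f61043B_lc.Ctx

/-!
# MP_f61043_lc, part B : the choice of `e` and of `r²`

`exists_e` (b): For `e : EE S i0 J` and `r` let `T e r = {ξ | ∃ r'', RLeI i0 r'' r ∧ StarJ r'' (col ξ) e}` (decreasing in `r`).  The set
`{r | (¬ Unb (T e r)) ∨ ∀ r' ≤_i0 r, Unb (T e r')}` is open and dense for `RLeI i0`; by `mk_EE` and `distR i0` there is `r1 ≤_i0 r` in all
of them.  By `exists_starJ` every `ξ` is in some `T e r1`, so by `unb_of_iUnion` (`mk_EE`, `ci (nu i0) ≤ ci (th δ) < ci (nu δ)`) `Unb (T e r1)` for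
some `e`.
-/

universe u

open Cardinal Set Filter

namespace F61B

open Pool.Agent.W_MP_315f31_lc

variable {K : Type u} [LinearOrder K] [WellFoundedLT K] {S : SetB K}

omit [WellFoundedLT K] in
theorem RelE_unb_mono {δ : K} {X Y : Set K} (h : X ⊆ Y) (hX : Unb S δ X) : Unb S δ Y := by
  intro β hβ
  obtain ⟨ξ, h1, h2⟩ := hX β hβ
  exact ⟨ξ, h h1, h2⟩

theorem RelE_unb_univ (δ : K) : Unb S δ univ := by
  intro β hβ
  obtain ⟨b, hb, hb'⟩ := regOf (J := PUnit.{u + 1}) (S.nu_init δ) (nu_regular S δ) (fun _ => β)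
    (fun _ => hβ) (by
      rw [Cardinal.mk_punit]
      exact Cardinal.one_lt_aleph0.trans_le (aleph0_le_nu S δ))
  exact ⟨b, mem_univ _, hb' ⟨⟩, hb⟩

theorem exists_e {δ i0 : K} {J : Set K} (h : Ctx S δ i0 J) (col : K → K → DB S) (r : RC S) :
    ∃ (r1 : RC S) (e : EE S i0 J), RLeI i0 r1 r ∧ ∀ r', RLeI i0 r' r1 →
      Unb S δ {ξ | ∃ r'', RLeI i0 r'' r' ∧ StarJ r'' (col ξ) e} := by
  let T : EE S i0 J → RC S → Set K := fun e r =>
    {ξ | ∃ r'', RLeI i0 r'' r ∧ StarJ r'' (col ξ) e}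
  have hT : ∀ e (r r' : RC S), RLeI i0 r' r → T e r' ⊆ T e r := by
    rintro e r r' hr ξ ⟨r'', h1, h2⟩
    exact ⟨r'', IsPre.trans _ _ _ h1 hr, h2⟩
  obtain ⟨r1, hr1, h1⟩ := distR i0 (mk_EE h)
    (fun e => {r | ¬ Unb S δ (T e r) ∨ ∀ r', RLeI i0 r' r → Unb S δ (T e r')}) (by
      rintro e p q hp hq
      rcases hp with hp | hp
      · exact Or.inl fun h2 => hp (RelE_unb_mono (hT e p q hq) h2)
      · exact Or.inr fun r' hr' => hp r' (IsPre.trans _ _ _ hr' hq)) r (by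
      intro e p hp
      by_cases h2 : ∃ r', RLeI i0 r' p ∧ ¬ Unb S δ (T e r')
      · obtain ⟨r', h3, h4⟩ := h2
        exact ⟨r', h3, Or.inl h4⟩
      · push Not at h2
        exact ⟨p, IsPre.refl _, Or.inr h2⟩)
  have hcard : #(EE S i0 J) < ci (S.nu δ) :=
    ((mk_EE h).trans_lt (nu_lt_la S i0)).trans_le
      ((la_le_th S h.i0_lt).trans (th_lt_nu S δ).le)
  obtain ⟨e, he⟩ := unb_of_iUnion hcard (fun e => T e r1) (by
    refine RelE_unb_mono ?_ (RelE_unb_univ (S := S) δ)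
    intro ξ _
    obtain ⟨r', hr', e, he⟩ := exists_starJ h (col ξ) r1
    exact mem_iUnion.mpr ⟨e, r', hr', he⟩)
  refine ⟨r1, e, hr1, ?_⟩
  rcases h1 e with h2 | h2
  · exact absurd he h2
  · exact h2

end F61B
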