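import Pool.Agent.W_MP_f61043B_lc.Ctx

/-!
# MP_f61043_lc, part B : the choice of `r²`

`exists_r2` (c): for `l : J` let `i = nx l`.  `TT col e l n u w` depends only on the coordinates `≥ i` of `w` and the coordinates
`< i` of `u` (`TT_congr`).  For `n`, `u` the set `{w | (¬ Unb (TT l n u w)) ∨ ∀ w' ≤_i w, Unb (TT l n u w')}` is open and dense for
`RLeI i`; the number of the pairs `(n, rsp i u)` is at most `ci (nu i)` (`mk_NN`, `mk_rsp_nx`), so `E l`, the set of the `w` which are in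
all these sets, is dense for `RLeI i`, so for `RLeI i0` (`i0 ≤ l < i`); it is open for `RLeI i0` by `TT_congr`.  By `distR i0` for the index
set `J` there is `r2 ≤_i0 r1` in all `E l`.  For every `l` and `(n, u)` with `¬ Unb` choose a bound `< nu δ`; there are at most
`#J * sup ci (nu (nx l)) ≤ ci (th δ) < ci (nu δ)` of them (they depend only on `rsp i u`), so there is a common bound `β` (`regOf`,
`nu_regular`).
-/

universe u

open Cardinal Set Filter

namespace F61B

open Pool.Agent.W_MP_315f31_lc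

variable {K : Type u} [LinearOrder K] [WellFoundedLT K] {S : SetB K}

private theorem RelT_repl {i : K} (u v w : RC S) : rrepl i u (rrepl i w v) = rrepl i u v := by
  ext1
  funext j
  by_cases hj : j < i
  · rw [rrepl_lt hj, rrepl_lt hj]
  · rw [rrepl_ge (not_lt.1 hj), rrepl_ge (not_lt.1 hj), rrepl_ge (not_lt.1 hj)]

private theorem RelT_st {i : K} (v w : RC S) : LeT i (st (rrepl i w v)) (st v) := by
  intro j hj
  rw [st_rrepl, repl_ge hj]
  exact Ext.refl _

/-- `TT` is monotone in `w` -/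
private theorem RelT_mono {i0 : K} {J : Set K} (col : K → K → DB S) (e : EE S i0 J) (l : J)
    (n : NN S (S.nx l.1)) {u w w' : RC S} (hw : ∀ j, S.nx l.1 ≤ j →
      ∀ᶠ α in (S.U j : Filter K), Ext (w'.r j α) (w.r j α)) : TT col e l n u w' ⊆ TT col e l n u w := by
  rintro ξ ⟨v, h1, h2, h3⟩
  refine ⟨rrepl (S.nx l.1) w v, ⟨fun j => ?_, fun j hj => rrepl_lt hj _ _⟩,
    h2.mono (RelT_st v w), fun l' hl' => ?_⟩
  · by_cases hj : j < S.nx l.1
    · rw [rrepl_lt hj]
      exact Filter.Eventually.of_forall fun _ => Ext.refl _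
    · rw [rrepl_ge (not_lt.1 hj)]
      filter_upwards [h1.1 j, hw j (not_lt.1 hj)] with α ha hb
      exact ha.trans hb
  · rw [RelT_repl]
    exact h3 l' hl'

private theorem RelT_u {i0 : K} {J : Set K} (col : K → K → DB S) (e : EE S i0 J) (l : J)
    (n : NN S (S.nx l.1)) {u u' w : RC S} (hu : ∀ j < S.nx l.1, u.r j = u'.r j) :
    TT col e l n u w ⊆ TT col e l n u' w := by
  rintro ξ ⟨v, h1, h2, h3⟩
  refine ⟨v, h1, h2, fun l' hl' => ?_⟩
  have h4 : rrepl (S.nx l.1) u' v = rrepl (S.nx l.1) u v := by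
    ext1
    funext j
    by_cases hj : j < S.nx l.1
    · rw [rrepl_lt hj, rrepl_lt hj, hu j hj]
    · rw [rrepl_ge (not_lt.1 hj), rrepl_ge (not_lt.1 hj)]
  rw [h4]
  exact h3 l' hl'

theorem TT_congr {i0 : K} {J : Set K} (col : K → K → DB S) (e : EE S i0 J) (l : J)
    (n : NN S (S.nx l.1)) {u u' w w' : RC S} (hu : ∀ j < S.nx l.1, u.r j = u'.r j)
    (hw : ∀ j, S.nx l.1 ≤ j → w.r j = w'.r j) : TT col e l n u w = TT col e l n u' w' := by
  apply Subset.antisymm
  · refine (RelT_u col e l n hu).trans (RelT_mono col e l n fun j hj => ?_)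
    rw [hw j hj]
    exact Filter.Eventually.of_forall fun _ => Ext.refl _
  · refine (RelT_u col e l n fun j hj => (hu j hj).symm).trans (RelT_mono col e l n fun j hj => ?_)
    rw [hw j hj]
    exact Filter.Eventually.of_forall fun _ => Ext.refl _

/-- `TT` is monotone in `w` -/
theorem TT_mono {i0 : K} {J : Set K} (col : K → K → DB S) (e : EE S i0 J) (l : J)
    (n : NN S (S.nx l.1)) {u w w' : RC S} (hw : ∀ j, S.nx l.1 ≤ j →
      ∀ᶠ α in (S.U j : Filter K), Ext (w'.r j α) (w.r j α)) : TT col e l n u w' ⊆ TT col e l n u w :=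
  RelT_mono col e l n hw

private theorem Unb.mono {δ : K} {X Y : Set K} (h : Unb S δ X) (hXY : X ⊆ Y) : Unb S δ Y := by
  intro β hβ
  obtain ⟨ξ, h1, h2⟩ := h β hβ
  exact ⟨ξ, hXY h1, h2⟩

private theorem RelT_rsp {i : K} {u u' : RC S} (h : rsp i u = rsp i u') :
    ∀ j < i, u.r j = u'.r j := by
  intro j hj
  have h1 := congrFun h j
  simp only [rsp, if_pos hj] at h1
  exact h1

/-- the set `E l` -/
private def RelT_E (δ : K) {i0 : K} {J : Set K} (col : K → K → DB S) (e : EE S i0 J) (l : J) :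
    Set (RC S) :=
  {w | ∀ (n : NN S (S.nx l.1)) (u : RC S), ¬ Unb S δ (TT col e l n u w) ∨
    ∀ w', RLeI (S.nx l.1) w' w → Unb S δ (TT col e l n u w')}

private theorem RelT_open {δ i0 : K} {J : Set K} (h : Ctx S δ i0 J) (col : K → K → DB S)
    (e : EE S i0 J) (l : J) : W61.Opn (RLeI (S := S) i0) (RelT_E δ col e l) := by
  intro w v hw hv n u
  rcases hw n u with h1 | h1
  · left
    intro h2
    exact h1 (h2.mono (TT_mono col e l n fun j _ => hv.1 j))
  · right
    intro w' hw'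
    have h2 : RLeI (S.nx l.1) (rrepl (S.nx l.1) w w') w := by
      refine ⟨fun j => ?_, fun j hj => rrepl_lt hj _ _⟩
      by_cases hj : j < S.nx l.1
      · rw [rrepl_lt hj]
        exact Filter.Eventually.of_forall fun _ => Ext.refl _
      · rw [rrepl_ge (not_lt.1 hj)]
        filter_upwards [hw'.1 j, hv.1 j] with α ha hb
        exact ha.trans hb
    have h3 := h1 _ h2
    rwa [TT_congr col e l n (u' := u) (w' := w') (fun _ _ => rfl) fun j hj => rrepl_ge hj _ _] at h3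

private theorem RelT_dense {δ i0 : K} {J : Set K} (h : Ctx S δ i0 J) (col : K → K → DB S)
    (e : EE S i0 J) (l : J) (r : RC S) : W61.Dns (RLeI (S := S) i0) r (RelT_E δ col e l) := by
  intro w _
  choose rep hrep using fun x : range (rsp (S := S) (S.nx l.1)) => x.2
  have hcard : #(NN S (S.nx l.1) × range (rsp (S := S) (S.nx l.1))) ≤ ci (S.nu (S.nx l.1)) := by
    rw [Cardinal.mk_prod, Cardinal.lift_id, Cardinal.lift_id]
    exact (mul_le_mul' (mk_NN S l.1) (mk_rsp_nx S l.1)).trans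
      (Cardinal.mul_eq_self (aleph0_le_nu S _)).le
  obtain ⟨q, hq, hqE⟩ := distR (S := S) (S.nx l.1) hcard
    (fun x => {w | ¬ Unb S δ (TT col e l x.1 (rep x.2) w) ∨
      ∀ w', RLeI (S.nx l.1) w' w → Unb S δ (TT col e l x.1 (rep x.2) w')})
    (by
      rintro ⟨n, t⟩ w v hw hv
      rcases hw with h1 | h1
      · left
        intro h2
        exact h1 (h2.mono (TT_mono col e l n fun j _ => hv.1 j))
      · right
        intro w' hw'
        exact h1 w' (IsPre.trans _ _ _ hw' hv))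
    w
    (by
      rintro ⟨n, t⟩ v _
      by_cases h1 : ∀ w', RLeI (S.nx l.1) w' v → Unb S δ (TT col e l n (rep t) w')
      · exact ⟨v, IsPre.refl _, Or.inr h1⟩
      · push Not at h1
        obtain ⟨w', hw', h2⟩ := h1
        exact ⟨w', hw', Or.inl h2⟩)
  refine ⟨q, RLeI.mono ((h.ge l.1 l.2).trans (lt_nx S l.1).le) hq, fun n u => ?_⟩
  have h1 := hqE (n, ⟨rsp (S.nx l.1) u, u, rfl⟩)
  have hu : ∀ j < S.nx l.1, u.r j = (rep ⟨rsp (S.nx l.1) u, u, rfl⟩).r j :=
    RelT_rsp (hrep ⟨rsp (S.nx l.1) u, u, rfl⟩).symm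
  have h2 : ∀ v : RC S, TT col e l n u v = TT col e l n (rep ⟨rsp (S.nx l.1) u, u, rfl⟩) v :=
    fun v => TT_congr col e l n hu fun _ _ => rfl
  rcases h1 with h1 | h1
  · left
    rw [h2]
    exact h1
  · right
    intro w' hw'
    rw [h2]
    exact h1 w' hw'

theorem exists_r2 {δ i0 : K} {J : Set K} (h : Ctx S δ i0 J) (col : K → K → DB S) (e : EE S i0 J)
    (r1 : RC S) : ∃ (r2 : RC S) (β : K), RLeI i0 r2 r1 ∧ β < S.nu δ ∧
      ∀ (l : J) (n : NN S (S.nx l.1)) (u : RC S), (∀ ξ ∈ TT col e l n u r2, ξ < S.nu δ → ξ ≤ β) ∨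
        ∀ w, RLeI (S.nx l.1) w r2 → Unb S δ (TT col e l n u w) := by
  have hJ : #J ≤ ci (S.nu i0) := h.card.trans (th_lt_nu S i0).le
  obtain ⟨r2, hr2, hE⟩ := distR (S := S) i0 hJ (fun l => RelT_E δ col e l)
    (fun l => RelT_open h col e l) r1 (fun l => RelT_dense h col e l r1)
  choose rep hrep using fun (l : J) (x : range (rsp (S := S) (S.nx l.1))) => x.2
  have hex : ∀ x : (Σ l : J, NN S (S.nx l.1) × range (rsp (S := S) (S.nx l.1))),
      ∃ b < S.nu δ, ¬ Unb S δ (TT col e x.1 x.2.1 (rep x.1 x.2.2) r2) →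
        ∀ ξ ∈ TT col e x.1 x.2.1 (rep x.1 x.2.2) r2, ξ < S.nu δ → ξ ≤ b := by
    intro x
    by_cases h1 : Unb S δ (TT col e x.1 x.2.1 (rep x.1 x.2.2) r2)
    · exact ⟨S.th δ, th_lt_nu' S δ, fun h2 => absurd h1 h2⟩
    · unfold Unb at h1
      push Not at h1
      obtain ⟨b, hb, h2⟩ := h1
      refine ⟨b, hb, fun _ ξ hξ hlt => ?_⟩
      by_contra hc
      exact absurd hlt (not_lt.2 (h2 ξ hξ (not_le.1 hc)))
  choose f hf1 hf2 using hex
  have hcard : #(Σ l : J, NN S (S.nx l.1) × range (rsp (S := S) (S.nx l.1))) < ci (S.nu δ) := by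
    refine lt_of_le_of_lt ?_ (th_lt_nu S δ)
    rw [Cardinal.mk_sigma]
    calc Cardinal.sum (fun l : J => #(NN S (S.nx l.1) × range (rsp (S := S) (S.nx l.1))))
        ≤ Cardinal.sum (fun _ : J => ci (S.th δ)) := by
          refine Cardinal.sum_le_sum _ _ fun l => ?_
          rw [Cardinal.mk_prod, Cardinal.lift_id, Cardinal.lift_id]
          refine (mul_le_mul' (mk_NN S l.1) (mk_rsp_nx S l.1)).trans ?_
          rw [Cardinal.mul_eq_self (aleph0_le_nu S _)]
          exact (nu_lt_la S (S.nx l.1)).le.trans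
            (la_le_th S (nx_lt_lim h.lim (h.lt l.1 l.2)))
      _ = #J * ci (S.th δ) := Cardinal.sum_const' _ _
      _ ≤ ci (S.th δ) * ci (S.th δ) :=
          mul_le_mul' (h.card.trans (th_card_mono S h.i0_lt.le)) le_rfl
      _ = ci (S.th δ) := Cardinal.mul_eq_self (aleph0_le_th S δ)
  obtain ⟨β, hβ, hfβ⟩ := regOf (S.nu_init δ) (nu_regular S δ) f hf1 hcard
  refine ⟨r2, β, hr2, hβ, fun l n u => ?_⟩
  rcases hE l n u with h1 | h1
  · left
    have hu : ∀ j < S.nx l.1, u.r j = (rep l ⟨rsp (S.nx l.1) u, u, rfl⟩).r j :=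
      RelT_rsp (hrep l ⟨rsp (S.nx l.1) u, u, rfl⟩).symm
    have h2 : TT col e l n u r2 = TT col e l n (rep l ⟨rsp (S.nx l.1) u, u, rfl⟩) r2 :=
      TT_congr col e l n hu fun _ _ => rfl
    rw [h2] at h1 ⊢
    intro ξ hξ hlt
    exact (hf2 ⟨l, n, ⟨rsp (S.nx l.1) u, u, rfl⟩⟩ h1 ξ hξ hlt).trans
      (hfβ ⟨l, n, ⟨rsp (S.nx l.1) u, u, rfl⟩⟩).le
  · right
    exact h1

end F61B
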