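import Pool.Agent.W_MP_f61043B_lc.RelE
import Pool.Agent.W_MP_f61043B_lc.RelT

/-!
# MP_f61043_lc, part B : the choice of `ξ*`, `r⁴`, `r⁵` and of the set `B`

`exists_r4` (d): `exists_e` (`r1`, `e`), `exists_r2` (`r2`, `β`).  Choose `ξs > β`, `ξs < nu δ`, and `r3 ≤_i0 r2` with
`StarJ r3 (col ξs) e`.  For `l : J` the set `{r | ∃ n, TD (nx l) r (col ξs) (nm n)}` is open for `RLeI i0` (`TD.mono`, `st_mono`) and dense
(`exists_TD l`, `RLeI.mono`); `distR i0` gives `r4` and `nn`.  For `l : J` the point `ξs` is in `TT col e l (nn l) r4 r2`: the witness is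
`w' = rrepl (nx l) r2 r4` (`≤_(nx l) r2`), `rrepl (nx l) r4 w'` and `r4` have the same coordinates, so they are equal (`RC.ext`).  So
the first alternative of `exists_r2` fails.
-/

universe u

open Cardinal Set Filter

namespace F61B

open Pool.Agent.W_MP_315f31_lc

variable {K : Type u} [LinearOrder K] [WellFoundedLT K] {S : SetB K}

/-- (d) -/
theorem exists_r4 {δ i0 : K} {J : Set K} (h : Ctx S δ i0 J) (col : K → K → DB S) (r : RC S) :
    ∃ (e : EE S i0 J) (r2 r4 : RC S) (ξs : K) (nn : ∀ l : J, NN S (S.nx l.1)),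
      RLeI i0 r2 r ∧ RLeI i0 r4 r2 ∧ ξs < S.nu δ ∧ StarJ r4 (col ξs) e ∧
      (∀ l : J, TD (S.nx l.1) r4 (col ξs) (nm (nn l))) ∧
      ∀ l : J, ∀ w, RLeI (S.nx l.1) w r2 → Unb S δ (TT col e l (nn l) r4 w) := by
  obtain ⟨r1, e, hr1, hE⟩ := exists_e h col r
  obtain ⟨r2, β, hr2, hβ, hT⟩ := exists_r2 h col e r1
  obtain ⟨ξs, ⟨r3, hr3, hstar3⟩, hβξ, hξδ⟩ := hE r2 hr2 β hβ
  obtain ⟨r4, hr4, hTD⟩ := distR (S := S) i0 (J := J) (h.card.trans (th_lt_nu S i0).le)
    (fun l => {r | ∃ n : NN S (S.nx l.1), TD (S.nx l.1) r (col ξs) (nm n)})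
    (by
      rintro l x y ⟨n, hn⟩ hyx
      exact ⟨n, hn.mono fun j _ => st_mono hyx.1 j⟩) r3
    (by
      intro l x hx
      obtain ⟨w', hw', n, hn⟩ := exists_TD l.1 (col ξs) x
      exact ⟨w', RLeI.mono ((h.ge l.1 l.2).trans (lt_nx S l.1).le) hw', n, hn⟩)
  choose nn hnn using hTD
  refine ⟨e, r2, r4, ξs, nn, IsPre.trans _ _ _ hr2 hr1, IsPre.trans _ _ _ hr4 hr3, hξδ,
    hstar3.mono hr4.1, hnn, fun l w hw => ?_⟩
  rcases hT l (nn l) r4 with h1 | h1
  · exfalso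
    have hRLe : RLe r4 r2 := IsPre.trans _ _ _ hr4.1 hr3.1
    have h2 : ξs ∈ TT col e l (nn l) r4 r2 := by
      refine ⟨rrepl (S.nx l.1) r2 r4, rrepl_leI hRLe, ?_, ?_⟩
      · refine (hnn l).mono fun j hj => ?_
        rw [st_rrepl, repl_ge hj]
        exact Ext.refl _
      · intro l' _
        have h3 : rrepl (S.nx l.1) r4 (rrepl (S.nx l.1) r2 r4) = r4 := by
          apply RC.ext
          funext j
          rcases lt_or_ge j (S.nx l.1) with hj | hj
          · rw [rrepl_lt hj]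
          · rw [rrepl_ge hj, rrepl_ge hj]
        rw [h3]
        exact (hstar3.mono hr4.1) l'
    exact absurd (h1 ξs h2 hξδ) (not_le.2 hβξ)
  · exact h1 w hw

end F61B
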