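import Pool.Agent.W_61ad90_h15.PNames

/-!
# MP_f61043_lc, part B : the setting and the forcing

`K` is a well-order of the type of an inaccessible cardinal `θ`, the least one which is a limit of measurable cardinals.
`th i = θ_i` for `i : K` is a continuous increasing sequence, `θ_0 = ω`, `θ_(i+1)` is measurable with the ultrafilter `U i`;
`nu i = θ_i⁺`, `rho i = θ_i⁺⁺`, `nx i = i + 1`.  GCH holds.

`Cnd S` is the product (bounded support) of the collapses `Col(rho i, < th (nx i))`; a condition `p` gives at the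
coordinate `i` a partial function `p.p i : K → K → Option K` of size `≤ nu i`, with `p.p i x y < x` for `y < rho i`.
`RC S` is the poset of the functions `r.r i : θ_(i+1) → Col_i`, modulo `U i`; `st r` is the stem of `r`.
See the file `f61043_proofB.md` in the team store for the mathematical text.
-/

universe u

open Cardinal Set Filter

namespace F61B

open Pool.Agent.W_MP_315f31_lc

/-- `δ` is a limit point: not the least element and not a successor. -/
def IsLim {K : Type u} [LinearOrder K] (δ : K) : Prop := (∃ x, x < δ) ∧ ∀ x < δ, ∃ y, x < y ∧ y < δ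

/-- The cardinality of the initial segment. -/
abbrev ci {K : Type u} [LinearOrder K] (x : K) : Cardinal.{u} := #(Iio x)

/-- The setting. -/
structure SetB (K : Type u) [LinearOrder K] : Type u where
  th : K → K
  nu : K → K
  rho : K → K
  nx : K → K
  U : K → Ultrafilter K
  inac : (#K).IsInaccessible
  card_lt : ∀ x : K, ci x < #K
  nx_iff : ∀ i x, x < nx i ↔ x ≤ i
  th_mono : StrictMono th
  th_cont : ∀ δ, IsLim δ → ∀ x < th δ, ∃ j < δ, x < th j
  th_bot : ∀ i, (∀ j, i ≤ j) → ci (th i) = ℵ₀
  th_init : ∀ i, ∀ x < th i, ci x < ci (th i)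
  nu_card : ∀ i, ci (nu i) = Order.succ (ci (th i))
  nu_init : ∀ i, ∀ x < nu i, ci x < ci (nu i)
  rho_card : ∀ i, ci (rho i) = Order.succ (ci (nu i))
  rho_init : ∀ i, ∀ x < rho i, ci x < ci (rho i)
  la_inac : ∀ i, (ci (th (nx i))).IsInaccessible
  U_mem : ∀ i, Iio (th (nx i)) ∈ U i
  U_np : ∀ i, ∀ x < th (nx i), Ioi x ∈ U i
  U_cpl : ∀ i (J : Type u) (A : J → Set K), #J < ci (th (nx i)) → (∀ j, A j ∈ U i) →
    (⋂ j, A j) ∈ U i
  /-- `θ_δ` is singular for limit `δ` -/
  sing : ∀ δ, IsLim δ → ∃ J : Set K, (∀ l ∈ J, l < δ) ∧ (∀ x < δ, ∃ l ∈ J, x < l) ∧ #J < ci (th δ)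
  gch : ∀ c : Cardinal.{u}, ℵ₀ ≤ c → (2 : Cardinal.{u}) ^ c = Order.succ c

variable {K : Type u} [LinearOrder K] [WellFoundedLT K]

/-! ### one coordinate -/

/-- The partial functions of two variables. -/
abbrev Pt (K : Type u) : Type u := K → K → Option K

/-- The empty function. -/
def emp : Pt K := fun _ _ => none

/-- `f` extends `g`. -/
def Ext (f g : Pt K) : Prop := ∀ x y z, g x y = some z → f x y = some z

/-- `f` and `g` are compatible. -/
def Cpt (f g : Pt K) : Prop := ∀ x y z z', f x y = some z → g x y = some z' → z = z'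

/-- `f` is an element of the collapse at the coordinate `i`. -/
structure Ok (S : SetB K) (i : K) (f : Pt K) : Prop where
  dom : ∀ x y z, f x y = some z → x < S.th (S.nx i) ∧ y < S.rho i ∧ z < x
  small : #{a : K × K // f a.1 a.2 ≠ none} ≤ ci (S.nu i)

/-! ### conditions -/

/-- The forcing conditions. -/
@[ext] structure Cnd (S : SetB K) : Type u where
  p : K → Pt K
  ok : ∀ i, Ok S i (p i)
  bdd : ∃ b, ∀ i, b ≤ i → p i = emp

/-- The conditions of the poset of functions. -/
@[ext] structure RC (S : SetB K) : Type u where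
  r : K → K → Pt K
  ok : ∀ i α, Ok S i (r i α)
  junk : ∀ i α, S.th (S.nx i) ≤ α → r i α = emp
  bdd : ∃ b, ∀ i, b ≤ i → ∀ α, r i α = emp

variable {S : SetB K}

/-- `q` is stronger than `p`. -/
def Le (q p : Cnd S) : Prop := ∀ i, Ext (q.p i) (p.p i)

/-- `q` is stronger than `p`, with the same coordinates below `i`. -/
def LeI (i : K) (q p : Cnd S) : Prop := Le q p ∧ ∀ j < i, q.p j = p.p j

/-- the coordinates below `i` -/
def LeS (i : K) (q p : Cnd S) : Prop := ∀ j < i, Ext (q.p j) (p.p j)

/-- the coordinates from `i` on -/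
def LeT (i : K) (q p : Cnd S) : Prop := ∀ j, i ≤ j → Ext (q.p j) (p.p j)

omit [WellFoundedLT K] in
theorem Ext.refl (f : Pt K) : Ext f f := fun _ _ _ h => h

omit [WellFoundedLT K] in
theorem Ext.trans {f g h : Pt K} (h1 : Ext f g) (h2 : Ext g h) : Ext f h :=
  fun x y z hz => h1 x y z (h2 x y z hz)

instance : IsPre (Le (S := S)) where
  refl _ _ := Ext.refl _
  trans _ _ _ h1 h2 i := (h1 i).trans (h2 i)

instance (i : K) : IsPre (LeI (S := S) i) where
  refl p := ⟨IsPre.refl p, fun _ _ => rfl⟩
  trans _ _ _ h1 h2 := ⟨IsPre.trans _ _ _ h1.1 h2.1, fun j hj => (h1.2 j hj).trans (h2.2 j hj)⟩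

/-- `q` is stronger than `p`, modulo the ultrafilters. -/
def RLe (q p : RC S) : Prop := ∀ i, ∀ᶠ α in (S.U i : Filter K), Ext (q.r i α) (p.r i α)

/-- `q` is stronger than `p`, with the same coordinates below `i`. -/
def RLeI (i : K) (q p : RC S) : Prop := RLe q p ∧ ∀ j < i, q.r j = p.r j

instance : IsPre (RLe (S := S)) where
  refl _ _ := Filter.Eventually.of_forall fun _ => Ext.refl _
  trans _ _ _ h1 h2 i := by
    filter_upwards [h1 i, h2 i] with α ha hb
    exact ha.trans hb

instance (i : K) : IsPre (RLeI (S := S) i) where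
  refl p := ⟨IsPre.refl p, fun _ _ => rfl⟩
  trans _ _ _ h1 h2 := ⟨IsPre.trans _ _ _ h1.1 h2.1, fun j hj => (h1.2 j hj).trans (h2.2 j hj)⟩

/-- The algebra of the forcing. -/
abbrev DB (S : SetB K) : Type u := DD (Le (S := S))

/-- The coordinates below `i`. -/
noncomputable def sp (i : K) (p : Cnd S) : K → Pt K := fun j => if j < i then p.p j else emp

/-- The coordinates below `i`. -/
noncomputable def rsp (i : K) (r : RC S) : K → K → Pt K := fun j => if j < i then r.r j else fun _ => emp

/-- Replace the coordinates below `i` of `p` by those of `a`. -/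
noncomputable def repl (i : K) (a p : Cnd S) : Cnd S where
  p j := if j < i then a.p j else p.p j
  ok j := by
    split_ifs
    · exact a.ok j
    · exact p.ok j
  bdd := by
    obtain ⟨b, hb⟩ := a.bdd
    obtain ⟨c, hc⟩ := p.bdd
    refine ⟨max b c, fun j hj => ?_⟩
    split_ifs
    · exact hb j ((le_max_left _ _).trans hj)
    · exact hc j ((le_max_right _ _).trans hj)

/-- Replace the coordinates below `i` of `w` by those of `u`. -/
noncomputable def rrepl (i : K) (u w : RC S) : RC S where
  r j := if j < i then u.r j else w.r j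
  ok j α := by
    split_ifs
    · exact u.ok j α
    · exact w.ok j α
  junk j α h := by
    split_ifs
    · exact u.junk j α h
    · exact w.junk j α h
  bdd := by
    obtain ⟨b, hb⟩ := u.bdd
    obtain ⟨c, hc⟩ := w.bdd
    refine ⟨max b c, fun j hj α => ?_⟩
    split_ifs
    · exact hb j ((le_max_left _ _).trans hj) α
    · exact hc j ((le_max_right _ _).trans hj) α

/-- The element of the algebra given by a set of small parts. -/
noncomputable def ofS (i : K) (T : Set (K → Pt K)) : DB S :=
  toD' (fun m : Cnd S => ∃ a : Cnd S, sp i a ∈ T ∧ LeS i m a) fun _ _ h1 h2 => by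
    obtain ⟨a, ha, h3⟩ := h1
    exact ⟨a, ha, fun j hj => (h2 j).trans (h3 j hj)⟩

/-- `b` or its complement. -/
noncomputable def sg (b : DB S) (c : Bool) : DB S := if c then b else bᶜ

/-- `m` forces `b`. -/
def Frc (b : DB S) (m : Cnd S) : Prop := (show PL (Le (S := S)) from m) ∈ b.1

end F61B
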