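import Pool.Agent.W_MP_f61043B_lc.Coord

/-!
# MP_f61043_lc, part B : the poset `R` of the functions modulo the ultrafilters, and the stems

`stf_ok`: `dom`: from one `α`.  `small`: if the domain `X` of the stem had more than `ci (nu i)` elements, take a subset `X'` of `X` of
cardinality `succ (ci (nu i)) < ci (th (nx i))` (`Cardinal.le_mk_iff_exists_subset`); by `ev_all` for almost all `α` the domain of `g α`
contains `X'`: a contradiction to `Ok.small`.
`ev_ext_stf` (R2): `ev_all` for the at most `ci (nu i)` elements of the domain of the stem.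
`ext_stf` : if `g α` extends `f` for almost all `α` then the stem extends `f`.
`ev_cpt` (R3): `f` extends the stem: for every `(x, y)` in the domain of `f` (at most `ci (nu i)` elements) either the stem is defined
there, and then `g α x y` has the same value as the stem for almost all `α`, and `f` too; or the stem is not defined there: then `g α x y`
is a fixed element of `Option K` for almost all `α` (`ev_const`: the values of `g α x y` are `none` or `some z` with `z < x`, fewer than
`ci (th (nx i))` possibilities), and it is not `some z` (otherwise the stem would be defined), so it is `none`.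
`closedR`: at the coordinates `j ≥ i`: for almost all `α` the sequence `(s x).r j α` is decreasing (`ev_all` for pairs, `#(J × J) ≤ ci (nu i)
≤ ci (nu j) < ci (th (nx j))`); take the union `un` for such `α` (and `emp` for the other `α`, and for `th (nx j) ≤ α`).
`exists_ext` (R4): for `j` with `q.p j = (st r).p j` keep `r.r j`; otherwise `r' j α = jn (r.r j α) (q.p j)` if the two are compatible and
`α < th (nx j)`, and `r.r j α` otherwise.
-/

universe u

open Cardinal Set Filter

namespace F61B

open Pool.Agent.W_MP_315f31_lc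

variable {K : Type u} [LinearOrder K] [WellFoundedLT K]

/-- The stem of a function. -/
noncomputable def stf (S : SetB K) (i : K) (g : K → Pt K) : Pt K := fun x y =>
  open Classical in
  if h : ∃ z, ∀ᶠ α in (S.U i : Filter K), g α x y = some z then some h.choose else none

theorem stf_eq_some {S : SetB K} {i : K} {g : K → Pt K} {x y z : K} :
    stf S i g x y = some z ↔ ∀ᶠ α in (S.U i : Filter K), g α x y = some z := by
  constructor
  · intro h
    unfold stf at h
    by_cases h1 : ∃ z, ∀ᶠ α in (S.U i : Filter K), g α x y = some z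
    · rw [dif_pos h1] at h
      rw [← h]
      exact h1.choose_spec
    · rw [dif_neg h1] at h
      exact absurd h (by simp)
  · intro h
    have h1 : ∃ z, ∀ᶠ α in (S.U i : Filter K), g α x y = some z := ⟨z, h⟩
    unfold stf
    rw [dif_pos h1]
    obtain ⟨α, ha, hb⟩ := (h.and h1.choose_spec).exists
    exact hb.symm.trans ha

theorem stf_ok {S : SetB K} {i : K} {g : K → Pt K} (hg : ∀ α, Ok S i (g α)) : Ok S i (stf S i g) := by
  refine ⟨fun x y z hz => ?_, ?_⟩
  · obtain ⟨α, ha⟩ := (stf_eq_some.1 hz).exists
    exact (hg α).dom x y z ha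
  · by_contra hcon
    push Not at hcon
    have h1 : Order.succ (ci (S.nu i)) ≤ #{a : K × K | stf S i g a.1 a.2 ≠ none} :=
      Order.succ_le_of_lt hcon
    obtain ⟨X, hX, hXc⟩ := Cardinal.le_mk_iff_exists_subset.1 h1
    have h2 : #X < ci (S.th (S.nx i)) := by
      rw [hXc, ← S.rho_card i]
      exact rho_lt_la S i
    have h3 : ∀ a : X, ∀ᶠ α in (S.U i : Filter K), g α a.1.1 a.1.2 ≠ none := by
      intro a
      obtain ⟨z, hz⟩ := Option.ne_none_iff_exists'.1 (show stf S i g a.1.1 a.1.2 ≠ none from hX a.2)
      filter_upwards [stf_eq_some.1 hz] with α ha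
      rw [ha]
      simp
    obtain ⟨α, ha⟩ := (ev_all S i h2 h3).exists
    have h4 : X ⊆ {a : K × K | g α a.1 a.2 ≠ none} := fun a h => ha ⟨a, h⟩
    have h5 : #X ≤ ci (S.nu i) := (mk_le_mk_of_subset h4).trans (hg α).small
    rw [hXc] at h5
    exact absurd (Order.lt_succ (ci (S.nu i))) (not_lt.2 h5)

theorem ev_ext_stf {S : SetB K} {i : K} {g : K → Pt K} (hg : ∀ α, Ok S i (g α)) :
    ∀ᶠ α in (S.U i : Filter K), Ext (g α) (stf S i g) := by
  have h2 : #{a : K × K // stf S i g a.1 a.2 ≠ none} < ci (S.th (S.nx i)) :=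
    lt_of_le_of_lt (stf_ok hg).small (nu_lt_la S i)
  have h3 : ∀ a : {a : K × K // stf S i g a.1 a.2 ≠ none}, ∀ᶠ α in (S.U i : Filter K),
      g α a.1.1 a.1.2 = stf S i g a.1.1 a.1.2 := by
    intro a
    obtain ⟨z, hz⟩ := Option.ne_none_iff_exists'.1 a.2
    filter_upwards [stf_eq_some.1 hz] with α ha
    rw [ha, hz]
  filter_upwards [ev_all S i h2 h3] with α ha
  intro x y z hz
  have h4 : stf S i g x y ≠ none := by
    rw [hz]
    simp
  exact (ha ⟨(x, y), h4⟩).trans hz

theorem ext_stf {S : SetB K} {i : K} {g : K → Pt K} {f : Pt K}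
    (h : ∀ᶠ α in (S.U i : Filter K), Ext (g α) f) : Ext (stf S i g) f := by
  intro x y z hz
  refine stf_eq_some.2 ?_
  filter_upwards [h] with α ha
  exact ha x y z hz

theorem ev_cpt {S : SetB K} {i : K} {g : K → Pt K} (hg : ∀ α, Ok S i (g α)) {f : Pt K}
    (hf : Ok S i f) (h : Ext f (stf S i g)) : ∀ᶠ α in (S.U i : Filter K), Cpt (g α) f := by
  classical
  have h2 : #{a : K × K // f a.1 a.2 ≠ none} < ci (S.th (S.nx i)) :=
    lt_of_le_of_lt hf.small (nu_lt_la S i)
  have h3 : ∀ a : {a : K × K // f a.1 a.2 ≠ none}, ∀ᶠ α in (S.U i : Filter K),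
      ∀ z z', g α a.1.1 a.1.2 = some z → f a.1.1 a.1.2 = some z' → z = z' := by
    rintro ⟨⟨x, y⟩, hxy⟩
    obtain ⟨w, hw⟩ := Option.ne_none_iff_exists'.1 hxy
    have hw' : f x y = some w := hw
    have hx : x < S.th (S.nx i) := (hf.dom x y w hw').1
    have hcard : #(Option (Iio x)) < ci (S.th (S.nx i)) := by
      rw [Cardinal.mk_option]
      have hinf : ℵ₀ ≤ ci (S.th (S.nx i)) := aleph0_le_th S _
      exact Cardinal.add_lt_of_lt hinf (S.th_init _ x hx)
        (lt_of_lt_of_le Cardinal.one_lt_aleph0 hinf)
    obtain ⟨j, hj⟩ := ev_const S i hcard (fun α => (g α x y).bind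
      (fun z => if hz : z < x then some (⟨z, hz⟩ : Iio x) else none))
    rcases j with _ | z0
    · filter_upwards [hj] with α ha z z' hz hz'
      exfalso
      have hz1 : g α x y = some z := hz
      have hzx : z < x := ((hg α).dom x y z hz1).2.2
      rw [hz1] at ha
      simp [hzx] at ha
    · have hev : ∀ᶠ α in (S.U i : Filter K), g α x y = some z0.1 := by
        filter_upwards [hj] with α ha
        rcases hgo : g α x y with _ | z
        · rw [hgo] at ha
          simp at ha
        · rw [hgo] at ha
          have hzx : z < x := ((hg α).dom x y z hgo).2.2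
          simp only [Option.bind_some, hzx, dif_pos, Option.some.injEq] at ha
          rw [← ha]
      have hfz : f x y = some z0.1 := h x y z0.1 (stf_eq_some.2 hev)
      filter_upwards [hev] with α ha z z' hz hz'
      have hz1 : g α x y = some z := hz
      have hz2 : f x y = some z' := hz'
      have e1 : z0.1 = z := Option.some.inj (ha.symm.trans hz1)
      have e2 : z0.1 = z' := Option.some.inj (hfz.symm.trans hz2)
      exact e1.symm.trans e2
  filter_upwards [ev_all S i h2 h3] with α ha
  intro x y z z' hz hz'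
  have h4 : f x y ≠ none := by
    rw [hz']
    simp
  exact ha ⟨(x, y), h4⟩ z z' hz hz'

theorem stf_const {S : SetB K} {i : K} {g : K → Pt K} {f : Pt K}
    (h : ∀ᶠ α in (S.U i : Filter K), g α = f) : stf S i g = f := by
  funext x y
  refine Option.ext fun z => ?_
  have key : stf S i g x y = some z ↔ f x y = some z := by
    rw [stf_eq_some]
    constructor
    · intro h1
      obtain ⟨α, ha, hb⟩ := (h.and h1).exists
      rw [← ha]
      exact hb
    · intro h1
      filter_upwards [h] with α ha
      rw [ha]
      exact h1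
  exact key

variable {S : SetB K}

/-- The stem. -/
noncomputable def st (r : RC S) : Cnd S where
  p i := stf S i (r.r i)
  ok i := stf_ok (r.ok i)
  bdd := by
    obtain ⟨b, hb⟩ := r.bdd
    exact ⟨b, fun i hi => stf_const (Filter.Eventually.of_forall fun α => hb i hi α)⟩

/-- `st r` with the coordinate `i` replaced by `r.r i α`. -/
noncomputable def pt (r : RC S) (i α : K) : Cnd S := upd (st r) i (r.r i α) (r.ok i α)

theorem pt_same (r : RC S) (i α : K) : (pt r i α).p i = r.r i α := by
  simp [pt, upd]

theorem pt_ne (r : RC S) {i j : K} (h : j ≠ i) (α : K) : (pt r i α).p j = (st r).p j := by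
  simp [pt, upd, h]

theorem st_mono {r' r : RC S} (h : RLe r' r) : Le (st r') (st r) := by
  intro i
  refine ext_stf ?_
  filter_upwards [h i, ev_ext_stf (r.ok i)] with α ha hb
  exact ha.trans hb

theorem st_rrepl (i : K) (u w : RC S) : st (rrepl i u w) = repl i (st u) (st w) := by
  refine Cnd.ext (funext fun j => ?_)
  by_cases hj : j < i
  · rw [repl_lt hj]
    show stf S j ((rrepl i u w).r j) = stf S j (u.r j)
    rw [rrepl_lt hj]
  · rw [repl_ge (not_lt.1 hj)]
    show stf S j ((rrepl i u w).r j) = stf S j (w.r j)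
    rw [rrepl_ge (not_lt.1 hj)]

theorem ev_pt_le_st (r : RC S) (i : K) : ∀ᶠ α in (S.U i : Filter K), Le (pt r i α) (st r) := by
  filter_upwards [ev_ext_stf (r.ok i)] with α ha
  intro j
  by_cases hj : j = i
  · subst hj
    rw [pt_same]
    exact ha
  · rw [pt_ne r hj]
    exact Ext.refl _

theorem ev_pt_mono {r' r : RC S} (h : RLe r' r) (i : K) :
    ∀ᶠ α in (S.U i : Filter K), Le (pt r' i α) (pt r i α) := by
  filter_upwards [h i] with α ha
  intro j
  by_cases hj : j = i
  · subst hj
    rw [pt_same, pt_same]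
    exact ha
  · rw [pt_ne r hj, pt_ne r' hj]
    exact st_mono h j

theorem closedR (i : K) (J : Type u) [LinearOrder J] [WellFoundedLT J] (hJ : #J ≤ ci (S.nu i))
    (s : J → RC S) (hs : ∀ i' j, i' ≤ j → RLeI i (s j) (s i')) (hne : Nonempty J) :
    ∃ c, ∀ j, RLeI i c (s j) := by
  obtain ⟨j0⟩ := hne
  have hsame : ∀ a : J, ∀ j < i, (s a).r j = (s j0).r j := by
    intro a j hj
    rcases le_total a j0 with h | h
    · exact ((hs a j0 h).2 j hj).symm
    · exact (hs j0 a h).2 j hj
  choose b hb using fun a => (s a).bdd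
  obtain ⟨B, hB⟩ := regK S b (lt_of_le_of_lt hJ (S.card_lt _))
  refine ⟨⟨fun j α => if j < i then (s j0).r j α else un (fun a => (s a).r j α), ?_, ?_, ?_⟩, ?_⟩
  · intro j α
    by_cases hj : j < i
    · simp only [hj, if_true]
      exact (s j0).ok j α
    · simp only [hj, if_false]
      exact ok_un (fun a => (s a).ok j α) (hJ.trans (nu_card_mono S (not_lt.1 hj)))
  · intro j α h
    by_cases hj : j < i
    · simp only [hj, if_true]
      exact (s j0).junk j α h
    · simp only [hj, if_false]
      exact Coord_un_emp fun a => (s a).junk j α h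
  · refine ⟨B, fun j hj α => ?_⟩
    by_cases hji : j < i
    · simp only [hji, if_true]
      exact hb j0 j ((hB j0).le.trans hj) α
    · simp only [hji, if_false]
      exact Coord_un_emp fun a => hb a j ((hB a).le.trans hj) α
  · intro a
    refine ⟨fun j => ?_, fun j hj => ?_⟩
    · by_cases hj : j < i
      · refine Filter.Eventually.of_forall fun α => ?_
        simp only [hj, if_true]
        rw [hsame a j hj]
        exact Ext.refl _
      · have hJJ : #(J × J) < ci (S.th (S.nx j)) := by
          have h1 : #(J × J) = #J * #J := by simp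
          rw [h1]
          calc #J * #J ≤ ci (S.nu i) * ci (S.nu i) := mul_le_mul' hJ hJ
            _ = ci (S.nu i) := Cardinal.mul_eq_self (aleph0_le_nu S i)
            _ ≤ ci (S.nu j) := nu_card_mono S (not_lt.1 hj)
            _ < ci (S.th (S.nx j)) := nu_lt_la S j
        have hc : ∀ q : J × J, ∀ᶠ α in (S.U j : Filter K), Cpt ((s q.1).r j α) ((s q.2).r j α) := by
          intro q
          rcases le_total q.1 q.2 with h | h
          · filter_upwards [(hs q.1 q.2 h).1 j] with α ha
            exact cpt_of_ext ha (Ext.refl _)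
          · filter_upwards [(hs q.2 q.1 h).1 j] with α ha
            exact cpt_of_ext (Ext.refl _) ha
        filter_upwards [ev_all S j hJJ hc] with α ha
        simp only [hj, if_false]
        exact ext_un (f := fun a => (s a).r j α) (fun a a' => ha (a, a')) a
    · funext α
      simp only [hj, if_true]
      rw [hsame a j hj]

/-- The tails are distributive. -/
theorem distR (i : K) {J : Type u} (hJ : #J ≤ ci (S.nu i)) (E : J → Set (RC S))
    (ho : ∀ j, W61.Opn (RLeI i) (E j)) (c : RC S) (hd : ∀ j, W61.Dns (RLeI i) c (E j)) :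
    ∃ q, RLeI i q c ∧ ∀ j, q ∈ E j :=
  W61.dist_closed (fun J _ _ h s h1 h2 => closedR i J h s h1 h2) hJ E ho c hd

/-- (R4) -/
theorem exists_ext {r : RC S} {q : Cnd S} (h : Le q (st r)) :
    ∃ r' : RC S, RLe r' r ∧ Le (st r') q ∧ ∀ j, q.p j = (st r).p j → r'.r j = r.r j := by
  classical
  refine ⟨⟨fun j α => if q.p j = (st r).p j then r.r j α else
    if Cpt (r.r j α) (q.p j) ∧ α < S.th (S.nx j) then jn (r.r j α) (q.p j) else r.r j α,
    ?_, ?_, ?_⟩, ?_, ?_, ?_⟩
  · intro j α
    split_ifs with h1 h2
    · exact r.ok j α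
    · exact ok_jn (r.ok j α) (q.ok j)
    · exact r.ok j α
  · intro j α hα
    split_ifs with h1 h2
    · exact r.junk j α hα
    · exact absurd h2.2 (not_lt.2 hα)
    · exact r.junk j α hα
  · obtain ⟨b, hb⟩ := r.bdd
    obtain ⟨b', hb'⟩ := q.bdd
    refine ⟨max b b', fun j hj α => ?_⟩
    have h1 := hb j ((le_max_left _ _).trans hj) α
    have h2 := hb' j ((le_max_right _ _).trans hj)
    split_ifs with h3 h4
    · exact h1
    · rw [h1, h2]
      funext x y
      rfl
    · exact h1
  · intro j
    refine Filter.Eventually.of_forall fun α => ?_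
    show Ext (if q.p j = (st r).p j then r.r j α else
      if Cpt (r.r j α) (q.p j) ∧ α < S.th (S.nx j) then jn (r.r j α) (q.p j) else r.r j α) (r.r j α)
    split_ifs with h1 h2
    · exact Ext.refl _
    · exact jn_left _ _
    · exact Ext.refl _
  · intro j
    show Ext (stf S j (fun α => if q.p j = (st r).p j then r.r j α else
      if Cpt (r.r j α) (q.p j) ∧ α < S.th (S.nx j) then jn (r.r j α) (q.p j) else r.r j α)) (q.p j)
    by_cases h1 : q.p j = (st r).p j
    · simp only [h1, if_true]
      exact Ext.refl _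
    · simp only [h1, if_false]
      refine ext_stf ?_
      filter_upwards [ev_cpt (r.ok j) (q.ok j) (h j), ev_lt S j] with α ha hb
      rw [if_pos ⟨ha, hb⟩]
      exact jn_right ha
  · intro j hj
    funext α
    show (if q.p j = (st r).p j then r.r j α else
      if Cpt (r.r j α) (q.p j) ∧ α < S.th (S.nx j) then jn (r.r j α) (q.p j) else r.r j α) = r.r j α
    rw [if_pos hj]

/-- the special case of extensions of the tail: if `m ≤ repl i a (st r)` then `r` has an extension in `RLeI i` with a stem whose
tail is below that of `m` -/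
theorem exists_ext_tail {i : K} {r : RC S} {a m : Cnd S} (h : Le m (repl i a (st r))) :
    ∃ r' : RC S, RLeI i r' r ∧ LeT i (st r') m := by
  have hq : Le (repl i (st r) m) (st r) := by
    intro j
    by_cases hj : j < i
    · rw [repl_lt hj]
      exact Ext.refl _
    · rw [repl_ge (not_lt.1 hj)]
      have h1 := h j
      rw [repl_ge (not_lt.1 hj)] at h1
      exact h1
  obtain ⟨r', h1, h2, h3⟩ := exists_ext hq
  refine ⟨r', ⟨h1, fun j hj => h3 j (repl_lt hj _ _)⟩, fun j hj => ?_⟩
  have h4 := h2 j
  rw [repl_ge hj] at h4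
  exact h4

/-! ### monotonicity facts for `rrepl` -/

theorem rrepl_leI {i : K} {u w : RC S} (h : RLe w u) : RLeI i (rrepl i u w) u := by
  refine ⟨fun j => ?_, fun j hj => rrepl_lt hj u w⟩
  by_cases hj : j < i
  · rw [rrepl_lt hj]
    exact Filter.Eventually.of_forall fun _ => Ext.refl _
  · rw [rrepl_ge (not_lt.1 hj)]
    exact h j

theorem rrepl_mono {i : K} {u u' w w' : RC S} (h1 : ∀ j < i, ∀ᶠ α in (S.U j : Filter K),
    Ext (u'.r j α) (u.r j α)) (h2 : ∀ j, i ≤ j → ∀ᶠ α in (S.U j : Filter K), Ext (w'.r j α) (w.r j α)) :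
    RLe (rrepl i u' w') (rrepl i u w) := by
  intro j
  by_cases hj : j < i
  · rw [rrepl_lt hj, rrepl_lt hj]
    exact h1 j hj
  · rw [rrepl_ge (not_lt.1 hj), rrepl_ge (not_lt.1 hj)]
    exact h2 j (not_lt.1 hj)

theorem RLeI.mono {i j : K} (hij : i ≤ j) {r' r : RC S} (h : RLeI j r' r) : RLeI i r' r :=
  ⟨h.1, fun k hk => h.2 k (hk.trans_le hij)⟩

end F61B
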