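import Pool.Agent.W_MP_f61043B_lc.DLa

/-!
# MP_f61043_lc, part B : names of subsets, with the stems of `R`

`exists_TD`: `i = nx j`.  For `α < th i` and `t` in `range (sp i)` (with a representative `a`) the set
`{v | ∃ a', LeS i a' a ∧ Dcd (b α) (repl i a' (st v))}` is open for `RLeI i` and dense (`exists_ext_tail`); the index set
`Iio (th i) × range (sp i)` has at most `ci (th i) ≤ ci (nu i)` elements (`mk_sp_nx`).  `distR i` gives `w'` in all of them.
`n α = {t | t = sp i a, Frc (b α) (repl i a (st w'))}`.  `TD`: let `LeT i m (st w')`.  If `Frc (b α) m`, below every `m1 ≤ m` take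
`a'` with `LeS i a' m1`, `Dcd (b α) (repl i a' (st w'))`; `repl i a' m1 ≤ m1` and `≤ repl i a' (st w')`, so `Frc (b α) (repl i a' (st w'))`.
Conversely, if `m1 ≤ m`, `LeS i m1 a`, `sp i a ∈ n α` then `m1 ≤ repl i a (st w')`.
-/

universe u

open Cardinal Set Filter

namespace F61B

open Pool.Agent.W_MP_315f31_lc

variable {K : Type u} [LinearOrder K] [WellFoundedLT K]

/-- The codes of the names of the subsets of `th i`. -/
abbrev NN (S : SetB K) (i : K) : Type u := Iio (S.th i) → Set (range (sp (S := S) i))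

/-- The name of a subset of `th i`. -/
noncomputable def nm {S : SetB K} {i : K} (n : NN S i) : K → DB S := fun α =>
  if h : α < S.th i then ofS i (Subtype.val '' n ⟨α, h⟩) else ⊥

theorem mk_NN (S : SetB K) (j : K) : #(NN S (S.nx j)) ≤ ci (S.nu (S.nx j)) := by
  have h0 : ℵ₀ ≤ ci (S.th (S.nx j)) := aleph0_le_th S _
  have h1 : #(NN S (S.nx j)) = (2 ^ #(range (sp (S := S) (S.nx j)))) ^ ci (S.th (S.nx j)) := by
    change #(Iio (S.th (S.nx j)) → Set (range (sp (S := S) (S.nx j)))) = _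
    rw [← Cardinal.power_def, Cardinal.mk_set]
  rw [h1, ← Cardinal.power_mul, S.nu_card, ← S.gch _ h0]
  refine Cardinal.power_le_power_left two_ne_zero ?_
  exact (mul_le_mul' (mk_sp_nx S j) le_rfl).trans (Cardinal.mul_eq_self h0).le

variable {S : SetB K}

/-- The tail (from `i` on) of the stem of `w` forces that the subsets `b` and `F` of `th i` are the same. -/
def TD (i : K) (w : RC S) (b F : K → DB S) : Prop :=
  ∀ α < S.th i, ∀ m, LeT i m (st w) → (Frc (b α) m ↔ Frc (F α) m)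

theorem TD.mono {i : K} {w w' : RC S} {b F : K → DB S} (h : TD i w b F) (hw : LeT i (st w') (st w)) :
    TD i w' b F :=
  fun α hα m hm => h α hα m fun j hj => (hm j hj).trans (hw j hj)

theorem TDex_repl_le {i : K} {r a p : Cnd S} (h1 : LeS i r a) (h2 : LeT i r p) :
    Le r (repl i a p) := by
  intro j
  rcases lt_or_ge j i with hj | hj
  · rw [repl_lt hj]
    exact h1 j hj
  · rw [repl_ge hj]
    exact h2 j hj

theorem exists_TD (j : K) (b : K → DB S) (w : RC S) : ∃ w', RLeI (S.nx j) w' w ∧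
    ∃ n : NN S (S.nx j), TD (S.nx j) w' b (nm n) := by
  classical
  have h0 : ℵ₀ ≤ ci (S.th (S.nx j)) := aleph0_le_th S _
  have hJ : #(Iio (S.th (S.nx j)) × range (sp (S := S) (S.nx j))) ≤ ci (S.nu (S.nx j)) := by
    rw [Cardinal.mk_prod, Cardinal.lift_id, Cardinal.lift_id]
    exact ((mul_le_mul' le_rfl (mk_sp_nx S j)).trans (Cardinal.mul_eq_self h0).le).trans
      (th_lt_nu S _).le
  have hrep : ∀ t : range (sp (S := S) (S.nx j)), ∃ a : Cnd S, sp (S.nx j) a = t.1 := fun t => t.2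
  choose a ha using hrep
  obtain ⟨w', hw', hE⟩ := distR (S.nx j) hJ
    (fun x : Iio (S.th (S.nx j)) × range (sp (S := S) (S.nx j)) =>
      {v : RC S | ∃ a', LeS (S.nx j) a' (a x.2) ∧ Dcd (b x.1) (repl (S.nx j) a' (st v))})
    (by
      rintro x p q ⟨a', h1, h2⟩ hq
      refine ⟨a', h1, h2.mono ?_⟩
      exact repl_mono (fun l _ => st_mono hq.1 l) (fun l _ => Ext.refl _))
    w
    (by
      rintro ⟨α, t⟩ v hv
      obtain ⟨m, hm, hd⟩ := dense_dcd (b α) (repl (S.nx j) (a t) (st v))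
      obtain ⟨v', hv', hT⟩ := exists_ext_tail hm
      refine ⟨v', hv', m, ?_, hd.mono ?_⟩
      · intro l hl
        have h1 := hm l
        rw [repl_lt hl] at h1
        exact h1
      · exact repl_le hT (fun l _ => Ext.refl _))
  refine ⟨w', hw', fun α => {t | Frc (b α) (repl (S.nx j) (a t) (st w'))}, ?_⟩
  intro α hα m hm
  have hnm : nm (S := S) (i := S.nx j)
      (fun α => {t | Frc (b α) (repl (S.nx j) (a t) (st w'))}) α
      = ofS (S.nx j) (Subtype.val ''
        {t : range (sp (S := S) (S.nx j)) | Frc (b α) (repl (S.nx j) (a t) (st w'))}) := by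
    unfold nm
    rw [dif_pos hα]
  rw [hnm]
  constructor
  · intro hb m1 hm1
    obtain ⟨a', h1, h2⟩ := hE (⟨α, hα⟩, ⟨sp (S.nx j) m1, ⟨m1, rfl⟩⟩)
    have h3 : LeS (S.nx j) a' m1 :=
      (leS_congr rfl (ha ⟨sp (S.nx j) m1, ⟨m1, rfl⟩⟩)).1 h1
    have h4 : Le (repl (S.nx j) a' m1) m1 := repl_le (fun l _ => Ext.refl _) h3
    have h5 : Le (repl (S.nx j) a' m1) (repl (S.nx j) a' (st w')) :=
      repl_mono (fun l hl => (hm1 l).trans (hm l hl)) (fun l _ => Ext.refl _)
    refine ⟨repl (S.nx j) a' m1, h4, a', ?_, ?_⟩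
    · refine ⟨⟨sp (S.nx j) a', ⟨a', rfl⟩⟩, ?_, rfl⟩
      show Frc (b α) (repl (S.nx j) (a ⟨sp (S.nx j) a', ⟨a', rfl⟩⟩) (st w'))
      rw [repl_congr (ha ⟨sp (S.nx j) a', ⟨a', rfl⟩⟩)]
      rcases h2 with h2 | h2
      · exact h2
      · have h6 : Frc (b α) (repl (S.nx j) a' m1) :=
          hb.mono (IsPre.trans _ _ _ h4 hm1)
        have h7 : Frc (b α)ᶜ (repl (S.nx j) a' m1) := h2.mono h5
        exact absurd h6 ((IM.RO.mem_compl (b α) _).1 h7 _ (le_refl _))
    · intro l hl
      rw [repl_lt hl]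
      exact Ext.refl _
  · intro hb
    refine IM.RO.mem_of_dense ?_
    intro q hq
    obtain ⟨r, hr, a0, ⟨t, ht, ht'⟩, h1⟩ := hb q hq
    refine ⟨r, hr, ?_⟩
    have h2 : LeS (S.nx j) r (a t) := (leS_congr rfl ((ha t).trans ht')).2 h1
    have h3 : Le r (repl (S.nx j) (a t) (st w')) :=
      TDex_repl_le h2 (fun l hl => (hr l).trans ((hq l).trans (hm l hl)))
    exact Frc.mono ht h3

end F61B
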